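import Mathlib

/-!
# Random orientations of a tree: the number of vertices which are reached from a vertex

All orientations of a tree with `k` edges are counted. For a vertex `v` of a rooted tree let `T(v)` be the set of the
vertices behind `v`; in all but few orientations only few vertices of `T(v)` are reached from `v` by a directed path.
-/

namespace AEJT

open Finset Relation
open scoped Classical

variable {V : Type*}

/-- the orientations of the graph `G` -/
def Ori (G : SimpleGraph V) : Set (V → V → Prop) := {E | (∀ a b, E a b → ¬ E b a) ∧ SimpleGraph.fromRel E = G}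

/-- the vertices behind `u`, seen from `r` -/
def Tset (G : SimpleGraph V) (r u : V) : Set V := {x | G.dist r x = G.dist r u + G.dist u x}

/-- the vertices which are reached from `u` by a directed path away from `r` -/
def Dset (G : SimpleGraph V) (r : V) (E : V → V → Prop) (u : V) : Set V :=
  {x | ReflTransGen (fun a b => E a b ∧ G.dist r b = G.dist r a + 1) u x}

/-- the vertices from which `u` is reached by a directed path towards `r` -/
def Aset (G : SimpleGraph V) (r : V) (E : V → V → Prop) (u : V) : Set V :=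
  {x | ReflTransGen (fun a b => E a b ∧ G.dist r a = G.dist r b + 1) x u}

theorem Ori.adj {G : SimpleGraph V} {E : V → V → Prop} (h : E ∈ Ori G) {a b : V} (hab : E a b) : G.Adj a b := by
  rw [← h.2, SimpleGraph.fromRel_adj]
  refine ⟨?_, Or.inl hab⟩
  rintro rfl
  exact h.1 _ _ hab hab

theorem Ori.or {G : SimpleGraph V} {E : V → V → Prop} (h : E ∈ Ori G) {a b : V} (hab : G.Adj a b) : E a b ∨ E b a := by
  rw [← h.2, SimpleGraph.fromRel_adj] at hab
  exact hab.2

theorem Ori.rev {G : SimpleGraph V} {E : V → V → Prop} (h : E ∈ Ori G) : (fun a b => E b a) ∈ Ori G := by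
  refine ⟨fun a b => h.1 b a, ?_⟩
  rw [← h.2]
  ext a b
  rw [SimpleGraph.fromRel_adj, SimpleGraph.fromRel_adj, or_comm]

theorem aset_eq (G : SimpleGraph V) (r : V) (E : V → V → Prop) (u : V) : Aset G r E u = Dset G r (fun a b => E b a) u := by
  ext x
  unfold Aset Dset
  rw [Set.mem_ofPred_eq, Set.mem_ofPred_eq, ← reflTransGen_swap]

/-- in a tree every vertex has at most one neighbour which is closer to a fixed vertex -/
theorem parent_unique {G : SimpleGraph V} (hG : G.IsTree) (ρ : V) {a b c : V} (ha : G.Adj a c)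
    (hb : G.Adj b c) (h1 : G.dist ρ c = G.dist ρ a + 1) (h2 : G.dist ρ c = G.dist ρ b + 1) : a = b := by
  obtain ⟨p, hp⟩ := hG.connected.exists_walk_length_eq_dist ρ a
  obtain ⟨q, hq⟩ := hG.connected.exists_walk_length_eq_dist ρ b
  have hp' : (p.concat ha).IsPath := by
    apply SimpleGraph.Walk.isPath_of_length_eq_dist
    rw [SimpleGraph.Walk.length_concat, hp, h1]
  have hq' : (q.concat hb).IsPath := by
    apply SimpleGraph.Walk.isPath_of_length_eq_dist
    rw [SimpleGraph.Walk.length_concat, hq, h2]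
  have he : p.concat ha = q.concat hb := (hG.existsUnique_path ρ c).unique hp' hq'
  have h3 := congrArg (fun w => w.penultimate) he
  simpa using h3

/-- the last vertex before `v` on a shortest path from `u` -/
theorem exists_pen {G : SimpleGraph V} (hG : G.Connected) {u v : V} {n : ℕ} (hn : G.dist u v = n + 1) :
    ∃ y, G.Adj y v ∧ G.dist u y = n := by
  obtain ⟨p, hp⟩ := hG.exists_walk_length_eq_dist u v
  have hnil : ¬ p.Nil := by
    intro hn'
    have := SimpleGraph.Walk.length_eq_zero_iff.2 hn'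
    omega
  have hadj := p.adj_penultimate hnil
  refine ⟨p.penultimate, hadj, ?_⟩
  have h2 := SimpleGraph.dist_le p.dropLast
  have h3 : p.dropLast.length + 1 = p.length := by
    have := congrArg SimpleGraph.Walk.length (p.concat_dropLast hadj)
    rw [SimpleGraph.Walk.length_concat] at this
    exact this
  have h4 := hG.dist_triangle (u := u) (v := p.penultimate) (w := v)
  have h5 : G.dist p.penultimate v = 1 := SimpleGraph.dist_eq_one_iff_adj.2 hadj
  omega

/-- the vertices behind `u` are reached by the parent relation -/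
theorem reach_iff {G : SimpleGraph V} (hG : G.IsTree) (ρ u v : V) :
    ReflTransGen (fun a c => G.Adj a c ∧ G.dist ρ c = G.dist ρ a + 1) u v ↔ v ∈ Tset G ρ u := by
  unfold Tset
  rw [Set.mem_ofPred_eq]
  constructor
  · intro h
    induction h with
    | refl => simp
    | @tail a c _ h2 ih =>
      have h3 := hG.connected.dist_triangle (u := ρ) (v := u) (w := c)
      have h4 := hG.connected.dist_triangle (u := u) (v := a) (w := c)
      have h5 : G.dist a c = 1 := SimpleGraph.dist_eq_one_iff_adj.2 h2.1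
      have h6 := h2.2
      omega
  · generalize hn : G.dist u v = n
    intro h
    induction n generalizing v with
    | zero =>
      rw [hG.connected.dist_eq_zero_iff] at hn
      rw [hn]
    | succ n ih =>
      obtain ⟨y, hy1, hy2⟩ := exists_pen hG.connected hn
      have h5 : G.dist y v = 1 := SimpleGraph.dist_eq_one_iff_adj.2 hy1
      have h6 := hG.connected.dist_triangle (u := ρ) (v := y) (w := v)
      have h7 := hG.connected.dist_triangle (u := ρ) (v := u) (w := y)
      exact (ih y hy2 (by omega)).tail ⟨hy1, by omega⟩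

theorem dset_subset {G : SimpleGraph V} (hG : G.IsTree) (r : V) {E : V → V → Prop} (hE : E ∈ Ori G) (u : V) :
    Dset G r E u ⊆ Tset G r u := by
  intro x hx
  rw [← reach_iff hG]
  unfold Dset at hx
  rw [Set.mem_ofPred_eq] at hx
  induction hx with
  | refl => exact ReflTransGen.refl
  | tail _ h ih => exact ih.tail ⟨Ori.adj hE h.1, h.2⟩

/-- the code of an orientation -/
noncomputable def cod (G : SimpleGraph V) (r : V) (E : V → V → Prop) (v : V) : Bool :=
  decide (∀ a, G.Adj a v → G.dist r v = G.dist r a + 1 → E a v)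

theorem cod_true_iff {G : SimpleGraph V} {r : V} {E : V → V → Prop} {v : V} :
    cod G r E v = true ↔ ∀ a, G.Adj a v → G.dist r v = G.dist r a + 1 → E a v := by
  unfold cod
  exact decide_eq_true_iff

theorem cod_inj {G : SimpleGraph V} (hG : G.IsTree) (r : V) {E E' : V → V → Prop} (hE : E ∈ Ori G)
    (hE' : E' ∈ Ori G) (h : cod G r E = cod G r E') : E = E' := by
  have key : ∀ E E' : V → V → Prop, E ∈ Ori G → E' ∈ Ori G → cod G r E = cod G r E' → ∀ a b, E a b → E' a b := by
    intro E E' hE hE' h a b hab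
    have hadj := Ori.adj hE hab
    rcases hG.dist_eq_dist_add_one_of_adj r hadj with h1 | h1
    · -- `b` is the parent of `a`
      have h2 : cod G r E a = false := by
        unfold cod
        rw [decide_eq_false_iff_not]
        intro hc
        exact hE.1 _ _ hab (hc b hadj.symm h1)
      rw [h] at h2
      unfold cod at h2
      rw [decide_eq_false_iff_not] at h2
      push Not at h2
      obtain ⟨c, hc1, hc2, hc3⟩ := h2
      obtain rfl := parent_unique hG r hc1 hadj.symm hc2 h1
      exact (Ori.or hE' hadj).resolve_right hc3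
    · have h2 : cod G r E b = true := by
        unfold cod
        rw [decide_eq_true_iff]
        intro c hc1 hc2
        obtain rfl := parent_unique hG r hc1 hadj hc2 h1
        exact hab
      rw [h] at h2
      unfold cod at h2
      rw [decide_eq_true_iff] at h2
      exact h2 a hadj h1
  funext a b
  exact propext ⟨key E E' hE hE' h a b, key E' E hE' hE h.symm a b⟩

theorem cod_root {G : SimpleGraph V} (r : V) (E : V → V → Prop) : cod G r E r = true := by
  unfold cod
  rw [decide_eq_true_iff]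
  intro a _ h
  rw [SimpleGraph.dist_self] at h
  omega

/-- if `x` is reached from `v` then the code is `true` on the path -/
theorem exists_S {G : SimpleGraph V} (hG : G.IsTree) (r v x : V)
    (h : ReflTransGen (fun a c => G.Adj a c ∧ G.dist r c = G.dist r a + 1) v x) :
    ∃ S : Finset V, S.card = G.dist v x ∧ (∀ w ∈ S, G.dist r v < G.dist r w ∧ G.dist r w ≤ G.dist r x) ∧
      ∀ E ∈ Ori G, x ∈ Dset G r E v → ∀ w ∈ S, cod G r E w = true := by
  induction h with
  | refl => exact ⟨∅, by simp, by simp, by simp⟩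
  | @tail y x h1 h2 ih =>
    obtain ⟨S, hS1, hS2, hS3⟩ := ih
    have e1 := (reach_iff hG r v y).1 h1
    have e2 := (reach_iff hG r v x).1 (h1.tail h2)
    unfold Tset at e1 e2
    rw [Set.mem_ofPred_eq] at e1 e2
    have e3 := h2.2
    have hx : x ∉ S := by
      intro hx
      have := (hS2 x hx).2
      omega
    refine ⟨insert x S, ?_, ?_, ?_⟩
    · rw [card_insert_of_notMem hx, hS1]
      omega
    · intro w hw
      rcases mem_insert.1 hw with rfl | hw
      · omega
      · have := hS2 w hw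
        omega
    · intro E hE hxE w hw
      unfold Dset at hxE
      rw [Set.mem_ofPred_eq] at hxE
      rcases hxE.cases_tail with h3 | ⟨y', h3, h4⟩
      · subst h3
        rw [SimpleGraph.dist_self] at e2
        omega
      · obtain rfl := parent_unique hG r (Ori.adj hE h4.1) h2.1 h4.2 h2.2
        rcases mem_insert.1 hw with rfl | hw
        · unfold cod
          rw [decide_eq_true_iff]
          intro c hc1 hc2
          obtain rfl := parent_unique hG r hc1 h2.1 hc2 h2.2
          exact h4.1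
        · exact hS3 E hE h3 w hw

variable [Fintype V]

private theorem card_fun (S : Finset V) : (univ.filter (fun f : V → Bool => ∀ w ∈ S, f w = true)).card =
    2 ^ (Fintype.card V - S.card) := by
  have h : univ.filter (fun f : V → Bool => ∀ w ∈ S, f w = true) =
      Fintype.piFinset (fun w => if w ∈ S then {true} else (univ : Finset Bool)) := by
    ext f
    rw [mem_filter, Fintype.mem_piFinset]
    constructor
    · rintro ⟨-, h⟩ w
      by_cases hw : w ∈ S
      · simp [hw, h w hw]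
      · simp [hw]
    · intro h
      refine ⟨mem_univ _, fun w hw => ?_⟩
      have := h w
      simpa [hw] using this
  rw [h, Fintype.card_piFinset]
  have h2 : ∀ w, (if w ∈ S then ({true} : Finset Bool) else univ).card = if w ∈ S then 1 else 2 := by
    intro w
    split_ifs <;> simp
  simp only [h2]
  rw [prod_ite]
  simp only [prod_const_one, one_mul, prod_const]
  congr 1
  rw [filter_not, card_sdiff_of_subset (filter_subset _ _), card_univ]
  congr 1
  congr 1
  ext w
  simp

/-- the number of orientations in which `x` is reached from `v` -/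
theorem count_reach {k : ℕ} (hk : Fintype.card V = k + 1) {G : SimpleGraph V} (hG : G.IsTree) (r v x : V)
    (hx : x ∈ Tset G r v) : {E | E ∈ Ori G ∧ x ∈ Dset G r E v}.ncard * 2 ^ G.dist v x ≤ 2 ^ k := by
  obtain ⟨S, hS1, hS2, hS3⟩ := exists_S hG r v x ((reach_iff hG r v x).2 hx)
  have hr : r ∉ S := by
    intro h
    have := (hS2 r h).1
    rw [SimpleGraph.dist_self] at this
    omega
  have h1 : {E | E ∈ Ori G ∧ x ∈ Dset G r E v}.ncard ≤
      ((univ.filter (fun f : V → Bool => ∀ w ∈ insert r S, f w = true) : Finset (V → Bool)) : Set (V → Bool)).ncard := by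
    refine Set.ncard_le_ncard_of_injOn (cod G r) ?_ ?_ (Set.toFinite _)
    · rintro E ⟨hE, hxE⟩
      rw [mem_coe, mem_filter]
      refine ⟨mem_univ _, fun w hw => ?_⟩
      rcases mem_insert.1 hw with rfl | hw
      · exact cod_root w E
      · exact hS3 E hE hxE w hw
    · rintro E ⟨hE, -⟩ E' ⟨hE', -⟩ h
      exact cod_inj hG r hE hE' h
  rw [Set.ncard_coe_finset, card_fun, card_insert_of_notMem hr, hS1, hk] at h1
  have h2 : (insert r S).card ≤ Fintype.card V := card_le_univ _
  rw [card_insert_of_notMem hr, hS1, hk] at h2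
  calc {E | E ∈ Ori G ∧ x ∈ Dset G r E v}.ncard * 2 ^ G.dist v x ≤ 2 ^ (k + 1 - (G.dist v x + 1)) * 2 ^ G.dist v x :=
      Nat.mul_le_mul_right _ h1
    _ = 2 ^ k := by
      rw [← pow_add]
      congr 1
      omega

theorem card_ori_le {k : ℕ} (hk : Fintype.card V = k + 1) {G : SimpleGraph V} (hG : G.IsTree) (r : V) :
    (Ori G).ncard ≤ 2 ^ k := by
  have h := count_reach hk hG r r r (by unfold Tset; simp)
  have h2 : {E | E ∈ Ori G ∧ r ∈ Dset G r E r} = Ori G := by
    ext E
    rw [Set.mem_ofPred_eq]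
    exact ⟨fun h => h.1, fun h => ⟨h, ReflTransGen.refl⟩⟩
  rw [h2, SimpleGraph.dist_self, pow_zero, mul_one] at h
  exact h

/-- the ball of radius `L` -/
theorem card_ball {G : SimpleGraph V} (hG : G.Connected) {Δ : ℕ} (hΔ : 2 ≤ Δ) (hdeg : ∀ v, (G.neighborSet v).ncard ≤ Δ)
    (v : V) (L : ℕ) : (univ.filter (fun x => G.dist v x < L)).card + 1 ≤ Δ ^ L := by
  induction L with
  | zero => simp
  | succ L ih =>
    have hsub : univ.filter (fun x => G.dist v x < L + 1) ⊆
        insert v ((univ.filter (fun x => G.dist v x < L)).biUnion (fun y => univ.filter (fun x => G.Adj y x))) := by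
      intro x hx
      rw [mem_filter] at hx
      rw [mem_insert, mem_biUnion]
      by_cases h0 : G.dist v x = 0
      · left
        exact (hG.dist_eq_zero_iff.1 h0).symm
      · right
        obtain ⟨n, hn⟩ : ∃ n, G.dist v x = n + 1 := ⟨G.dist v x - 1, by omega⟩
        obtain ⟨y, hy1, hy2⟩ := exists_pen hG hn
        exact ⟨y, by rw [mem_filter]; exact ⟨mem_univ _, by omega⟩, by rw [mem_filter]; exact ⟨mem_univ _, hy1⟩⟩
    have h1 : ((univ.filter (fun x => G.dist v x < L)).biUnion (fun y => univ.filter (fun x => G.Adj y x))).card ≤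
        (univ.filter (fun x => G.dist v x < L)).card * Δ := by
      refine card_biUnion_le_card_mul _ _ _ fun y _ => ?_
      refine le_trans (le_of_eq ?_) (hdeg y)
      rw [← Set.ncard_coe_finset]
      congr 1
      ext x
      simp
    have h2 := (card_le_card hsub).trans (card_insert_le _ _)
    have h3 : ((univ.filter (fun x => G.dist v x < L)).card + 1) * Δ ≤ Δ ^ L * Δ := Nat.mul_le_mul_right _ ih
    rw [pow_succ]
    rw [add_mul, one_mul] at h3
    omega

/-- the sum over all orientations of the number of reached vertices -/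
theorem sum_dset {k : ℕ} (hk : Fintype.card V = k + 1) {G : SimpleGraph V} (hG : G.IsTree) {Δ : ℕ} (hΔ : 2 ≤ Δ)
    (hdeg : ∀ v, (G.neighborSet v).ncard ≤ Δ) (r v : V) (L : ℕ) :
    ∑ E ∈ univ.filter (fun E : V → V → Prop => E ∈ Ori G), ((Dset G r E v).ncard : ℝ) ≤
      ((Δ : ℝ) ^ L + ((Tset G r v).ncard : ℝ) / 2 ^ L) * 2 ^ k := by
  have h1 : ∀ E ∈ univ.filter (fun E : V → V → Prop => E ∈ Ori G), ((Dset G r E v).ncard : ℝ) =
      ∑ x ∈ univ.filter (fun x => x ∈ Tset G r v), if x ∈ Dset G r E v then (1 : ℝ) else 0 := by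
    intro E hE
    rw [mem_filter] at hE
    rw [← sum_filter, sum_const, nsmul_eq_mul, mul_one, filter_filter]
    congr 1
    rw [← Set.ncard_coe_finset]
    congr 1
    ext x
    rw [mem_coe, mem_filter]
    exact ⟨fun h => ⟨mem_univ _, dset_subset hG r hE.2 v h, h⟩, fun h => h.2.2⟩
  rw [sum_congr rfl h1, sum_comm]
  have h2 : ∀ x ∈ univ.filter (fun x => x ∈ Tset G r v),
      (∑ E ∈ univ.filter (fun E : V → V → Prop => E ∈ Ori G), if x ∈ Dset G r E v then (1 : ℝ) else 0) ≤
        2 ^ k / 2 ^ G.dist v x := by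
    intro x hx
    rw [mem_filter] at hx
    rw [← sum_filter, sum_const, nsmul_eq_mul, mul_one, filter_filter, le_div_iff₀ (by positivity)]
    have h3 := count_reach hk hG r v x hx.2
    have h4 : (univ.filter (fun E : V → V → Prop => E ∈ Ori G ∧ x ∈ Dset G r E v)).card =
        {E | E ∈ Ori G ∧ x ∈ Dset G r E v}.ncard := by
      rw [← Set.ncard_coe_finset]
      congr 1
      ext E
      simp
    rw [h4]
    exact_mod_cast h3
  refine (sum_le_sum h2).trans ?_
  -- the vertices at distance less than `L` and the others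
  have hT : (Tset G r v).ncard = (univ.filter (fun x => x ∈ Tset G r v)).card := by
    rw [← Set.ncard_coe_finset]
    congr 1
    ext x
    simp
  rw [← sum_filter_add_sum_filter_not (univ.filter (fun x => x ∈ Tset G r v)) (fun x => G.dist v x < L), add_mul]
  have hk0 : (0 : ℝ) < 2 ^ k := by positivity
  refine add_le_add ?_ ?_
  · have h5 : ∀ x ∈ (univ.filter (fun x => x ∈ Tset G r v)).filter (fun x => G.dist v x < L),
        (2 : ℝ) ^ k / 2 ^ G.dist v x ≤ 2 ^ k := by
      intro x _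
      exact div_le_self hk0.le (one_le_pow₀ (by norm_num))
    refine (sum_le_sum h5).trans ?_
    rw [sum_const, nsmul_eq_mul]
    refine mul_le_mul_of_nonneg_right ?_ hk0.le
    have h6 := card_ball hG.connected hΔ hdeg v L
    have h7 : ((univ.filter (fun x => x ∈ Tset G r v)).filter (fun x => G.dist v x < L)).card ≤ Δ ^ L := by
      refine le_trans (card_le_card ?_) (Nat.le_of_succ_le h6)
      intro x hx
      rw [mem_filter] at hx ⊢
      exact ⟨mem_univ _, hx.2⟩
    exact_mod_cast h7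
  · have h5 : ∀ x ∈ (univ.filter (fun x => x ∈ Tset G r v)).filter (fun x => ¬ G.dist v x < L),
        (2 : ℝ) ^ k / 2 ^ G.dist v x ≤ 2 ^ k / 2 ^ L := by
      intro x hx
      rw [mem_filter] at hx
      exact div_le_div_of_nonneg_left hk0.le (by positivity) (pow_le_pow_right₀ (by norm_num) (by omega))
    refine (sum_le_sum h5).trans ?_
    rw [sum_const, nsmul_eq_mul, hT]
    have h6 : (((univ.filter (fun x => x ∈ Tset G r v)).filter (fun x => ¬ G.dist v x < L)).card : ℝ) ≤
        ((univ.filter (fun x => x ∈ Tset G r v)).card : ℝ) := by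
      exact_mod_cast card_le_card (filter_subset _ _)
    calc (((univ.filter (fun x => x ∈ Tset G r v)).filter (fun x => ¬ G.dist v x < L)).card : ℝ) * (2 ^ k / 2 ^ L)
        ≤ ((univ.filter (fun x => x ∈ Tset G r v)).card : ℝ) * (2 ^ k / 2 ^ L) :=
          mul_le_mul_of_nonneg_right h6 (by positivity)
      _ = ((univ.filter (fun x => x ∈ Tset G r v)).card : ℝ) / 2 ^ L * 2 ^ k := by ring

/-- Markov's inequality -/
theorem count_large {k : ℕ} (hk : Fintype.card V = k + 1) {G : SimpleGraph V} (hG : G.IsTree) {Δ : ℕ} (hΔ : 2 ≤ Δ)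
    (hdeg : ∀ v, (G.neighborSet v).ncard ≤ Δ) (r v : V) (L : ℕ) {t : ℝ} (ht : 0 < t) :
    ({E | E ∈ Ori G ∧ t < (Dset G r E v).ncard}.ncard : ℝ) ≤
      ((Δ : ℝ) ^ L + ((Tset G r v).ncard : ℝ) / 2 ^ L) * 2 ^ k / t := by
  rw [le_div_iff₀ ht]
  refine le_trans ?_ (sum_dset hk hG hΔ hdeg r v L)
  have h1 : {E | E ∈ Ori G ∧ t < (Dset G r E v).ncard}.ncard =
      ((univ.filter (fun E : V → V → Prop => E ∈ Ori G)).filter (fun E => t < (Dset G r E v).ncard)).card := by
    rw [← Set.ncard_coe_finset]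
    congr 1
    ext E
    simp
  rw [h1]
  refine le_trans ?_ (sum_le_sum_of_subset_of_nonneg (filter_subset (fun E => t < (Dset G r E v).ncard) _)
    (fun E _ _ => Nat.cast_nonneg _))
  rw [← nsmul_eq_mul, ← sum_const]
  refine sum_le_sum fun E hE => ?_
  rw [mem_filter] at hE
  exact hE.2.le

/-- the same for the vertices from which `v` is reached -/
theorem count_large' {k : ℕ} (hk : Fintype.card V = k + 1) {G : SimpleGraph V} (hG : G.IsTree) {Δ : ℕ} (hΔ : 2 ≤ Δ)
    (hdeg : ∀ v, (G.neighborSet v).ncard ≤ Δ) (r v : V) (L : ℕ) {t : ℝ} (ht : 0 < t) :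
    ({E | E ∈ Ori G ∧ t < (Aset G r E v).ncard}.ncard : ℝ) ≤
      ((Δ : ℝ) ^ L + ((Tset G r v).ncard : ℝ) / 2 ^ L) * 2 ^ k / t := by
  refine le_trans ?_ (count_large hk hG hΔ hdeg r v L ht)
  have h : {E | E ∈ Ori G ∧ t < (Aset G r E v).ncard}.ncard ≤ {E | E ∈ Ori G ∧ t < (Dset G r E v).ncard}.ncard := by
    refine Set.ncard_le_ncard_of_injOn (fun E a b => E b a) ?_ ?_ (Set.toFinite _)
    · rintro E ⟨hE, hx⟩
      refine ⟨Ori.rev hE, ?_⟩
      rw [aset_eq] at hx
      exact hx
    · intro E _ E' _ h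
      funext a b
      exact congrFun (congrFun h b) a
  exact_mod_cast h

private theorem geo_le (m : ℕ) : ∑ i ∈ range m, (1 : ℝ) / 2 ^ (m - 1 - i) ≤ 2 := by
  have h1 : ∑ i ∈ range m, (1 : ℝ) / 2 ^ (m - 1 - i) = ∑ i ∈ range m, (1 : ℝ) / 2 ^ i :=
    sum_range_reflect (fun i => (1 : ℝ) / 2 ^ i) m
  rw [h1]
  have h2 : ∀ n : ℕ, ∑ i ∈ range n, (1 : ℝ) / 2 ^ i = 2 - 2 / 2 ^ n := by
    intro n
    induction n with
    | zero => simp
    | succ n ih =>
      rw [sum_range_succ, ih, pow_succ]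
      field_simp
      ring
  rw [h2]
  have : (0 : ℝ) ≤ 2 / 2 ^ m := by positivity
  linarith

/-- **In all but few orientations all marked vertices reach few vertices behind them and are reached by few of them** -/
theorem count_bad (Δ : ℕ) (hΔ : 2 ≤ Δ) {ε δ : ℝ} (hε : 0 < ε) (hδ : 0 < δ) : ∃ M₀ : ℕ, ∀ M : ℕ, M₀ ≤ M →
    ∀ (k : ℕ) (G : SimpleGraph (Fin (k + 1))), G.IsTree → (∀ v, (G.neighborSet v).ncard ≤ Δ) →
    ∀ (r : Fin (k + 1)) (m : ℕ) (v : ℕ → Fin (k + 1)), (∀ i < m, M ≤ (Tset G r (v i)).ncard) →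
      (∀ i, i + 1 < m → 2 * Δ * (Tset G r (v (i + 1))).ncard ≤ (Tset G r (v i)).ncard) →
      ({E | E ∈ Ori G ∧ ∃ i < m, ε * (Tset G r (v i)).ncard < (Dset G r E (v i)).ncard ∨
        ε * (Tset G r (v i)).ncard < (Aset G r E (v i)).ncard}.ncard : ℝ) ≤ δ * 2 ^ k := by
  -- the constants
  obtain ⟨L₀, hL₀⟩ : ∃ L₀ : ℕ, 8 / (ε * δ) ≤ 2 ^ L₀ := by
    obtain ⟨n, hn⟩ := pow_unbounded_of_one_lt (8 / (ε * δ)) (one_lt_two (α := ℝ))
    exact ⟨n, hn.le⟩
  have hΔ' : (2 : ℝ) ≤ Δ := by exact_mod_cast hΔ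
  have hΔ0 : (0 : ℝ) < Δ := by linarith
  obtain ⟨M₀, hM₀⟩ : ∃ M₀ : ℕ, M₀ = ⌈8 * (Δ : ℝ) ^ L₀ / (ε * δ)⌉₊ + 1 := ⟨_, rfl⟩
  refine ⟨M₀, ?_⟩
  intro M hM k G hG hdeg r m v hv hs
  have hk : Fintype.card (Fin (k + 1)) = k + 1 := Fintype.card_fin _
  have hM1 : 8 * (Δ : ℝ) ^ L₀ / (ε * δ) ≤ M := by
    have h1 : ⌈8 * (Δ : ℝ) ^ L₀ / (ε * δ)⌉₊ ≤ M := by omega
    exact (Nat.le_ceil (8 * (Δ : ℝ) ^ L₀ / (ε * δ))).trans (Nat.cast_le.2 h1)
  have hM0 : (0 : ℝ) < M := by
    have : 1 ≤ M := by omega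
    exact_mod_cast this
  have hεδ : 0 < ε * δ := mul_pos hε hδ
  have hk0 : (0 : ℝ) < 2 ^ k := by positivity
  -- the sizes grow
  have hsz : ∀ j i : ℕ, i + j + 1 = m → (M : ℝ) * (2 * Δ) ^ j ≤ (Tset G r (v i)).ncard := by
    intro j
    induction j with
    | zero =>
      intro i hi
      rw [pow_zero, mul_one]
      exact_mod_cast hv i (by omega)
    | succ j ih =>
      intro i hi
      have h1 := ih (i + 1) (by omega)
      have h2 : (2 * Δ * (Tset G r (v (i + 1))).ncard : ℝ) ≤ (Tset G r (v i)).ncard := by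
        exact_mod_cast hs i (by omega)
      calc (M : ℝ) * (2 * Δ) ^ (j + 1) = 2 * Δ * (M * (2 * Δ) ^ j) := by ring
        _ ≤ 2 * Δ * (Tset G r (v (i + 1))).ncard := mul_le_mul_of_nonneg_left h1 (by positivity)
        _ ≤ _ := h2
  -- one mark
  have hone : ∀ i < m, ({E | E ∈ Ori G ∧ (ε * (Tset G r (v i)).ncard < (Dset G r E (v i)).ncard ∨
      ε * (Tset G r (v i)).ncard < (Aset G r E (v i)).ncard)}.ncard : ℝ) ≤ δ / 2 * 2 ^ k * (1 / 2 ^ (m - 1 - i)) := by
    intro i hi
    obtain ⟨j, hj⟩ : ∃ j, j = m - 1 - i := ⟨_, rfl⟩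
    rw [← hj]
    have h1 := hsz j i (by omega)
    obtain ⟨s, hs'⟩ : ∃ s : ℝ, s = (Tset G r (v i)).ncard := ⟨_, rfl⟩
    rw [← hs'] at h1 ⊢
    have hs0 : 0 < s := lt_of_lt_of_le (by positivity) h1
    have h2 := count_large hk hG hΔ hdeg r (v i) (L₀ + j) (mul_pos hε hs0)
    have h3 := count_large' hk hG hΔ hdeg r (v i) (L₀ + j) (mul_pos hε hs0)
    have h4 : {E | E ∈ Ori G ∧ (ε * s < (Dset G r E (v i)).ncard ∨ ε * s < (Aset G r E (v i)).ncard)}.ncard ≤
        {E | E ∈ Ori G ∧ ε * s < (Dset G r E (v i)).ncard}.ncard +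
        {E | E ∈ Ori G ∧ ε * s < (Aset G r E (v i)).ncard}.ncard := by
      refine le_trans (Set.ncard_le_ncard ?_ (Set.toFinite _)) (Set.ncard_union_le _ _)
      rintro E ⟨hE, h | h⟩
      · exact Or.inl ⟨hE, h⟩
      · exact Or.inr ⟨hE, h⟩
    have h4' : ({E | E ∈ Ori G ∧ (ε * s < (Dset G r E (v i)).ncard ∨ ε * s < (Aset G r E (v i)).ncard)}.ncard : ℝ) ≤
        ({E | E ∈ Ori G ∧ ε * s < (Dset G r E (v i)).ncard}.ncard : ℝ) +
        ({E | E ∈ Ori G ∧ ε * s < (Aset G r E (v i)).ncard}.ncard : ℝ) := by exact_mod_cast h4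
    refine h4'.trans ((add_le_add h2 h3).trans ?_)
    rw [← hs', ← two_mul]
    -- the numbers
    have h5 : ((Δ : ℝ) ^ (L₀ + j) + s / 2 ^ (L₀ + j)) * 2 ^ k / (ε * s) =
        ((Δ : ℝ) ^ (L₀ + j) / s + 1 / 2 ^ (L₀ + j)) * (2 ^ k / ε) := by
      field_simp
    rw [h5]
    have h6 : (Δ : ℝ) ^ (L₀ + j) / s ≤ ε * δ / 8 * (1 / 2 ^ j) := by
      rw [div_le_iff₀ hs0]
      have h7 : 8 * (Δ : ℝ) ^ L₀ ≤ M * (ε * δ) := by rwa [div_le_iff₀ hεδ] at hM1
      calc (Δ : ℝ) ^ (L₀ + j) = 8 * (Δ : ℝ) ^ L₀ * (Δ ^ j / 8) := by rw [pow_add]; ring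
        _ ≤ M * (ε * δ) * (Δ ^ j / 8) := mul_le_mul_of_nonneg_right h7 (by positivity)
        _ = ε * δ / 8 * (1 / 2 ^ j) * (M * (2 * Δ) ^ j) := by
          rw [mul_pow]
          field_simp
        _ ≤ ε * δ / 8 * (1 / 2 ^ j) * s := mul_le_mul_of_nonneg_left h1 (by positivity)
    have h7 : (1 : ℝ) / 2 ^ (L₀ + j) ≤ ε * δ / 8 * (1 / 2 ^ j) := by
      rw [pow_add]
      rw [div_le_iff₀ (by positivity)]
      rw [div_le_iff₀ hεδ] at hL₀
      have h8 : ε * δ / 8 * (1 / 2 ^ j) * (2 ^ L₀ * 2 ^ j) = 2 ^ L₀ * (ε * δ) / 8 := by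
        field_simp
      rw [h8]
      linarith
    calc 2 * (((Δ : ℝ) ^ (L₀ + j) / s + 1 / 2 ^ (L₀ + j)) * (2 ^ k / ε))
        ≤ 2 * ((ε * δ / 8 * (1 / 2 ^ j) + ε * δ / 8 * (1 / 2 ^ j)) * (2 ^ k / ε)) := by
          refine mul_le_mul_of_nonneg_left (mul_le_mul_of_nonneg_right (add_le_add h6 h7) (by positivity)) (by norm_num)
      _ = δ / 2 * 2 ^ k * (1 / 2 ^ j) := by
          field_simp
          ring
  -- the union
  have hsub : {E | E ∈ Ori G ∧ ∃ i < m, ε * (Tset G r (v i)).ncard < (Dset G r E (v i)).ncard ∨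
      ε * (Tset G r (v i)).ncard < (Aset G r E (v i)).ncard} ⊆
      ⋃ i ∈ range m, {E | E ∈ Ori G ∧ (ε * (Tset G r (v i)).ncard < (Dset G r E (v i)).ncard ∨
        ε * (Tset G r (v i)).ncard < (Aset G r E (v i)).ncard)} := by
    rintro E ⟨hE, i, hi, h⟩
    rw [Set.mem_iUnion₂]
    exact ⟨i, Finset.mem_range.2 hi, hE, h⟩
  have h1 := (Set.ncard_le_ncard hsub (Set.toFinite _)).trans (set_ncard_biUnion_le _ _)
  have h2 : ({E | E ∈ Ori G ∧ ∃ i < m, ε * (Tset G r (v i)).ncard < (Dset G r E (v i)).ncard ∨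
      ε * (Tset G r (v i)).ncard < (Aset G r E (v i)).ncard}.ncard : ℝ) ≤
      ∑ i ∈ range m, ({E | E ∈ Ori G ∧ (ε * (Tset G r (v i)).ncard < (Dset G r E (v i)).ncard ∨
        ε * (Tset G r (v i)).ncard < (Aset G r E (v i)).ncard)}.ncard : ℝ) := by exact_mod_cast h1
  refine h2.trans ((sum_le_sum fun i hi => hone i (Finset.mem_range.1 hi)).trans ?_)
  rw [← mul_sum]
  have h3 := geo_le m
  calc δ / 2 * 2 ^ k * ∑ i ∈ range m, (1 : ℝ) / 2 ^ (m - 1 - i) ≤ δ / 2 * 2 ^ k * 2 :=
      mul_le_mul_of_nonneg_left h3 (by positivity)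
    _ = δ * 2 ^ k := by ring

end AEJT
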