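import Pool.Agent.AEJT.Code
import Pool.Agent.AELT.Main0

/-!
# The vertices which are reached from a vertex of an oriented rooted tree
-/

namespace AEJT

open Finset Relation AE15 AED AELT AESK LTT
open scoped Classical

section reach

variable {τ : Type*} [Fintype τ] {E P : τ → τ → Prop}

theorem rch_eq_sum (σ : Bool) (F : Fd) :
    rch σ F = (F.trees.map (fun p => if p.1 = σ then rch σ p.2 + 1 else 0)).sum := by
  induction F with
  | nil => rfl
  | node d c s _ ihs => simp [rch, Fd.trees, ihs]

/-- the number of the vertices which are reached by arcs of the direction `σ` -/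
theorem rch_code {h : τ → ℕ} (hE : ∀ a b, P a b → h a < h b) (hin : ∀ a b c, P a c → P b c → a = b) (σ : Bool) (n : ℕ) :
    ∀ v, (AE32.desc P v).card = n →
      rch σ (code E P v) + 1 = (AE32.desc (fun a c => P a c ∧ decide (E a c) = σ) v).card := by
  obtain ⟨Q, hQ⟩ : ∃ Q : τ → τ → Prop, Q = fun a c => P a c ∧ decide (E a c) = σ := ⟨_, rfl⟩
  have hQP : ∀ a c, Q a c → P a c := fun a c h => by rw [hQ] at h; exact h.1
  have hE' : ∀ a b, Q a b → h a < h b := fun a b h => hE a b (hQP a b h)
  have hin' : ∀ a b c, Q a c → Q b c → a = b := fun a b c h h' => hin a b c (hQP _ _ h) (hQP _ _ h')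
  rw [← hQ]
  induction n using Nat.strong_induction_on with
  | _ n ih =>
    intro v hv
    rw [rch_eq_sum, code_trees hE, List.map_map]
    have h1 : (chl P v).toList.map ((fun p : Bool × Fd => if p.1 = σ then rch σ p.2 + 1 else 0) ∘
        fun w => (decide (E v w), code E P w)) =
        (chl P v).toList.map (fun w => if decide (E v w) = σ then (AE32.desc Q w).card else 0) := by
      apply List.map_congr_left
      intro w hw
      have hw' : P v w := mem_chl.1 (mem_toList.1 hw)
      simp only [Function.comp]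
      rw [ih _ (by rw [← hv]; exact desc_card_lt hE hw') w rfl]
    rw [h1, Finset.sum_map_toList, (desc_eq hE' v).1, card_insert_of_notMem (desc_eq hE' v).2, card_biUnion]
    · congr 1
      rw [← sum_filter]
      apply sum_congr _ (fun _ _ => rfl)
      ext w
      rw [mem_filter, mem_chl, mem_chl, hQ]
    · intro c hc d hd hcd
      exact AE32.desc_disjoint hE' hin' (mem_chl.1 hc) (mem_chl.1 hd) hcd

/-- a descendant gives a branch -/
theorem ptT_desc {h : τ → ℕ} (hE : ∀ a b, P a b → h a < h b) {v w : τ} (hvw : ReflTransGen P v w) (d0 : Bool) :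
    ∃ d m, PtT 0 (d0, code E P v) (d, code E P w) m := by
  induction hvw with
  | refl => exact ⟨d0, 0, PtT.refl⟩
  | @tail b c _ hbc ih =>
    obtain ⟨d, m, ih⟩ := ih
    refine ⟨decide (E b c), _, PtT.step _ _ _ ih ?_ (Nat.zero_le _)⟩
    show (decide (E b c), code E P c) ∈ (code E P b).trees
    rw [code_trees hE]
    exact List.mem_map.2 ⟨c, mem_toList.2 (mem_chl.2 hbc), rfl⟩

end reach

section ori

variable {k : ℕ} {G : SimpleGraph (Fin (k + 1))} {r : Fin (k + 1)} {E : Fin (k + 1) → Fin (k + 1) → Prop}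

theorem size_code (hG : G.IsTree) (v : Fin (k + 1)) :
    (code E (Par G r) v).size + 1 = (AE32.desc (Par G r) v).card :=
  code_size (h := fun v => G.dist r v) (fun _ _ h => h.lt) (fun _ _ _ h h' => h.unique hG h') _ v rfl

theorem card_desc (hG : G.IsTree) (v : Fin (k + 1)) :
    (AE32.desc (Par G r) v).card = {x | G.dist r x = G.dist r v + G.dist v x}.ncard := by
  rw [← Set.ncard_coe_finset]
  congr 1
  ext x
  rw [mem_coe, AE32.mem_desc]
  exact (reach_dist hG r v x).trans ⟨fun h => h.symm, fun h => h.symm⟩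

/-- descendants -/
theorem dcl_code (hG : G.IsTree) (hE : ∀ a b, E a b → ¬ E b a) (hEG : SimpleGraph.fromRel E = G) (v : Fin (k + 1)) :
    dcl (code E (Par G r) v) + 1 =
      {x | ReflTransGen (fun a b => E a b ∧ G.dist r b = G.dist r a + 1) v x}.ncard := by
  rw [dcl_eq_rch, rch_code (h := fun v => G.dist r v) (fun _ _ h => h.lt) (fun _ _ _ h h' => h.unique hG h') true _ v rfl,
    ← Set.ncard_coe_finset]
  congr 1
  ext x
  rw [mem_coe, AE32.mem_desc, Set.mem_ofPred_eq]
  have h1 : (fun a c => Par G r a c ∧ decide (E a c) = true) = fun a b => E a b ∧ G.dist r b = G.dist r a + 1 := by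
    ext a c
    rw [decide_eq_true_eq]
    constructor
    · rintro ⟨h1, h2⟩
      exact ⟨h2, h1.2⟩
    · rintro ⟨h1, h2⟩
      refine ⟨⟨?_, h2⟩, h1⟩
      rw [← hEG, SimpleGraph.fromRel_adj]
      refine ⟨?_, Or.inl h1⟩
      rintro rfl
      exact hE _ _ h1 h1
  rw [h1]

/-- ancestors -/
theorem blk_code (hG : G.IsTree) (hE : ∀ a b, E a b → ¬ E b a) (hEG : SimpleGraph.fromRel E = G) (v : Fin (k + 1)) :
    AEB.blk (code E (Par G r) v) + 1 =
      {x | ReflTransGen (fun a b => E a b ∧ G.dist r a = G.dist r b + 1) x v}.ncard := by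
  rw [blk_eq_rch, rch_code (h := fun v => G.dist r v) (fun _ _ h => h.lt) (fun _ _ _ h h' => h.unique hG h') false _ v rfl,
    ← Set.ncard_coe_finset]
  congr 1
  ext x
  rw [mem_coe, AE32.mem_desc, Set.mem_ofPred_eq, ← reflTransGen_swap]
  have h1 : (fun a c => Par G r a c ∧ decide (E a c) = false) =
      Function.swap (fun a b => E a b ∧ G.dist r a = G.dist r b + 1) := by
    ext a c
    rw [decide_eq_false_iff_not]
    constructor
    · rintro ⟨h1, h2⟩
      refine ⟨?_, h1.2⟩
      have h3 := h1.1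
      rw [← hEG, SimpleGraph.fromRel_adj] at h3
      exact h3.2.resolve_left h2
    · rintro ⟨h1, h2⟩
      refine ⟨⟨?_, h2⟩, hE _ _ h1⟩
      rw [← hEG, SimpleGraph.fromRel_adj]
      refine ⟨?_, Or.inr h1⟩
      rintro rfl
      exact hE _ _ h1 h1
  rw [h1]

end ori

end AEJT
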