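import Pool.Agent.AEJT.Lc
import Pool.Agent.AEJT.Reach
import Pool.Agent.AEJT.Count

/-!
# Almost all orientations of a tree of bounded degree
-/

namespace AEJT

open Finset Relation AE15 AED AELT AESK
open scoped Classical

/-- the statement about marks in a rooted tree -/
def MarksSt : Prop := ∀ {k : ℕ} {G : SimpleGraph (Fin (k + 1))}, G.IsTree → ∀ {Δ K M : ℕ}, 1 ≤ Δ →
  (∀ v, (G.neighborSet v).ncard ≤ Δ) → 2 ≤ K → 2 * K ≤ M → ∀ r : Fin (k + 1),
  ∃ (m : ℕ) (mu : ℕ → Fin (k + 1)), mu 0 = r ∧ (∀ i < m, ReflTransGen (Par G r) (mu i) (mu (i + 1))) ∧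
    (∀ i < m, M ≤ (AE32.desc (Par G r) (mu i)).card) ∧
    (∀ i < m, K * (AE32.desc (Par G r) (mu (i + 1))).card ≤ (AE32.desc (Par G r) (mu i)).card) ∧
    (∀ i < m, (AE32.desc (Par G r) (mu i)).card ≤ 2 * K * Δ * (AE32.desc (Par G r) (mu (i + 1))).card) ∧
    (AE32.desc (Par G r) (mu m)).card < M

section glue

variable {k : ℕ} {G : SimpleGraph (Fin (k + 1))} {r : Fin (k + 1)} {E : Fin (k + 1) → Fin (k + 1) → Prop}

theorem code_len_le (hG : G.IsTree) {b : ℕ} (hb : ∀ v, (G.neighborSet v).ncard ≤ b) (v : Fin (k + 1)) :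
    (chl (Par G r) v).card ≤ b := by
  refine le_trans ?_ (hb v)
  rw [← Set.ncard_coe_finset]
  refine Set.ncard_le_ncard ?_ (Set.toFinite _)
  intro w hw
  exact (mem_chl.1 hw).1

/-- a copy of the code is a copy of the oriented tree -/
theorem emb_code (hG : G.IsTree) (hE : E ∈ Ori G) {V : Type} {R : V → V → Prop} {N : V → Prop} {X : Finset V}
    (h : In R (code E (Par G r) r) N X) :
    ∃ f : Fin (k + 1) → V, Function.Injective f ∧ ∀ a c, E a c → R (f a) (f c) := by
  obtain ⟨x, hx, A, hA, hxA, hN, hS⟩ := h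
  obtain ⟨f, p1, p2, p3, p4⟩ := code_ec (E := E) (h := fun v => G.dist r v) (P := Par G r) (fun _ _ h => h.lt)
    (fun _ _ _ h h' => h.unique hG h') _ r rfl _ _ _ _ hxA hS
  rw [desc_root hG] at p2 p3 p4
  refine ⟨f, fun a b hab => p3 a (mem_univ _) b (mem_univ _) hab, fun a c hac => ?_⟩
  rcases par_or (r := r) hG (Ori.adj hE hac) with h | h
  · have h1 := p4 a (mem_univ _) c h
    simpa [Adj, hac] using h1
  · have h1 := p4 c (mem_univ _) a h
    have h2 : ¬ E c a := hE.1 _ _ hac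
    simpa [Adj, h2] using h1

/-- an orientation which is good at all marks has a chain -/
theorem lc_of_marks (hG : G.IsTree) (hE : E ∈ Ori G) {Δ K M : ℕ} {ε : ℝ} (hK : 1 ≤ K) (hΔ : 1 ≤ Δ) {m : ℕ}
    {mu : ℕ → Fin (k + 1)} (h0 : mu 0 = r) (h1 : ∀ i < m, ReflTransGen (Par G r) (mu i) (mu (i + 1)))
    (h3 : ∀ i < m, K * (AE32.desc (Par G r) (mu (i + 1))).card ≤ (AE32.desc (Par G r) (mu i)).card)
    (h4 : ∀ i < m, (AE32.desc (Par G r) (mu i)).card ≤ 2 * K * Δ * (AE32.desc (Par G r) (mu (i + 1))).card)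
    (h5 : (AE32.desc (Par G r) (mu m)).card < M)
    (h6 : ∀ i < m, ((Dset G r E (mu i)).ncard : ℝ) ≤ ε * (Tset G r (mu i)).ncard ∧
      ((Aset G r E (mu i)).ncard : ℝ) ≤ ε * (Tset G r (mu i)).ncard) :
    Lc K (1 / (2 * K * Δ)) ε M (code E (Par G r) r) := by
  have key : ∀ n i, m - i ≤ n → i ≤ m → Lc K (1 / (2 * K * Δ)) ε M (code E (Par G r) (mu i)) := by
    intro n
    induction n with
    | zero =>
      intro i hi1 hi2
      obtain rfl : i = m := by omega
      exact Lc.small _ (by rw [size_code hG]; exact h5.le)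
    | succ n ih =>
      intro i hi1 hi2
      rcases Nat.lt_or_ge i m with h | h
      · obtain ⟨d, l, hP⟩ := ptT_desc (E := E) (h := fun v => G.dist r v) (fun _ _ h => h.lt) (h1 i h) true
        have e1 := size_code (E := E) (r := r) hG (mu i)
        have e2 := size_code (E := E) (r := r) hG (mu (i + 1))
        have e1' : ((code E (Par G r) (mu i)).size : ℝ) + 1 = (AE32.desc (Par G r) (mu i)).card := by
          exact_mod_cast e1
        have e2' : ((code E (Par G r) (mu (i + 1))).size : ℝ) + 1 = (AE32.desc (Par G r) (mu (i + 1))).card := by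
          exact_mod_cast e2
        have e3 : (AE32.desc (Par G r) (mu i)).card = (Tset G r (mu i)).ncard := card_desc hG (mu i)
        have e4 := dcl_code (r := r) hG hE.1 hE.2 (mu i)
        have e5 := blk_code (r := r) hG hE.1 hE.2 (mu i)
        have e4' : (dcl (code E (Par G r) (mu i)) : ℝ) + 1 = (Dset G r E (mu i)).ncard := by exact_mod_cast e4
        have e5' : (AEB.blk (code E (Par G r) (mu i)) : ℝ) + 1 = (Aset G r E (mu i)).ncard := by exact_mod_cast e5
        refine Lc.step _ true (d, code E (Par G r) (mu (i + 1))) l hP ?_ ?_ ?_ ?_ (ih (i + 1) (by omega) (by omega))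
        · show 1 / (2 * (K : ℝ) * Δ) * (((code E (Par G r) (mu i)).size : ℝ) + 1) ≤
            ((code E (Par G r) (mu (i + 1))).size : ℝ) + 1
          rw [e1', e2', one_div, inv_mul_le_iff₀ (by positivity)]
          exact_mod_cast h4 i h
        · show K * ((code E (Par G r) (mu (i + 1))).size + 1) ≤ (code E (Par G r) (mu i)).size + 1
          rw [e1, e2]
          exact h3 i h
        · rw [e4', e1', e3]
          exact (h6 i h).1
        · rw [e5', e1', e3]
          exact (h6 i h).2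
      · obtain rfl : i = m := by omega
        exact Lc.small _ (by rw [size_code hG]; exact h5.le)
  have := key m 0 (by omega) (by omega)
  rwa [h0] at this

end glue

/-- **Almost all orientations.** For every `Δ` and `δ > 0` there is a constant `C` such that for every tree with `k`
edges and maximum degree at most `Δ` all but at most `δ * 2 ^ k` of its orientations are contained in all tournaments
with at least `k + C` vertices. -/
theorem typical_of (hM : MarksSt) (hC : ClosSt) (Δ : ℕ) {δ : ℝ} (hδ : 0 < δ) :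
    ∃ C : ℕ, ∀ (k : ℕ) (G : SimpleGraph (Fin (k + 1))), G.IsTree → (∀ v, (G.neighborSet v).ncard ≤ Δ) →
      (({E | E ∈ Ori G ∧ ∃ n : ℕ, k + C ≤ n ∧ ∃ R : Fin n → Fin n → Prop, (∀ a, ¬ R a a) ∧
        (∀ a b, a ≠ b → R a b ∨ R b a) ∧ (∀ a b, R a b → ¬ R b a) ∧
        ¬ ∃ f : Fin (k + 1) → Fin n, Function.Injective f ∧ ∀ a b, E a b → R (f a) (f b)}.ncard : ℕ) : ℝ) ≤
        δ * 2 ^ k := by
  obtain ⟨D, hD⟩ : ∃ D, D = max Δ 2 := ⟨_, rfl⟩
  have hD2 : 2 ≤ D := by rw [hD]; exact le_max_right _ _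
  obtain ⟨K0, ε, hε, hC1⟩ := hC D (by omega)
  obtain ⟨K, hK⟩ : ∃ K, K = max K0 (2 * D) := ⟨_, rfl⟩
  have hK0 : K0 ≤ K := by rw [hK]; exact le_max_left _ _
  have hKD : 2 * D ≤ K := by rw [hK]; exact le_max_right _ _
  obtain ⟨M0, hM0⟩ := count_bad D hD2 hε hδ
  obtain ⟨M, hMd⟩ : ∃ M, M = max M0 (2 * K) := ⟨_, rfl⟩
  have hM1 : M0 ≤ M := by rw [hMd]; exact le_max_left _ _
  have hM2 : 2 * K ≤ M := by rw [hMd]; exact le_max_right _ _
  have hKr : (0 : ℝ) < K := by
    have : 0 < K := by omega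
    exact_mod_cast this
  have hDr : (0 : ℝ) < D := by
    have : 0 < D := by omega
    exact_mod_cast this
  obtain ⟨C, hC2⟩ := hC1 K hK0 (1 / (2 * K * D)) (by positivity) M
  refine ⟨C + 1, ?_⟩
  intro k G hG hdeg
  have hdeg' : ∀ v, (G.neighborSet v).ncard ≤ D := fun v => (hdeg v).trans (by rw [hD]; exact le_max_left _ _)
  obtain ⟨m, mu, m0, m1, m2, m3, m4, m5⟩ := hM hG (Δ := D) (K := K) (M := M) (by omega) hdeg' (by omega) hM2 (0 : Fin (k + 1))
  have e3 : ∀ i, (AE32.desc (Par G 0) (mu i)).card = (Tset G 0 (mu i)).ncard := fun i => card_desc hG (mu i)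
  have h7 := hM0 M hM1 k G hG hdeg' 0 m mu (fun i hi => by rw [← e3]; exact m2 i hi) (fun i hi => by
    rw [← e3, ← e3]
    exact (Nat.mul_le_mul_right _ hKD).trans (m3 i (by omega)))
  refine le_trans ?_ h7
  rw [Nat.cast_le]
  refine Set.ncard_le_ncard ?_ (Set.toFinite _)
  rintro E ⟨hE, n, hn, R, r1, r2, r3, r4⟩
  refine ⟨hE, ?_⟩
  by_contra hcon
  push Not at hcon
  apply r4
  have hL := lc_of_marks (ε := ε) hG hE (by omega) (by omega) m0 m1 m3 m4 m5 (fun i hi => hcon i hi)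
  obtain ⟨f, f1, f2⟩ := emb_code (R := R) (N := fun _ => True) (X := univ) hG hE (hC2 ⟨r1, r2, r3⟩ _ (by
    rw [code_len (h := fun v => G.dist 0 v) (fun _ _ h => h.lt)]
    exact code_len_le hG hdeg' 0) (code_deg (h := fun v => G.dist 0 v) (fun _ _ h => h.lt) (code_len_le hG hdeg') _ 0 rfl)
    hL univ (by
      rw [card_univ, Fintype.card_fin]
      have := size_code (E := E) (r := (0 : Fin (k + 1))) hG 0
      rw [desc_root hG, card_univ, Fintype.card_fin] at this
      omega))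
  exact ⟨f, f1, f2⟩

end AEJT
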