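import Pool.Agent.AEJ.Core2
import Pool.Agent.AEJ.ExtM
import Pool.Agent.AEJ.Resv
import Pool.Agent.AEK.Main
import Pool.Agent.AEM.Order

/-!
# Placing a tree whose marked vertex is in the component of the root

All vertices of the path from the root to the mark have the label `e`, the region `G e` is an expanding core, and the root
may be hosted anywhere in a large set `N ⊆ G e`. The share of the final branch in the region `e` is taken inside `N`, so
that the host `w` of the mark sees `3 / 8` of it.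
-/

namespace AEJT

open Finset AE15 AED AELT AEK AEJ AEM
open scoped Classical

/-- the first vertices of a window see a third of it -/
theorem window_third {V : Type*} {R : V → V → Prop} (hT : AE32.Tour R) {Q : Finset V} {π : V → ℕ} (hπ : MedO R Q π)
    {a ι p : ℕ} (ha : a + ι ≤ Q.card) (hp : 3 * p ≤ ι) {v : V} (hv : v ∈ Q) (hv1 : a ≤ π v) (hv2 : π v < a + p) :
    ι ≤ 3 * (nO R (Q.filter (fun v => a ≤ π v ∧ π v < a + ι)) v).card := by
  obtain ⟨u, hu, hup⟩ := hπ.exists_pos (show a + ι - 1 < Q.card by omega)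
  have h1 := hπ.out_half hT hv hu (by omega)
  have h2 : Q.filter (fun w => π v < π w ∧ π w ≤ π u ∧ R v w) ⊆ nO R (Q.filter (fun v => a ≤ π v ∧ π v < a + ι)) v := by
    intro w hw
    rw [mem_filter] at hw
    rw [mem_nO, mem_filter]
    exact ⟨⟨hw.1, by omega, by omega⟩, hw.2.2.2⟩
  have h3 := card_le_card h2
  omega

/-- **Placing, the path being inside the region of the root** -/
theorem placeI (b : ℕ) (hb : 1 ≤ b) {α δ γ : ℝ} (hα : 0 < α) (hα1 : α ≤ 1) (hδ : 0 < δ) (hδ1 : δ ≤ 1) (hγ : 0 < γ) :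
    ∃ n₀ m₀ : ℕ, ∀ {V : Type} {R : V → V → Prop}, AE32.Tour R → ∀ (X : Finset V) (G : ℕ → Finset V) (ν : ℝ) (M : Mn)
      (e : ℕ) (N : Finset V) (s : ℕ → ℕ) (a ι : ℕ), n₀ ≤ X.card → (∀ m, G m ⊆ X) →
      (∀ i j, i ≠ j → Disjoint (G i) (G j)) → Typ2 R ν G G → ν ≤ δ / 16 * X.card → M.fn.Ok e → M.un.Deg b →
      M.un.len ≤ b → M.In e → Ex R (α * (G e).card) (G e) →
      (∀ m, (M.fn.num m = 0 ∧ s m = 0) ∨ (M.fn.num m : ℝ) + s m + δ * X.card ≤ (G m).card) →
      N ⊆ G e → (s e : ℝ) + γ * X.card ≤ N.card → γ * X.card ≤ (ι : ℝ) → a + ι ≤ s e →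
      ∃ (S : ℕ → Finset V) (π : V → ℕ) (A : Finset V) (z w : V), (∀ m, S m ⊆ G m) ∧ (∀ m, (S m).card = s m) ∧
        S e ⊆ N ∧ MedO R (S e) π ∧ z ∈ N ∧ z ∉ A ∧ A ⊆ X ∧ w ∈ S e ∧ EmbM R M z A w ∧
        (∀ m, m ≠ e → Disjoint (insert z A) (S m)) ∧ (insert z A ∩ S e).card ≤ m₀ ∧
        (ι : ℝ) / 3 ≤ ((nO R ((S e).filter (fun v => a ≤ π v ∧ π v < a + ι)) w).card : ℝ) := by
  obtain ⟨ℓ, hℓ⟩ := exists_reserve2 hα hα1
  obtain ⟨ζ, hζd⟩ : ∃ ζ : ℝ, ζ = min (min (δ / 12) (γ / 3)) (1 / 8) := ⟨_, rfl⟩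
  have hζ : 0 < ζ := by rw [hζd]; exact lt_min (lt_min (by positivity) (by positivity)) (by norm_num)
  have hζδ : 3 * ζ ≤ δ / 4 := by
    have : ζ ≤ δ / 12 := by rw [hζd]; exact (min_le_left _ _).trans (min_le_left _ _)
    linarith
  have hζγ : 3 * ζ ≤ γ := by
    have : ζ ≤ γ / 3 := by rw [hζd]; exact (min_le_left _ _).trans (min_le_right _ _)
    linarith
  have hζ8 : ζ ≤ 1 / 8 := by rw [hζd]; exact min_le_right _ _
  obtain ⟨lam, hlam⟩ : ∃ lam : ℝ, lam = 1 - 1 / ((b : ℝ) + 1) ^ ℓ := ⟨_, rfl⟩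
  have hl0 : 0 ≤ lam := by rw [hlam]; exact lam_nonneg b ℓ
  have hl1 : lam < 1 := by
    rw [hlam]
    have : (0 : ℝ) < 1 / ((b : ℝ) + 1) ^ ℓ := by positivity
    linarith
  obtain ⟨J, hJ⟩ := exists_pow_lt_of_lt_one (show 0 < α * ζ * δ / 16 by positivity) hl1
  obtain ⟨M', hM'⟩ : ∃ M' : ℝ, M' = (ℓ * b + 1 : ℝ) ^ J * ((b : ℝ) + 1) ^ (ℓ + 1) := ⟨_, rfl⟩
  have hM0 : 0 ≤ M' := by rw [hM']; positivity
  obtain ⟨C, hC, hUn⟩ := un_one b hb (show 0 < δ / 8 by positivity)
  obtain ⟨w₀, hw₀⟩ : ∃ w₀ : ℕ, w₀ = (ℓ + 2) + (ℓ + 2) * (b * cc b ℓ J) := ⟨_, rfl⟩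
  obtain ⟨n₂, hn₂⟩ := hℓ ζ w₀ hζ hζ8
  obtain ⟨c₁, hc₁⟩ : ∃ c₁ : ℝ, c₁ = 2 * ((ℓ + 2) * (b * M')) + C + (ℓ + 2) + 2 := ⟨_, rfl⟩
  have hc₁0 : 0 ≤ c₁ := by rw [hc₁]; positivity
  obtain ⟨n₃, hn₃⟩ := exists_nat_ge (c₁ / (α * ζ * δ / 8))
  obtain ⟨n₄, hn₄⟩ := exists_nat_ge ((n₂ : ℝ) / δ)
  obtain ⟨n₅, hn₅⟩ := exists_nat_ge ((3 * 3 ^ (ℓ + 1) : ℝ) / γ)
  refine ⟨max n₃ (max n₄ (max n₅ 1)), ℓ + 2, ?_⟩
  intro V R hT X G ν M e N s a ι hn hGX hGd hTyp hν hOk hDeg hlen hIn hEx hroom hNG hN hι haι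
  have hn3 : (n₃ : ℝ) ≤ X.card := by exact_mod_cast (le_max_left _ _).trans hn
  have hn4 : (n₄ : ℝ) ≤ X.card := by
    exact_mod_cast ((le_max_left _ _).trans (le_max_right _ _)).trans hn
  have hn5 : (n₅ : ℝ) ≤ X.card := by
    exact_mod_cast ((le_max_left _ _).trans ((le_max_right _ _).trans (le_max_right _ _))).trans hn
  have hn1 : (1 : ℝ) ≤ X.card := by
    exact_mod_cast ((le_max_right _ _).trans ((le_max_right _ _).trans (le_max_right _ _))).trans hn
  obtain ⟨n, hnd⟩ : ∃ n : ℝ, n = (X.card : ℝ) := ⟨_, rfl⟩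
  rw [← hnd] at hn3 hn4 hn5 hn1 hν hN hι hroom
  have hn0 : 0 < n := by linarith
  -- constants
  have k1 : c₁ ≤ α * ζ * δ / 8 * n := by
    have := hn₃.trans hn3
    rwa [div_le_iff₀ (by positivity), mul_comm] at this
  have hαζδ : α * ζ * δ ≤ δ / 8 := by
    have h1 : α * ζ ≤ 1 * (1 / 8) := mul_le_mul hα1 hζ8 hζ.le (by norm_num)
    have := mul_le_mul_of_nonneg_right h1 hδ.le
    linarith
  have k2 : (n₂ : ℝ) ≤ δ * n := by
    have := hn₄.trans hn4
    rwa [div_le_iff₀ hδ, mul_comm] at this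
  have k3 : (3 * 3 ^ (ℓ + 1) : ℝ) ≤ γ * n := by
    have := hn₅.trans hn5
    rw [div_le_iff₀ hγ] at this
    linarith
  have hιs : (ι : ℝ) ≤ s e := by
    have : ι ≤ s e := by omega
    exact_mod_cast this
  have hs : γ * n ≤ (s e : ℝ) := hι.trans hιs
  -- the core
  have hse : 0 < (s e : ℝ) := lt_of_lt_of_le (by positivity) hs
  have hre : (M.fn.num e : ℝ) + s e + δ * n ≤ (G e).card := by
    rcases hroom e with h | h
    · rw [h.2] at hse
      simp at hse
    · exact h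
  have hYn : ((G e).card : ℝ) ≤ n := by rw [hnd]; exact_mod_cast card_le_card (hGX e)
  have hnum0 : (0 : ℝ) ≤ M.fn.num e := Nat.cast_nonneg _
  have hYδ : δ * n ≤ (G e).card := by linarith
  have hYn2 : n₂ ≤ (G e).card := by
    have : (n₂ : ℝ) ≤ (G e).card := by linarith
    exact_mod_cast this
  obtain ⟨U₀, Rc, Ro, hCor, hU₀⟩ := hn₂ hT (G e) α hYn2 le_rfl hEx
  -- the share in the region `e`
  obtain ⟨p, hp⟩ : ∃ p : ℕ, p = 3 ^ (ℓ + 1) := ⟨_, rfl⟩
  have hp3 : 3 * p ≤ ι := by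
    have : ((3 * p : ℕ) : ℝ) ≤ ι := by
      rw [hp]
      push_cast
      linarith
    exact_mod_cast this
  have hp0 : 0 < p := by rw [hp]; positivity
  have hNU : s e ≤ (N ∩ U₀).card := by
    have h1 : (N.card : ℝ) ≤ (N ∩ U₀).card + (N \ U₀).card := by
      have := card_inter_add_card_sdiff N U₀
      exact_mod_cast this.symm.le
    have h2 : ((N \ U₀).card : ℝ) ≤ (G e).card - U₀.card := by
      have h3 : (N \ U₀).card + U₀.card ≤ (G e).card := by
        rw [← card_union_of_disjoint sdiff_disjoint]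
        exact card_le_card (union_subset (sdiff_subset.trans hNG) hCor.hU)
      have h4 : (((N \ U₀).card + U₀.card : ℕ) : ℝ) ≤ (G e).card := by exact_mod_cast h3
      push_cast at h4
      linarith
    have h5 : 3 * ζ * (G e).card ≤ γ * n := by
      have h6 : 3 * ζ * (G e).card ≤ 3 * ζ * n := mul_le_mul_of_nonneg_left hYn (by positivity)
      have h7 : 3 * ζ * n ≤ γ * n := mul_le_mul_of_nonneg_right hζγ hn0.le
      linarith
    have h6 : (s e : ℝ) ≤ (N ∩ U₀).card := by linarith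
    exact_mod_cast h6
  obtain ⟨Se, a1, a4⟩ := exists_subset_card_eq hNU
  obtain ⟨π, hπ⟩ := exists_medO R Se
  obtain ⟨P, hPd⟩ : ∃ P, P = Se.filter (fun v => a ≤ π v ∧ π v < a + p) := ⟨_, rfl⟩
  have hPS : P ⊆ Se := by rw [hPd]; exact filter_subset _ _
  have a2 : P ⊆ N ∩ U₀ := hPS.trans a1
  have a5 : P.card = p := by
    rw [hPd, hπ.card_seg (by omega)]
    omega
  have a1U : Se ⊆ U₀ := a1.trans inter_subset_right
  -- the other shares
  have hex : ∀ m, ∃ S : Finset V, S ⊆ G m ∧ S.card = s m ∧ (m = e → S = Se) := by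
    intro m
    by_cases hm : m = e
    · subst hm
      exact ⟨Se, a1.trans (inter_subset_left.trans hNG), a4, fun _ => rfl⟩
    · obtain ⟨S, h1, h2⟩ := exists_subset_card_eq (show s m ≤ (G m).card by
        rcases hroom m with h | h
        · rw [h.2]
          exact Nat.zero_le _
        · have h0 : (0 : ℝ) ≤ M.fn.num m := Nat.cast_nonneg _
          have : (s m : ℝ) ≤ (G m).card := by
            have : 0 ≤ δ * n := by positivity
            linarith
          exact_mod_cast this)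
      exact ⟨S, h1, h2, fun h => absurd h hm⟩
  choose S hSG hSc hSe using hex
  have hSe' : S e = Se := hSe e rfl
  -- the core for the embedding
  obtain ⟨U, hU⟩ : ∃ U, U = U₀ \ Se := ⟨_, rfl⟩
  have hUU₀ : U ⊆ U₀ := by rw [hU]; exact sdiff_subset
  have hUc : (M.fn.num e : ℝ) + 3 / 4 * (δ * n) ≤ U.card := by
    have h1 : (U.card : ℝ) = U₀.card - s e := by
      rw [hU, card_sdiff_of_subset a1U, Nat.cast_sub (card_le_card a1U), a4]
    have h2 : 3 * ζ * (G e).card ≤ δ / 4 * n := by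
      have h6 : 3 * ζ * (G e).card ≤ 3 * ζ * n := mul_le_mul_of_nonneg_left hYn (by positivity)
      have h7 : 3 * ζ * n ≤ δ / 4 * n := mul_le_mul_of_nonneg_right hζδ hn0.le
      linarith
    rw [h1]
    linarith
  have hρ : (1 : ℝ) ≤ 1 + δ / 8 := by linarith [hδ]
  have hρ2 : 1 + δ / 8 ≤ 2 := by linarith [hδ1]
  have hctx : Ctx R b ℓ (1 + δ / 8) C (α / 2 * ζ * (G e).card) (G e) U Rc Ro w₀ :=
    ⟨hb, hρ, hC, hUn hT, hUU₀.trans hCor.hU, hCor.hc, hCor.ho, hCor.d1.mono_left hUU₀, hCor.d2.mono_left hUU₀, hCor.d3,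
      hCor.conn, hCor.deg⟩
  have htop : (M.fn.top e).size + M.fn.off e e = M.fn.num e := Fn.size_top e M.fn
  have htopR : ((M.fn.top e).size : ℝ) + M.fn.off e e = M.fn.num e := by exact_mod_cast htop
  have hoff0 : (0 : ℝ) ≤ M.fn.off e e := Nat.cast_nonneg _
  have htop0 : (0 : ℝ) ≤ (M.fn.top e).size := Nat.cast_nonneg _
  have hnumn : (M.fn.num e : ℝ) ≤ n := by
    have : 0 ≤ δ * n := by positivity
    linarith
  obtain ⟨z, A₁, w, b1, b2, b3, b4, b5, b6, b7⟩ := core_k1 hT hctx J hlam hM' (k := e) M hIn hlen hDeg (S := P) (W := ∅)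
    (a2.trans (inter_subset_left.trans hNG)) (disjoint_empty_right _) (by
      rw [a5, hp]) (by
      rw [empty_inter, card_empty, hw₀]
      omega) (by
      rw [empty_inter, card_empty]
      have h1 : lam ^ J * ((M.fn.top e).size + 1) ≤ α * ζ * δ / 16 * (2 * n) := by
        refine mul_le_mul hJ.le ?_ (by linarith) (by positivity)
        linarith
      have h2 : (1 + δ / 8) * (lam ^ J * ((M.fn.top e).size + 1) + (ℓ + 2) * (b * M')) ≤
          2 * (α * ζ * δ / 16 * (2 * n) + (ℓ + 2) * (b * M')) := by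
        refine mul_le_mul hρ2 (by linarith) (by positivity) (by norm_num)
      have h3 : α / 2 * ζ * (δ * n) ≤ α / 2 * ζ * (G e).card := mul_le_mul_of_nonneg_left hYδ (by positivity)
      rw [hc₁] at k1
      push_cast
      have h4 : 0 ≤ α * ζ * δ * n := by positivity
      linarith only [h2, h3, k1, h4]) (by
      rw [empty_inter, card_empty]
      have h1 : δ / 8 * ((M.fn.top e).size + 1) ≤ δ / 8 * (2 * n) := mul_le_mul_of_nonneg_left (by linarith) (by positivity)
      have h2 : α * ζ * δ / 8 * n ≤ δ / 64 * n := mul_le_mul_of_nonneg_right (by linarith) hn0.le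
      have h3 : 0 ≤ (ℓ + 2 : ℝ) * (b * M') := by positivity
      rw [hc₁] at k1
      push_cast
      have h4 : 0 ≤ δ * n := by positivity
      linarith only [h1, h2, h3, k1, hUc, htopR, hoff0, h4])
  -- the other components
  obtain ⟨GG, hGG⟩ : ∃ GG : ℕ → Finset V, GG = fun m => if m = e then U else G m \ S m := ⟨_, rfl⟩
  have hGGe : GG e = U := by rw [hGG]; simp
  have hGGn : ∀ m, m ≠ e → GG m = G m \ S m := fun m hm => by rw [hGG]; simp only [if_neg hm]
  have hGGG : ∀ m, GG m ⊆ G m := by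
    intro m
    by_cases hm : m = e
    · rw [hm, hGGe]
      exact hUU₀.trans hCor.hU
    · rw [hGGn m hm]
      exact sdiff_subset
  obtain ⟨X', hX'⟩ : ∃ X' : Finset V, X' = X.filter (fun v => ∃ m, v ∈ GG m) := ⟨_, rfl⟩
  have hGGX : ∀ m, GG m ⊆ X' := by
    intro m v hv
    rw [hX', mem_filter]
    exact ⟨hGX m (hGGG m hv), m, hv⟩
  have hGGS : ∀ m m', Disjoint (GG m) (S m') := by
    intro m m'
    by_cases hmm : m = m'
    · subst hmm
      by_cases hm : m = e
      · rw [hm, hGGe, hSe', hU]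
        exact sdiff_disjoint
      · rw [hGGn m hm]
        exact sdiff_disjoint
    · exact (hGd m m' hmm).mono (hGGG m) (hSG m')
  have hT2 : Typ2 R ν G GG := by
    intro i j hij
    refine ⟨fun x hx => ?_, fun x hx => ?_⟩
    · refine le_trans ?_ ((hTyp i j hij).1 x hx)
      exact_mod_cast card_le_card (filter_subset_filter _ (hGGG j))
    · refine le_trans ?_ ((hTyp i j hij).2 x hx)
      exact_mod_cast card_le_card (filter_subset_filter _ (hGGG i))
  have hA₁G : insert z A₁ ⊆ G e := b6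
  have hA₁c : A₁.card = (M.fn.top e).size := b4.emb.card
  have hWc : ∀ m, (((insert z A₁) ∩ GG m).card : ℝ) ≤ (if m = e then ((M.fn.top e).size : ℝ) + 1 else 0) := by
    intro m
    split_ifs with hm
    · have h1 : ((insert z A₁) ∩ GG m).card ≤ (M.fn.top e).size + 1 := by
        refine (card_le_card inter_subset_left).trans ?_
        rw [← hA₁c]
        exact card_insert_le _ _
      exact_mod_cast h1
    · have h1 : (insert z A₁) ∩ GG m = ∅ := by
        rw [← disjoint_iff_inter_eq_empty]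
        exact (hGd e m (fun h => hm h.symm)).mono hA₁G (hGGG m)
      rw [h1]
      simp
  obtain ⟨Q, q1, q2, q3, -⟩ := extM1 (C := C) (ν := ν) (G := GG) (H := G) (X := X') hρ (hUn hT) hGGX hGGG
    (fun i j hij => (hGd i j hij).mono (hGGG i) (hGGG j)) hT2 M e hOk hDeg hIn z (hA₁G (mem_insert_self _ _)) A₁
    ((subset_insert _ _).trans hA₁G) b3 w b4 (insert z A₁) (Subset.refl _) (by
      intro m hm
      have hW := hWc m
      have h1 : C ≤ δ / 64 * n := by
        have h2 : α * ζ * δ / 8 * n ≤ δ / 64 * n := mul_le_mul_of_nonneg_right (by linarith) hn0.le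
        have h3 : 0 ≤ (ℓ + 2 : ℝ) * (b * M') := by positivity
        have h4 : (0 : ℝ) ≤ ℓ := Nat.cast_nonneg _
        rw [hc₁] at k1
        linarith
      have hc2 : (2 : ℝ) ≤ δ / 64 * n := by
        have h2 : α * ζ * δ / 8 * n ≤ δ / 64 * n := mul_le_mul_of_nonneg_right (by linarith) hn0.le
        have h3 : 0 ≤ (ℓ + 2 : ℝ) * (b * M') := by positivity
        have h4 : (0 : ℝ) ≤ ℓ := Nat.cast_nonneg _
        rw [hc₁] at k1
        linarith
      by_cases hme : m = e
      · subst hme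
        rw [if_pos rfl] at hW
        rw [hGGe] at hW ⊢
        have h2 : δ / 8 * (M.fn.off m m) ≤ δ / 8 * n := mul_le_mul_of_nonneg_left (by linarith) (by positivity)
        have h4 : 0 ≤ δ * n := by positivity
        linarith only [h1, h2, hc2, hW, hν, hUc, htopR, h4]
      · rw [if_neg hme] at hW
        have h2 : M.fn.off e m = M.fn.num m := Fn.off_ne hme M.fn
        rw [h2] at hm ⊢
        have h3 : (M.fn.num m : ℝ) + s m + δ * n ≤ (G m).card := by
          rcases hroom m with h | h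
          · exact absurd h.1 hm
          · exact h
        have h4 : ((GG m).card : ℝ) = (G m).card - s m := by
          rw [hGGn m hme, card_sdiff_of_subset (hSG m), Nat.cast_sub (card_le_card (hSG m)), hSc m]
        have h5 : ((G m).card : ℝ) ≤ n := by rw [hnd]; exact_mod_cast card_le_card (hGX m)
        have h6 : (0 : ℝ) ≤ s m := Nat.cast_nonneg _
        have h7 : δ / 8 * (M.fn.num m) ≤ δ / 8 * n := by
          refine mul_le_mul_of_nonneg_left ?_ (by positivity)
          have : 0 ≤ δ * n := by positivity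
          linarith
        rw [h4]
        have h8 : 0 ≤ δ * n := by positivity
        linarith only [h1, h3, h7, hW, hν, h8])
  have hQX' : Q ⊆ X := q1.trans (by rw [hX']; exact filter_subset _ _)
  have hQS : ∀ m, Disjoint Q (S m) := by
    intro m
    rw [disjoint_left]
    intro v hv hvS
    have := q1 hv
    rw [hX', mem_filter] at this
    obtain ⟨-, m', hm'⟩ := this
    exact disjoint_left.1 (hGGS m' m) hm' hvS
  have hzQ : z ∉ Q := fun h => disjoint_left.1 q2 h (mem_insert_self _ _)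
  refine ⟨S, π, A₁ ∪ Q, z, w, hSG, hSc, ?_, ?_, (mem_inter.1 (a2 b1)).1, ?_, ?_, ?_, q3, ?_, ?_, ?_⟩
  · rw [hSe']
    exact a1.trans inter_subset_left
  · rw [hSe']
    exact hπ
  · rw [mem_union, not_or]
    exact ⟨b3, hzQ⟩
  · exact union_subset (((subset_insert _ _).trans hA₁G).trans (hGX e)) hQX'
  · rw [hSe']
    exact hPS b2
  · intro m hm
    rw [← insert_union, disjoint_union_left]
    exact ⟨(hGd e m (fun h => hm h.symm)).mono hA₁G (hSG m), hQS m⟩
  · have h1 : insert z (A₁ ∪ Q) ∩ S e ⊆ insert z A₁ \ (U ∪ Rc ∪ Ro) := by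
      intro v hv
      rw [mem_inter, ← insert_union, mem_union] at hv
      obtain ⟨h1, h2⟩ := hv
      have h3 : v ∈ Se := by rw [← hSe']; exact h2
      rw [mem_sdiff, mem_union, mem_union, not_or, not_or]
      refine ⟨?_, ⟨?_, ?_⟩, ?_⟩
      · rcases h1 with h1 | h1
        · exact h1
        · exact absurd h2 (disjoint_left.1 (hQS e) h1)
      · rw [hU, mem_sdiff, not_and, not_not]
        exact fun _ => h3
      · exact disjoint_left.1 hCor.d1 (a1U h3)
      · exact disjoint_left.1 hCor.d2 (a1U h3)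
    exact (card_le_card h1).trans b7
  · rw [hSe']
    rw [hPd, mem_filter] at b2
    have h1 := window_third hT hπ (ι := ι) (p := p) (by omega) hp3 b2.1 b2.2.1 b2.2.2
    have h2 : (ι : ℝ) ≤ 3 * (nO R (Se.filter (fun v => a ≤ π v ∧ π v < a + ι)) w).card := by exact_mod_cast h1
    linarith

end AEJT
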