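import Pool.Agent.AEJT.Lc
import Pool.Agent.AEK.Main

/-!
# Chains of branches with small reach: the closure
-/

namespace AEJT

open Finset AE15 AED AELT AEK
open scoped Classical

/-- the state without closures: the root may be required to lie in any set with at least `β * |X|` vertices -/
def Lin (β C : ℝ) (c : Fd) : Prop := ∀ {V : Type} {R : V → V → Prop}, AE32.Tour R → ∀ (X : Finset V) (N : V → Prop),
  (c.size + 1 : ℝ) + C ≤ X.card → β * X.card ≤ ((X.filter N).card : ℝ) → In R c N X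

/-- the statement of the jump: the root reaches few vertices, the branch is small but linear -/
def JtSt (b : ℕ) : Prop := ∃ (K : ℕ) (ε : ℝ), 0 < ε ∧ ∀ θ : ℝ, 0 < θ → ∃ C0 : ℝ, ∀ C : ℝ, C0 ≤ C → ∀ (c : Fd) (q : Bool × Fd)
  (d0 : Bool) (m : ℕ), c.len ≤ b → c.Deg b → AESK.PtT 0 (d0, c) q m → θ * (c.size + 1) ≤ q.2.size + 1 →
    (K : ℝ) * (q.2.size + 1) ≤ c.size + 1 → (dcl c : ℝ) + 1 ≤ ε * (c.size + 1) →
    (AEB.blk c : ℝ) + 1 ≤ ε * (c.size + 1) → Lin (1 / 16) C q.2 → Lin (1 / 16) C c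

theorem lin_small {b : ℕ} (hb : 1 ≤ b) {β M : ℝ} (hβ : 0 < β) : ∃ C0 : ℝ, ∀ C : ℝ, C0 ≤ C → ∀ c : Fd,
    c.len ≤ b → c.Deg b → (c.size + 1 : ℝ) ≤ M → Lin β C c := by
  obtain ⟨C₁, hC₁, hU⟩ := un_one b hb (β := 1) one_pos
  refine ⟨(2 * M + C₁) / β, ?_⟩
  intro C hC c hl hD hM V R hT X N hX hN
  rw [div_le_iff₀ hβ] at hC
  have h1 : (1 + 1 : ℝ) * (c.size + 1) + C₁ ≤ ((X.filter N).card : ℝ) := by
    have h2 : C ≤ (X.card : ℝ) := by
      have : (0 : ℝ) ≤ c.size := Nat.cast_nonneg _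
      linarith
    have h3 : C * β ≤ β * X.card := by
      rw [mul_comm]
      exact mul_le_mul_of_nonneg_left h2 hβ.le
    linarith
  obtain ⟨x, hx, A, hAs, hxA, -, hE⟩ := hU hT c hl hD (X.filter N) h1
  have hsub : X.filter N ⊆ X := filter_subset _ _
  exact ⟨x, hsub hx, A, hAs.trans hsub, hxA, (mem_filter.1 hx).2, hE⟩

theorem lin_of_lc {b : ℕ} {K : ℕ} {θ ε C : ℝ} {M : ℕ}
    (hs : ∀ c : Fd, c.len ≤ b → c.Deg b → (c.size + 1 : ℝ) ≤ M → Lin (1 / 16) C c)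
    (hj : ∀ (c : Fd) (q : Bool × Fd) (d0 : Bool) (m : ℕ), c.len ≤ b → c.Deg b → AESK.PtT 0 (d0, c) q m →
      θ * (c.size + 1) ≤ q.2.size + 1 → (K : ℝ) * (q.2.size + 1) ≤ c.size + 1 → (dcl c : ℝ) + 1 ≤ ε * (c.size + 1) →
      (AEB.blk c : ℝ) + 1 ≤ ε * (c.size + 1) → Lin (1 / 16) C q.2 → Lin (1 / 16) C c) {c : Fd} (h : Lc K θ ε M c) :
    c.len ≤ b → c.Deg b → Lin (1 / 16) C c := by
  induction h with
  | small c h => exact fun hl hD => hs c hl hD (by exact_mod_cast h)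
  | step c d0 q m h1 h2 h3 h4 h5 _ ih =>
    intro hl hD
    obtain ⟨l, hl1, -⟩ := h1.spine
    obtain ⟨hql, hqD, -⟩ := AESK.spine_deg hl1 hl hD
    exact hj c q d0 m hl hD h1 h2 (by exact_mod_cast h3) h4 h5 (ih hql hqD)

/-- **Closure** -/
theorem clos_of (h : ∀ b : ℕ, 1 ≤ b → JtSt b) : ClosSt := by
  intro b hb
  obtain ⟨K0, ε, hε, hJ⟩ := h b hb
  refine ⟨K0, ε, hε, ?_⟩
  intro K hK θ hθ M
  obtain ⟨C₁, hC₁⟩ := hJ θ hθ
  obtain ⟨C₂, hC₂⟩ := lin_small hb (M := M) (β := 1 / 16) (by norm_num)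
  refine ⟨⌈max C₁ C₂⌉₊, ?_⟩
  intro V R hT c hl hD hc X hX
  have hC := Nat.le_ceil (max C₁ C₂)
  have hKr : (K0 : ℝ) ≤ K := by exact_mod_cast hK
  have hlin : Lin (1 / 16) (⌈max C₁ C₂⌉₊ : ℕ) c := by
    refine lin_of_lc (K := K) (θ := θ) (ε := ε) (M := M)
      (fun c hl hD hM => hC₂ _ ((le_max_right _ _).trans hC) c hl hD hM) ?_ hc hl hD
    intro c q d0 m hl hD h1 h2 h3 h4 h5 h6
    refine hC₁ _ ((le_max_left _ _).trans hC) c q d0 m hl hD h1 h2 (le_trans ?_ h3) h4 h5 h6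
    exact mul_le_mul_of_nonneg_right hKr (by positivity)
  refine hlin hT X (fun _ => True) (by exact_mod_cast hX) ?_
  rw [filter_true]
  have : (0 : ℝ) ≤ X.card := Nat.cast_nonneg _
  linarith

end AEJT
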