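import Pool.Agent.AESK.PE
import Pool.Agent.AELT.Main0

/-!
# Chains of branches with small reach
-/

namespace AEJT

open Finset AE15 AED AELT
open scoped Classical

/-- trees with a chain of branches: the tree is small, or only few vertices are joined to its root by directed paths and
some branch of it, which is smaller by a factor between `K` and `1 / θ`, is again such a tree -/
inductive Lc (K : ℕ) (θ ε : ℝ) (M : ℕ) : Fd → Prop
  | small (c : Fd) : c.size + 1 ≤ M → Lc K θ ε M c
  | step (c : Fd) (d0 : Bool) (q : Bool × Fd) (m : ℕ) : AESK.PtT 0 (d0, c) q m →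
      θ * (c.size + 1) ≤ q.2.size + 1 → K * (q.2.size + 1) ≤ c.size + 1 →
      (dcl c : ℝ) + 1 ≤ ε * (c.size + 1) → (AEB.blk c : ℝ) + 1 ≤ ε * (c.size + 1) → Lc K θ ε M q.2 → Lc K θ ε M c

/-- the closure statement: the trees with such a chain are contained in all tournaments with a bounded number of extra
vertices -/
def ClosSt : Prop := ∀ b : ℕ, 1 ≤ b → ∃ (K0 : ℕ) (ε : ℝ), 0 < ε ∧ ∀ K : ℕ, K0 ≤ K → ∀ θ : ℝ, 0 < θ → ∀ M : ℕ, ∃ C : ℕ,
  ∀ {V : Type} {R : V → V → Prop}, AE32.Tour R → ∀ c : Fd, c.len ≤ b → c.Deg b → Lc K θ ε M c →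
    ∀ X : Finset V, c.size + 1 + C ≤ X.card → In R c (fun _ => True) X

end AEJT
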