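import Pool.Agent.AEJ.Closure
import Pool.Agent.AEJT.Lc

/-!
# Chains of branches with small reach: the closure, from the jump without turns
-/

namespace AEJT

open Finset AE15 AED AELT AEK AEJ
open scoped Classical

/-- the statement of the jump without turns for windows of relative length `th` -/
def Jump0At (b : ℕ) (th : ℝ) : Prop := ∃ k' e' be' : ℝ, 0 < k' ∧ 0 < e' ∧ 0 < be' ∧ ∀ k e be : ℝ, 0 < k → 0 < e → 0 < be →
  ∃ k0 : ℝ, 0 < k0 ∧ ∀ th1 : ℝ, 0 < th1 → ∃ C0 : ℝ, ∀ C : ℝ, C0 ≤ C → ∀ (c : Fd) (q : Bool × Fd) (d0 : Bool) (m : ℕ),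
    c.len ≤ b → c.Deg b → AESK.PtT 0 (d0, c) q m → th1 * (c.size + 1) ≤ q.2.size + 1 →
      (q.2.size : ℝ) + 1 ≤ k0 * (c.size + 1) → th * (q.2.size + 1) + dcl q.2 + AEB.blk q.2 ≤ q.2.size + 1 →
        Coarse k' e' be' C q.2 → Coarse k e be C c

theorem Lc.window {K : ℕ} {θ : ℝ} {M : ℕ} {c : Fd} (h : Lc K θ (1 / 8) M c) :
    c.size + 1 ≤ M ∨ (1 / 2 : ℝ) * (c.size + 1) + dcl c + AEB.blk c ≤ c.size + 1 := by
  cases h with
  | small _ h => exact Or.inl h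
  | step _ d0 q m h1 h2 h3 h4 h5 h6 =>
    right
    have : (0 : ℝ) ≤ c.size := Nat.cast_nonneg _
    linarith

theorem coarse_of_lc {b : ℕ} {k' e' be' k0 C θ : ℝ} {K M : ℕ} (hθ : 0 < θ) (hθ1 : θ ≤ 1) (hK : 1 ≤ k0 * K)
    (hk0 : 0 < k0) (hs : ∀ c : Fd, c.len ≤ b → c.Deg b → (c.size + 1 : ℝ) ≤ M / θ → Coarse k' e' be' C c)
    (hj : ∀ (c : Fd) (q : Bool × Fd) (d0 : Bool) (m : ℕ), c.len ≤ b → c.Deg b → AESK.PtT 0 (d0, c) q m →
      θ * (c.size + 1) ≤ q.2.size + 1 → (q.2.size : ℝ) + 1 ≤ k0 * (c.size + 1) →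
      (1 / 2 : ℝ) * (q.2.size + 1) + dcl q.2 + AEB.blk q.2 ≤ q.2.size + 1 → Coarse k' e' be' C q.2 → Coarse k' e' be' C c)
    {c : Fd} (h : Lc K θ (1 / 8) M c) : c.len ≤ b → c.Deg b → Coarse k' e' be' C c := by
  induction h with
  | small c h =>
    intro hl hD
    refine hs c hl hD ?_
    rw [le_div_iff₀ hθ]
    have : (c.size + 1 : ℝ) ≤ M := by exact_mod_cast h
    have h0 : (0 : ℝ) ≤ c.size := Nat.cast_nonneg _
    nlinarith
  | step c d0 q m h1 h2 h3 h4 h5 h6 ih =>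
    intro hl hD
    obtain ⟨l, hl1, -⟩ := h1.spine
    obtain ⟨hql, hqD, -⟩ := AESK.spine_deg hl1 hl hD
    rcases h6.window with hw | hw
    · refine hs c hl hD ?_
      rw [le_div_iff₀ hθ]
      have : (q.2.size + 1 : ℝ) ≤ M := by exact_mod_cast hw
      nlinarith
    · refine hj c q d0 m hl hD h1 h2 ?_ hw (ih hql hqD)
      have h7 : (K : ℝ) * (q.2.size + 1) ≤ c.size + 1 := by exact_mod_cast h3
      have h8 := mul_le_mul_of_nonneg_left h7 hk0.le
      have h9 : (0 : ℝ) ≤ q.2.size := Nat.cast_nonneg _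
      nlinarith

/-- **Closure** -/
theorem clos_of_jump0 (h : ∀ b : ℕ, 1 ≤ b → Jump0At b (1 / 2)) : ClosSt := by
  intro b hb
  obtain ⟨k', e', be', hk, he, hbe, hJ⟩ := h b hb
  obtain ⟨k0, hk0, h0⟩ := hJ k' e' be' hk he hbe
  obtain ⟨k1, hk1, h1⟩ := hJ (1 / 128) (1 / 16) (1 / 8) (by norm_num) (by norm_num) (by norm_num)
  obtain ⟨K0, hK0⟩ := exists_nat_ge (max (1 / k0) (1 / k1))
  refine ⟨K0, 1 / 8, by norm_num, ?_⟩
  intro K hK θ' hθ' M
  have hKr : (K0 : ℝ) ≤ K := by exact_mod_cast hK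
  have hKk0 : 1 ≤ k0 * K := by
    have h2 : 1 / k0 ≤ K := ((le_max_left _ _).trans hK0).trans hKr
    rw [div_le_iff₀ hk0] at h2
    linarith
  have hKk1 : 1 ≤ k1 * K := by
    have h2 : 1 / k1 ≤ K := ((le_max_right _ _).trans hK0).trans hKr
    rw [div_le_iff₀ hk1] at h2
    linarith
  obtain ⟨θ, hθd⟩ : ∃ θ, θ = min θ' 1 := ⟨_, rfl⟩
  have hθ : 0 < θ := by rw [hθd]; exact lt_min hθ' one_pos
  have hθ1 : θ ≤ 1 := by rw [hθd]; exact min_le_right _ _
  have hθθ : θ ≤ θ' := by rw [hθd]; exact min_le_left _ _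
  have hmono : ∀ c : Fd, Lc K θ' (1 / 8) M c → Lc K θ (1 / 8) M c := by
    intro c hc
    induction hc with
    | small c h => exact Lc.small c h
    | step c d0 q m a1 a2 a3 a4 a5 _ ih =>
      refine Lc.step c d0 q m a1 (le_trans ?_ a2) a3 a4 a5 ih
      exact mul_le_mul_of_nonneg_right hθθ (by positivity)
  obtain ⟨C₁, hC₁⟩ := h0 θ hθ
  obtain ⟨C₂, hC₂⟩ := h1 θ hθ
  obtain ⟨C₃, hC₃⟩ := coarse_small hb (M := M / θ) hbe
  obtain ⟨C₄, hC₄, hU⟩ := un_one b hb (β := 1) one_pos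
  obtain ⟨C, hC⟩ : ∃ C : ℕ, C = ⌈max (max C₁ C₂) (max C₃ (max (M / θ + C₄) 64))⌉₊ := ⟨_, rfl⟩
  have hC' : max (max C₁ C₂) (max C₃ (max (M / θ + C₄) 64)) ≤ (C : ℝ) := by rw [hC]; exact Nat.le_ceil _
  have c1 : C₁ ≤ C := (le_max_left _ _).trans ((le_max_left _ _).trans hC')
  have c2 : C₂ ≤ C := (le_max_right _ _).trans ((le_max_left _ _).trans hC')
  have c3 : C₃ ≤ C := (le_max_left _ _).trans ((le_max_right _ _).trans hC')
  have c4 : M / θ + C₄ ≤ C := (le_max_left _ _).trans ((le_max_right _ _).trans ((le_max_right _ _).trans hC'))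
  have c5 : (64 : ℝ) ≤ C := (le_max_right _ _).trans ((le_max_right _ _).trans ((le_max_right _ _).trans hC'))
  refine ⟨C, ?_⟩
  intro V R hT c hl hD hLc' X₀ hX₀
  have hLc := hmono c hLc'
  have hco : ∀ c : Fd, Lc K θ (1 / 8) M c → c.len ≤ b → c.Deg b → Coarse k' e' be' C c := fun c hc =>
    coarse_of_lc (K := K) hθ hθ1 hKk0 hk0 (fun c hl hD hM => hC₃ C c3 k' e' c hl hD hM)
      (fun c q d0 m hl hD a1 a2 a3 a4 a5 => hC₁ C c1 c q d0 m hl hD a1 a2 a3 a4 a5) hc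
  obtain ⟨X, hXX, hX⟩ := exists_subset_card_eq hX₀
  have hXr : (X.card : ℝ) = c.size + 1 + C := by exact_mod_cast hX
  have hs0 : (0 : ℝ) ≤ c.size := Nat.cast_nonneg _
  have key : In R c (fun _ => True) X := by
    by_cases hsm : (c.size + 1 : ℝ) ≤ M / θ
    · exact hU hT c hl hD X (by rw [hXr]; norm_num; linarith)
    push Not at hsm
    have hM : (M : ℝ) ≤ M / θ := by
      rw [le_div_iff₀ hθ]
      have : (0 : ℝ) ≤ M := Nat.cast_nonneg _
      nlinarith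
    cases hLc with
    | small _ h =>
      exfalso
      have : (c.size + 1 : ℝ) ≤ M := by exact_mod_cast h
      linarith
    | step _ d0 q m a1 a2 a3 a4 a5 a6 =>
      obtain ⟨l, hl1, -⟩ := a1.spine
      obtain ⟨hql, hqD, -⟩ := AESK.spine_deg hl1 hl hD
      have hm1 := adm_mid hT (e := 1 / 16) (by norm_num) c X (N := fun _ => True) (fun _ => trivial)
      have hadm : 1 / 8 * (X.card : ℝ) ≤ ((Adm R (1 / 128) (1 / 16) c X (fun _ => True)).card : ℝ) := by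
        refine le_trans ?_ (show (X.card : ℝ) - dcl c - AEB.blk c - 4 * (1 / 16) * X.card - 6 ≤
          ((Adm R (1 / 128) (1 / 16) c X (fun _ => True)).card : ℝ) by
            have e1 : (1 / 16 : ℝ) / 8 = 1 / 128 := by norm_num
            rw [← e1]
            exact hm1)
        linarith
      rw [div_lt_iff₀ hθ] at hsm
      rcases a6.window with hw | hw
      · exfalso
        have : (q.2.size + 1 : ℝ) ≤ M := by exact_mod_cast hw
        linarith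
      · refine hC₂ C c2 c q d0 m hl hD a1 a2 ?_ hw (hco q.2 a6 hql hqD) hT X _ hXr.ge hadm
        have h7 : (K : ℝ) * (q.2.size + 1) ≤ c.size + 1 := by exact_mod_cast a3
        have h8 := mul_le_mul_of_nonneg_left h7 hk1.le
        have h9 : (0 : ℝ) ≤ q.2.size := Nat.cast_nonneg _
        nlinarith
  obtain ⟨x, hx, A, hA, h1, h2, h3⟩ := key
  exact ⟨x, hXX hx, A, hA.trans hXX, h1, h2, h3⟩

end AEJT
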