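import Pool.Agent.AEJ.Jump0
import Pool.Agent.AEJT.Clos0

/-!
# Chains of branches with small reach: the closure
-/

namespace AEJT

theorem clos : ClosSt :=
  clos_of_jump0 (fun b hb => AEJ.jump0 b hb (by norm_num) (by norm_num))

end AEJT
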