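import Pool.Agent.AESK.PE
import Pool.Agent.AEG.GlueS

/-!
# The coded tree of an oriented rooted tree, as a function of the orientation
-/

namespace AEJT

open Finset Relation AE15 AED AELT AESK
open scoped Classical

section glue

variable {τ : Type*} [Fintype τ] {E P : τ → τ → Prop}

/-- the children of a vertex -/
noncomputable def chl (P : τ → τ → Prop) (v : τ) : Finset τ := univ.filter (fun w => P v w)

theorem mem_chl {v w : τ} : w ∈ chl P v ↔ P v w := by simp [chl]

/-- the forest of the branches at a vertex, up to depth `n` -/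
noncomputable def codeN (E P : τ → τ → Prop) : ℕ → τ → Fd
  | 0, _ => .nil
  | n + 1, v => mk ((chl P v).toList.map (fun w => (decide (E v w), codeN E P n w)))

/-- the forest of the branches at a vertex -/
noncomputable def code (E P : τ → τ → Prop) (v : τ) : Fd := codeN E P (Fintype.card τ) v

theorem desc_card_lt {h : τ → ℕ} (hE : ∀ a b, P a b → h a < h b) {v w : τ} (hvw : P v w) :
    (AE32.desc P w).card < (AE32.desc P v).card := by
  refine card_lt_card ⟨AE32.desc_subset hvw, fun hcon => ?_⟩
  exact AE32.notMem_desc hE hvw (hcon (AE32.self_mem_desc v))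

theorem codeN_stable {h : τ → ℕ} (hE : ∀ a b, P a b → h a < h b) (n : ℕ) :
    ∀ v, (AE32.desc P v).card ≤ n → codeN E P (n + 1) v = codeN E P n v := by
  induction n with
  | zero =>
    intro v hv
    have : 0 < (AE32.desc P v).card := card_pos.2 ⟨v, AE32.self_mem_desc v⟩
    omega
  | succ n ih =>
    intro v hv
    show mk ((chl P v).toList.map (fun w => (decide (E v w), codeN E P (n + 1) w))) =
      mk ((chl P v).toList.map (fun w => (decide (E v w), codeN E P n w)))
    congr 1
    apply List.map_congr_left
    intro w hw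
    have hw' : P v w := mem_chl.1 (mem_toList.1 hw)
    rw [ih w (by have := desc_card_lt hE hw'; omega)]

theorem code_eq {h : τ → ℕ} (hE : ∀ a b, P a b → h a < h b) (v : τ) :
    code E P v = mk ((chl P v).toList.map (fun w => (decide (E v w), code E P w))) := by
  have h1 := codeN_stable (E := E) hE (Fintype.card τ) v (card_le_univ _)
  show codeN E P (Fintype.card τ) v = _
  rw [← h1]
  rfl

theorem code_trees {h : τ → ℕ} (hE : ∀ a b, P a b → h a < h b) (v : τ) :
    (code E P v).trees = (chl P v).toList.map (fun w => (decide (E v w), code E P w)) := by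
  rw [code_eq hE, mk_trees]

theorem desc_eq {h : τ → ℕ} (hE : ∀ a b, P a b → h a < h b) (v : τ) :
    AE32.desc P v = insert v ((chl P v).biUnion (AE32.desc P)) ∧ v ∉ (chl P v).biUnion (AE32.desc P) := by
  constructor
  · ext x
    rw [mem_insert, mem_biUnion, AE32.mem_desc, ReflTransGen.cases_head_iff]
    constructor
    · rintro (h1 | ⟨c, h1, h2⟩)
      · exact Or.inl h1.symm
      · exact Or.inr ⟨c, mem_chl.2 h1, AE32.mem_desc.2 h2⟩
    · rintro (h1 | ⟨c, h1, h2⟩)
      · exact Or.inl h1.symm
      · exact Or.inr ⟨c, mem_chl.1 h1, AE32.mem_desc.1 h2⟩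
  · rw [mem_biUnion]
    rintro ⟨c, h1, h2⟩
    exact AE32.notMem_desc hE (mem_chl.1 h1) h2

theorem code_size {h : τ → ℕ} (hE : ∀ a b, P a b → h a < h b) (hin : ∀ a b c, P a c → P b c → a = b) (n : ℕ) :
    ∀ v, (AE32.desc P v).card = n → (code E P v).size + 1 = n := by
  induction n using Nat.strong_induction_on with
  | _ n ih =>
    intro v hv
    rw [code_eq hE, mk_size, tsz, List.map_map]
    have h1 : (chl P v).toList.map ((fun p : Bool × Fd => p.2.size + 1) ∘ fun w => (decide (E v w), code E P w)) =
        (chl P v).toList.map (fun w => (AE32.desc P w).card) := by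
      apply List.map_congr_left
      intro w hw
      have hw' : P v w := mem_chl.1 (mem_toList.1 hw)
      exact ih _ (by rw [← hv]; exact desc_card_lt hE hw') w rfl
    rw [h1, Finset.sum_map_toList, ← hv, (desc_eq hE v).1, card_insert_of_notMem (desc_eq hE v).2, card_biUnion]
    intro c hc d hd hcd
    exact AE32.desc_disjoint hE hin (mem_chl.1 hc) (mem_chl.1 hd) hcd

theorem code_len {h : τ → ℕ} (hE : ∀ a b, P a b → h a < h b) (v : τ) : (code E P v).len = (chl P v).card := by
  rw [code_eq hE, mk_len, List.length_map, length_toList]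

theorem code_deg {h : τ → ℕ} (hE : ∀ a b, P a b → h a < h b) {b : ℕ} (hb : ∀ v, (chl P v).card ≤ b) (n : ℕ) :
    ∀ v, (AE32.desc P v).card = n → (code E P v).Deg b := by
  induction n using Nat.strong_induction_on with
  | _ n ih =>
    intro v hv
    rw [code_eq hE, mk_deg]
    intro q hq
    obtain ⟨w, hw, rfl⟩ := List.mem_map.1 hq
    have hw' : P v w := mem_chl.1 (mem_toList.1 hw)
    exact ⟨by rw [code_len hE]; exact hb w, ih _ (by rw [← hv]; exact desc_card_lt hE hw') w rfl⟩

/-- a copy of the forest `c` gives a copy of the tree below `v` -/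
def EC (E P : τ → τ → Prop) (v : τ) (c : Fd) : Prop :=
  ∀ (V : Type) (R : V → V → Prop) (x : V) (S : Finset V), x ∉ S → Emb R c x S →
    ∃ f : τ → V, f v = x ∧ (∀ a ∈ AE32.desc P v, f a ∈ insert x S) ∧
      (∀ a ∈ AE32.desc P v, ∀ a' ∈ AE32.desc P v, f a = f a' → a = a') ∧
      ∀ a ∈ AE32.desc P v, ∀ a', P a a' → Adj R (decide (E a a')) (f a) (f a')

/-- a copy of the forest `F` gives copies of the trees below the vertices of the list -/
def ECL (E P : τ → τ → Prop) (v : τ) (l : List τ) (F : Fd) : Prop :=
  ∀ (V : Type) (R : V → V → Prop) (x : V) (S : Finset V), Emb R F x S →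
    ∃ f : τ → V, (∀ c ∈ l, Adj R (decide (E v c)) x (f c)) ∧ (∀ c ∈ l, ∀ a ∈ AE32.desc P c, f a ∈ S) ∧
      (∀ c ∈ l, ∀ a ∈ AE32.desc P c, ∀ c' ∈ l, ∀ a' ∈ AE32.desc P c', f a = f a' → a = a') ∧
      ∀ c ∈ l, ∀ a ∈ AE32.desc P c, ∀ a', P a a' → Adj R (decide (E a a')) (f a) (f a')

theorem ecl_of (v : τ) (g : τ → Fd) (l : List τ) (hl : l.Nodup)
    (hdis : ∀ c ∈ l, ∀ d ∈ l, c ≠ d → Disjoint (AE32.desc P c) (AE32.desc P d)) (h : ∀ c ∈ l, EC E P c (g c)) :
    ECL E P v l (mk (l.map (fun w => (decide (E v w), g w)))) := by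
  induction l with
  | nil =>
    intro V R x S _
    exact ⟨fun _ => x, by simp, by simp, by simp, by simp⟩
  | cons c l ih =>
    rw [List.nodup_cons] at hl
    have hF4 := ih hl.2 (fun c hc d hd => hdis c (List.mem_cons_of_mem _ hc) d (List.mem_cons_of_mem _ hd))
      (fun c hc => h c (List.mem_cons_of_mem _ hc))
    have hG4 := h c List.mem_cons_self
    have hcl : ∀ d ∈ l, Disjoint (AE32.desc P c) (AE32.desc P d) := fun d hd =>
      hdis c List.mem_cons_self d (List.mem_cons_of_mem _ hd) (fun e => hl.1 (e ▸ hd))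
    have hnot : ∀ d ∈ l, ∀ a ∈ AE32.desc P d, a ∉ AE32.desc P c := fun d hd a ha ha' =>
      (Finset.disjoint_left.1 (hcl d hd)) ha' ha
    intro V R x S hS
    rw [List.map_cons] at hS
    obtain ⟨y, A, B, hy, hyA, hyB, hAB, rfl, hA, hB⟩ := hS
    obtain ⟨f₁, p1, p2, p3, p4⟩ := hG4 _ _ _ _ hyA hA
    obtain ⟨f₂, q1, q2, q3, q4⟩ := hF4 _ _ _ _ hB
    have hsep : Disjoint (insert y A) B := by
      rw [disjoint_insert_left]
      exact ⟨hyB, hAB⟩
    refine ⟨fun a => if a ∈ AE32.desc P c then f₁ a else f₂ a, ?_, ?_, ?_, ?_⟩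
    · intro d hd
      rcases List.mem_cons.1 hd with rfl | hd
      · simp only [AE32.self_mem_desc, if_true, p1]
        exact hy
      · simp only [hnot d hd d (AE32.self_mem_desc d), if_false]
        exact q1 d hd
    · intro d hd a ha
      rcases List.mem_cons.1 hd with rfl | hd
      · simp only [ha, if_true]
        have := p2 a ha
        rw [mem_insert] at this
        simp only [mem_insert, mem_union]
        tauto
      · simp only [hnot d hd a ha, if_false]
        exact mem_insert_of_mem (mem_union_right _ (q2 d hd a ha))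
    · intro d hd a ha d' hd' a' ha' haa
      rcases List.mem_cons.1 hd with e | hd1
      · rw [e] at ha
        rcases List.mem_cons.1 hd' with e' | hd2
        · rw [e'] at ha'
          simp only [ha, ha', if_true] at haa
          exact p3 a ha a' ha' haa
        · simp only [ha, if_true, hnot d' hd2 a' ha', if_false] at haa
          exact absurd (haa ▸ q2 d' hd2 a' ha') ((Finset.disjoint_left.1 hsep) (p2 a ha))
      · rcases List.mem_cons.1 hd' with e' | hd2
        · rw [e'] at ha'
          simp only [ha', if_true, hnot d hd1 a ha, if_false] at haa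
          exact absurd (haa.symm ▸ q2 d hd1 a ha) ((Finset.disjoint_left.1 hsep) (p2 a' ha'))
        · simp only [hnot d hd1 a ha, hnot d' hd2 a' ha', if_false] at haa
          exact q3 d hd1 a ha d' hd2 a' ha' haa
    · intro d hd a ha a' haa
      rcases List.mem_cons.1 hd with rfl | hd
      · have ha' : a' ∈ AE32.desc P d := AE32.mem_desc.2 ((AE32.mem_desc.1 ha).tail haa)
        simp only [ha, ha', if_true]
        exact p4 a ha a' haa
      · have ha' : a' ∈ AE32.desc P d := AE32.mem_desc.2 ((AE32.mem_desc.1 ha).tail haa)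
        simp only [hnot d hd a ha, hnot d hd a' ha', if_false]
        exact q4 d hd a ha a' haa

theorem code_ec {h : τ → ℕ} (hE : ∀ a b, P a b → h a < h b) (hin : ∀ a b c, P a c → P b c → a = b) (n : ℕ) :
    ∀ v, (AE32.desc P v).card = n → EC E P v (code E P v) := by
  induction n using Nat.strong_induction_on with
  | _ n ih =>
    intro v hv V R x S hxS hS
    rw [code_eq hE] at hS
    have hmem : ∀ c, c ∈ (chl P v).toList ↔ P v c := fun c => by rw [mem_toList, mem_chl]
    obtain ⟨f, q1, q2, q3, q4⟩ := ecl_of (E := E) (P := P) v (code E P) (chl P v).toList (Finset.nodup_toList _)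
      (fun c hc d hd hcd => AE32.desc_disjoint hE hin ((hmem c).1 hc) ((hmem d).1 hd) hcd)
      (fun c hc => ih _ (by rw [← hv]; exact desc_card_lt hE ((hmem c).1 hc)) c rfl) _ _ _ _ hS
    obtain ⟨hdesc, hnv⟩ := desc_eq hE v
    have hcase : ∀ a ∈ AE32.desc P v, a = v ∨ ∃ c ∈ (chl P v).toList, a ∈ AE32.desc P c := by
      intro a ha
      rw [hdesc, mem_insert, mem_biUnion] at ha
      rcases ha with h1 | ⟨c, h1, h2⟩
      · exact Or.inl h1
      · exact Or.inr ⟨c, Finset.mem_toList.2 h1, h2⟩
    have hne : ∀ c ∈ (chl P v).toList, ∀ a ∈ AE32.desc P c, a ≠ v := by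
      rintro c hc a ha rfl
      exact AE32.notMem_desc hE ((hmem c).1 hc) ha
    refine ⟨fun a => if a = v then x else f a, by simp, ?_, ?_, ?_⟩
    · intro a ha
      rcases hcase a ha with rfl | ⟨c, hc, hac⟩
      · simp
      · simp only [hne c hc a hac, if_false]
        exact mem_insert_of_mem (q2 c hc a hac)
    · intro a ha a' ha' haa
      rcases hcase a ha with rfl | ⟨c, hc, hac⟩
      · rcases hcase a' ha' with rfl | ⟨c', hc', hac'⟩
        · rfl
        · simp only [if_true, hne c' hc' a' hac', if_false] at haa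
          exact absurd (haa ▸ q2 c' hc' a' hac') hxS
      · rcases hcase a' ha' with rfl | ⟨c', hc', hac'⟩
        · simp only [if_true, hne c hc a hac, if_false] at haa
          exact absurd (haa.symm ▸ q2 c hc a hac) hxS
        · simp only [hne c hc a hac, hne c' hc' a' hac', if_false] at haa
          exact q3 c hc a hac c' hc' a' hac' haa
    · intro a ha a' haa
      have ha'v : a' ≠ v := by
        rintro rfl
        have h1 := AE32.rank_le hE (AE32.mem_desc.1 ha)
        have h2 := hE _ _ haa
        omega
      rcases hcase a ha with rfl | ⟨c, hc, hac⟩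
      · simp only [if_true, ha'v, if_false]
        exact q1 a' ((hmem a').2 haa)
      · simp only [hne c hc a hac, ha'v, if_false]
        exact q4 c hc a hac a' haa

/-- the branches along a path of the tree, with their turns -/
theorem ptT_path {h : τ → ℕ} (hE : ∀ a b, P a b → h a < h b) (p : ℕ → τ) {m : ℕ} (hp : ∀ i < m, P (p i) (p (i + 1)))
    (i : ℕ) (n : ℕ) (hn : i + 1 + n ≤ m) :
    PtT 0 (!decide (E (p i) (p (i + 1))), code E P (p i))
      (decide (E (p (i + n)) (p (i + n + 1))), code E P (p (i + n + 1)))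
      (1 + ((Ioo i (i + n + 1)).filter (fun t => ¬ (E (p (t - 1)) (p t) ↔ E (p t) (p (t + 1))))).card) := by
  have hmem : ∀ j < m, (decide (E (p j) (p (j + 1))), code E P (p (j + 1))) ∈ (code E P (p j)).trees := by
    intro j hj
    rw [code_eq hE (p j), mk_trees]
    exact List.mem_map.2 ⟨p (j + 1), mem_toList.2 (mem_chl.2 (hp j hj)), rfl⟩
  induction n with
  | zero =>
    have h1 := PtT.step (k := 0) (p := (!decide (E (p i) (p (i + 1))), code E P (p i))) _
      (decide (E (p i) (p (i + 1))), code E P (p (i + 1))) 0 PtT.refl (hmem i (by omega)) (Nat.zero_le _)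
    have h2 : Ioo i (i + 0 + 1) = ∅ := by
      ext t
      simp only [mem_Ioo, notMem_empty, iff_false]
      omega
    rw [h2, filter_empty, card_empty]
    simpa using h1
  | succ n ih =>
    have h1 := PtT.step (k := 0) _ (decide (E (p (i + n + 1)) (p (i + n + 1 + 1))), code E P (p (i + n + 1 + 1))) _
      (ih (by omega)) (hmem (i + n + 1) (by omega)) (Nat.zero_le _)
    have h2 : Ioo i (i + (n + 1) + 1) = insert (i + n + 1) (Ioo i (i + n + 1)) := by
      ext t
      simp only [mem_Ioo, mem_insert]
      omega
    have h3 : i + n + 1 ∉ (Ioo i (i + n + 1)).filter (fun t => ¬ (E (p (t - 1)) (p t) ↔ E (p t) (p (t + 1)))) := by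
      rw [mem_filter, mem_Ioo]
      omega
    rw [h2, filter_insert]
    have h4 : i + n + 1 - 1 = i + n := by omega
    have h5 : i + (n + 1) = i + n + 1 := by omega
    rw [h5]
    by_cases hc : E (p (i + n)) (p (i + n + 1)) ↔ E (p (i + n + 1)) (p (i + n + 1 + 1))
    · rw [if_neg (by rw [h4]; exact not_not.2 hc)]
      rw [if_pos (by simp only [decide_eq_decide]; exact hc.symm), Nat.add_zero] at h1
      exact h1
    · rw [if_pos (by rw [h4]; exact hc), card_insert_of_notMem h3]
      rw [if_neg (by simp only [decide_eq_decide]; exact fun h => hc h.symm)] at h1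
      rw [← Nat.add_assoc]
      exact h1

end glue

/-! ### Distances -/

section dist

variable {τ : Type*} {G : SimpleGraph τ}

theorem reach_dist (hG : G.IsTree) (r v x : τ) :
    ReflTransGen (fun a c => G.Adj a c ∧ G.dist r c = G.dist r a + 1) v x ↔ G.dist r v + G.dist v x = G.dist r x := by
  constructor
  · intro h
    have h1 : G.dist r v + G.dist v x ≤ G.dist r x := by
      induction h with
      | refl => simp
      | @tail b c _ hbc ih =>
        have h2 := hG.connected.dist_triangle (u := v) (v := b) (w := c)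
        have h3 : G.dist b c = 1 := SimpleGraph.dist_eq_one_iff_adj.2 hbc.1
        omega
    have h2 := hG.connected.dist_triangle (u := r) (v := v) (w := x)
    omega
  · obtain ⟨n, hn⟩ : ∃ n, n = G.dist v x := ⟨_, rfl⟩
    induction n generalizing x with
    | zero =>
      intro _
      rw [(hG.connected.dist_eq_zero_iff).1 hn.symm]
    | succ n ih =>
      intro hx
      obtain ⟨w, hw⟩ := hG.connected.exists_walk_length_eq_dist v x
      have hnil : ¬ w.Nil := by
        intro h
        have := SimpleGraph.Walk.length_eq_zero_iff.2 h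
        omega
      have hadj := w.adj_penultimate hnil
      have h1 : G.dist v w.penultimate = n := by
        have h2 := SimpleGraph.dist_le w.dropLast
        have h3 : w.dropLast.length + 1 = w.length := by
          have := congrArg SimpleGraph.Walk.length (w.concat_dropLast hadj)
          rw [SimpleGraph.Walk.length_concat] at this
          exact this
        have h4 := hG.connected.dist_triangle (u := v) (v := w.penultimate) (w := x)
        have h5 : G.dist w.penultimate x = 1 := SimpleGraph.dist_eq_one_iff_adj.2 hadj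
        omega
      have h2 := hG.connected.dist_triangle (u := r) (v := v) (w := w.penultimate)
      have h3 := hG.connected.dist_triangle (u := r) (v := w.penultimate) (w := x)
      have h5 : G.dist w.penultimate x = 1 := SimpleGraph.dist_eq_one_iff_adj.2 hadj
      have h6 := ih w.penultimate h1.symm (by omega)
      exact h6.tail ⟨hadj, by omega⟩

end dist


/-! ### Orientations of a rooted tree -/

section ori

variable {k : ℕ} (G : SimpleGraph (Fin (k + 1))) (r : Fin (k + 1))

/-- `a` is the parent of `c` -/
def Par (a c : Fin (k + 1)) : Prop := G.Adj a c ∧ G.dist r c = G.dist r a + 1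

/-- the orientation given by the directions of the arcs to the parents (`true`: away from the root) -/
def ori (f : Fin (k + 1) → Bool) (a c : Fin (k + 1)) : Prop :=
  (Par G r a c ∧ f c = true) ∨ (Par G r c a ∧ f a = false)

/-- the vertices reached from `v` away from the root by arcs of the direction `d` -/
noncomputable def Dn (f : Fin (k + 1) → Bool) (d : Bool) (v : Fin (k + 1)) : Finset (Fin (k + 1)) :=
  univ.filter (fun x => ReflTransGen (fun a c => Par G r a c ∧ f c = d) v x)

variable {G r}

theorem Par.lt {a c : Fin (k + 1)} (h : Par G r a c) : G.dist r a < G.dist r c := by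
  have := h.2
  omega

theorem Par.unique (hG : G.IsTree) {a b c : Fin (k + 1)} (h : Par G r a c) (h' : Par G r b c) : a = b :=
  AEG.parent_unique hG r h.1 h'.1 h.2 h'.2

theorem Par.not_symm {a c : Fin (k + 1)} (h : Par G r a c) : ¬ Par G r c a := by
  intro h'
  have := h.lt
  have := h'.lt
  omega

theorem par_or (hG : G.IsTree) {a c : Fin (k + 1)} (h : G.Adj a c) : Par G r a c ∨ Par G r c a := by
  rcases hG.dist_eq_dist_add_one_of_adj r h with h1 | h1
  · exact Or.inr ⟨h.symm, h1⟩
  · exact Or.inl ⟨h, h1⟩

/-- every vertex except the root has a parent -/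
theorem exists_par (hG : G.IsTree) {c : Fin (k + 1)} (hc : c ≠ r) : ∃ a, Par G r a c := by
  have h1 := AEG.root_reach hG r _ c rfl
  rcases h1.cases_tail with h2 | ⟨a, -, h3⟩
  · exact absurd h2 hc
  · exact ⟨a, h3⟩

theorem not_par_root {a : Fin (k + 1)} : ¬ Par G r a r := by
  intro h
  have := h.lt
  simp at this

theorem ori_asymm {f : Fin (k + 1) → Bool} {a c : Fin (k + 1)} (h : ori G r f a c) : ¬ ori G r f c a := by
  rintro h'
  rcases h with ⟨h1, h2⟩ | ⟨h1, h2⟩
  · rcases h' with ⟨h3, h4⟩ | ⟨h3, h4⟩
    · exact h1.not_symm h3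
    · rw [h2] at h4
      exact absurd h4 (by simp)
  · rcases h' with ⟨h3, h4⟩ | ⟨h3, h4⟩
    · rw [h2] at h4
      exact absurd h4 (by simp)
    · exact h1.not_symm h3

theorem ori_adj (hG : G.IsTree) (f : Fin (k + 1) → Bool) (a c : Fin (k + 1)) :
    G.Adj a c ↔ ori G r f a c ∨ ori G r f c a := by
  constructor
  · intro h
    rcases par_or (r := r) hG h with h1 | h1
    · cases hf : f c
      · exact Or.inr (Or.inr ⟨h1, hf⟩)
      · exact Or.inl (Or.inl ⟨h1, hf⟩)
    · cases hf : f a
      · exact Or.inl (Or.inr ⟨h1, hf⟩)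
      · exact Or.inr (Or.inl ⟨h1, hf⟩)
  · rintro ((⟨h1, -⟩ | ⟨h1, -⟩) | (⟨h1, -⟩ | ⟨h1, -⟩))
    · exact h1.1
    · exact h1.1.symm
    · exact h1.1.symm
    · exact h1.1

theorem desc_root (hG : G.IsTree) : AE32.desc (Par G r) r = univ := by
  rw [eq_univ_iff_forall]
  intro v
  exact AE32.mem_desc.2 (AEG.root_reach hG r _ v rfl)

end ori

end AEJT
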