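import Pool.Agent.AEJT.CountW

/-!
# Independent bad events in disjoint parts of a randomly oriented tree
-/

namespace AEJT

open Finset Relation
open scoped Classical

section codes

variable {V : Type*} [Fintype V]

/-- the product weight of a code -/
noncomputable def pw (g : V → Bool → ℝ) (f : V → Bool) : ℝ := ∏ v, g v (f v)

/-- a function which depends only on the coordinates in `S` -/
def DepOn (S : Set V) (φ : (V → Bool) → ℝ) : Prop := ∀ f f' : V → Bool, (∀ v ∈ S, f v = f' v) → φ f = φ f'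

theorem pw_total {g : V → Bool → ℝ} (h : ∀ v, g v true + g v false = 1) : ∑ f, pw g f = 1 := by
  have h1 : ∑ f : V → Bool, pw g f = ∏ v, ∑ j ∈ (univ : Finset Bool), g v j := by
    rw [prod_univ_sum]
    simp only [Fintype.piFinset_univ]
    rfl
  rw [h1]
  refine prod_eq_one fun v _ => ?_
  rw [Fintype.sum_bool]
  exact h v

theorem pw_nonneg {g : V → Bool → ℝ} (h : ∀ v j, 0 ≤ g v j) (f : V → Bool) : 0 ≤ pw g f :=
  prod_nonneg fun v _ => h v _

/-- functions of disjoint sets of coordinates are independent -/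
theorem indep {g : V → Bool → ℝ} (h : ∀ v, g v true + g v false = 1) {S : Set V} {φ ψ : (V → Bool) → ℝ}
    (hφ : DepOn S φ) (hψ : DepOn Sᶜ ψ) :
    ∑ f, pw g f * (φ f * ψ f) = (∑ f, pw g f * φ f) * ∑ f, pw g f * ψ f := by
  obtain ⟨σ, hσ⟩ : ∃ σ : (V → Bool) × (V → Bool) → (V → Bool) × (V → Bool),
      σ = fun p => (fun v => if v ∈ S then p.1 v else p.2 v, fun v => if v ∈ S then p.2 v else p.1 v) := ⟨_, rfl⟩
  have hσσ : ∀ p, σ (σ p) = p := by
    intro p
    rw [hσ]
    refine Prod.ext ?_ ?_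
    · funext v
      by_cases hv : v ∈ S
      · simp [hv]
      · simp [hv]
    · funext v
      by_cases hv : v ∈ S
      · simp [hv]
      · simp [hv]
  have h1 : (∑ f, pw g f * φ f) * ∑ f, pw g f * ψ f =
      ∑ p : (V → Bool) × (V → Bool), (pw g p.1 * pw g p.2) * (φ p.1 * ψ p.2) := by
    rw [sum_mul_sum, ← univ_product_univ, sum_product]
    refine sum_congr rfl fun f _ => sum_congr rfl fun f' _ => ?_
    ring
  have h2 : ∑ f, pw g f * (φ f * ψ f) =
      ∑ p : (V → Bool) × (V → Bool), (pw g p.1 * pw g p.2) * (φ p.1 * ψ p.1) := by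
    rw [← univ_product_univ, sum_product]
    refine sum_congr rfl fun f _ => ?_
    have h3 : ∀ f', pw g f * pw g f' * (φ f * ψ f) = (pw g f * (φ f * ψ f)) * pw g f' := fun f' => by ring
    simp only [h3]
    rw [← mul_sum, pw_total h, mul_one]
  rw [h1, h2]
  symm
  refine sum_bij (fun p _ => σ p) (fun _ _ => mem_univ _) ?_ ?_ ?_
  · intro p _ p' _ hpp
    rw [← hσσ p, ← hσσ p', hpp]
  · intro p _
    exact ⟨σ p, mem_univ _, hσσ p⟩
  · intro p _
    have e1 : pw g (σ p).1 * pw g (σ p).2 = pw g p.1 * pw g p.2 := by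
      unfold pw
      rw [← prod_mul_distrib, ← prod_mul_distrib]
      refine prod_congr rfl fun v _ => ?_
      rw [hσ]
      by_cases hv : v ∈ S
      · simp [hv]
      · simp only [hv, if_false]
        ring
    have e2 : φ (σ p).1 = φ p.1 := by
      refine hφ _ _ fun v hv => ?_
      rw [hσ]
      simp [hv]
    have e3 : ψ (σ p).1 = ψ p.2 := by
      refine hψ _ _ fun v hv => ?_
      rw [hσ]
      simp only [show v ∉ S from hv, if_false]
    rw [e1, e2, e3]

/-- several functions of disjoint sets of coordinates -/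
theorem indep_prod {g : V → Bool → ℝ} (h : ∀ v, g v true + g v false = 1) {ι : Type*} (I : Finset ι) (S : ι → Set V)
    (hS : ∀ i ∈ I, ∀ j ∈ I, i ≠ j → Disjoint (S i) (S j)) (φ : ι → (V → Bool) → ℝ)
    (hφ : ∀ i ∈ I, DepOn (S i) (φ i)) :
    ∑ f, pw g f * ∏ i ∈ I, φ i f = ∏ i ∈ I, ∑ f, pw g f * φ i f := by
  induction I using Finset.induction_on with
  | empty => simp [pw_total h]
  | insert i J hi ih =>
    rw [prod_insert hi, ← ih (fun j hj l hl => hS j (mem_insert_of_mem hj) l (mem_insert_of_mem hl))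
      (fun j hj => hφ j (mem_insert_of_mem hj))]
    rw [← indep h (hφ i (mem_insert_self _ _))]
    · refine sum_congr rfl fun f _ => ?_
      rw [prod_insert hi]
    · intro f f' hff
      refine prod_congr rfl fun j hj => hφ j (mem_insert_of_mem hj) _ _ fun v hv => hff v ?_
      intro hv'
      have hij : i ≠ j := by
        rintro rfl
        exact hi hj
      exact Set.disjoint_left.1 (hS i (mem_insert_self _ _) j (mem_insert_of_mem hj) hij) hv' hv

/-- independent bad events of probability at most `1 / 16`: with large probability less than half of them happen -/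
theorem exp_code {g : V → Bool → ℝ} (h0 : ∀ v j, 0 ≤ g v j) (h : ∀ v, g v true + g v false = 1) {ι : Type*}
    (I : Finset ι) (S : ι → Set V) (hS : ∀ i ∈ I, ∀ j ∈ I, i ≠ j → Disjoint (S i) (S j))
    (B : ι → Set (V → Bool)) (hB : ∀ i ∈ I, ∀ f f' : V → Bool, (∀ v ∈ S i, f v = f' v) → (f ∈ B i ↔ f' ∈ B i))
    (hp : ∀ i ∈ I, ∑ f ∈ univ.filter (fun f => f ∈ B i), pw g f ≤ 1 / 16) :
    ∑ f ∈ univ.filter (fun f : V → Bool => I.card ≤ 2 * (I.filter (fun i => f ∈ B i)).card), pw g f ≤
      1 / 2 ^ I.card := by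
  obtain ⟨φ, hφ⟩ : ∃ φ : ι → (V → Bool) → ℝ, φ = fun i f => if f ∈ B i then 16 else 1 := ⟨_, rfl⟩
  have hφd : ∀ i ∈ I, DepOn (S i) (φ i) := by
    intro i hi f f' hff
    rw [hφ]
    simp only [hB i hi f f' hff]
  have h1 := indep_prod h I S hS φ hφd
  have h2 : ∏ i ∈ I, ∑ f, pw g f * φ i f ≤ 2 ^ I.card := by
    rw [← prod_const]
    refine prod_le_prod (fun i _ => sum_nonneg fun f _ => mul_nonneg (pw_nonneg h0 f) ?_) fun i hi => ?_
    · rw [hφ]
      dsimp only
      split_ifs <;> norm_num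
    · have h3 : ∀ f, pw g f * φ i f = pw g f + 15 * (if f ∈ B i then pw g f else 0) := by
        intro f
        rw [hφ]
        dsimp only
        split_ifs <;> ring
      simp only [h3]
      rw [sum_add_distrib, ← mul_sum, pw_total h, ← sum_filter]
      have := hp i hi
      linarith
  have h4 : ∀ f ∈ univ.filter (fun f : V → Bool => I.card ≤ 2 * (I.filter (fun i => f ∈ B i)).card),
      (4 : ℝ) ^ I.card * pw g f ≤ pw g f * ∏ i ∈ I, φ i f := by
    intro f hf
    rw [mem_filter] at hf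
    rw [mul_comm]
    refine mul_le_mul_of_nonneg_left ?_ (pw_nonneg h0 f)
    have h5 : ∏ i ∈ I, φ i f = 16 ^ (I.filter (fun i => f ∈ B i)).card := by
      rw [hφ]
      dsimp only
      rw [prod_ite, prod_const_one, mul_one, prod_const]
    rw [h5, show (16 : ℝ) = 4 ^ 2 by norm_num, ← pow_mul]
    exact pow_le_pow_right₀ (by norm_num) hf.2
  have h6 := sum_le_sum h4
  rw [← mul_sum] at h6
  have h7 : ∑ f ∈ univ.filter (fun f : V → Bool => I.card ≤ 2 * (I.filter (fun i => f ∈ B i)).card),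
      pw g f * ∏ i ∈ I, φ i f ≤ ∑ f, pw g f * ∏ i ∈ I, φ i f := by
    refine sum_le_sum_of_subset_of_nonneg (filter_subset _ _) fun f _ _ => mul_nonneg (pw_nonneg h0 f)
      (prod_nonneg fun i _ => ?_)
    rw [hφ]
    dsimp only
    split_ifs <;> norm_num
  rw [h1] at h7
  have h8 := h6.trans (h7.trans h2)
  have h9 : (4 : ℝ) ^ I.card = 2 ^ I.card * 2 ^ I.card := by
    rw [← mul_pow]
    norm_num
  have h10 : (0 : ℝ) < 2 ^ I.card := by positivity
  rw [h9, mul_assoc] at h8
  rw [le_div_iff₀ h10, mul_comm]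
  have h11 := le_of_mul_le_mul_left (h8.trans (le_of_eq (mul_one _).symm)) h10
  exact h11

end codes

section ori

variable {V : Type*} [Fintype V]

/-- the weight of a code, with value `true` at the root -/
noncomputable def gV (G : SimpleGraph V) (r : V) (q : V → V → ℝ) (v : V) (j : Bool) : ℝ :=
  if v = r then (if j = true then 1 else 0) else gW G r q v j

theorem gV_total {G : SimpleGraph V} (hG : G.IsTree) (r : V) {ρ : ℝ} {q : V → V → ℝ} (hq : Wts G ρ q) (v : V) :
    gV G r q v true + gV G r q v false = 1 := by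
  unfold gV
  by_cases hv : v = r
  · simp [hv]
  · obtain ⟨p1, -⟩ := parW_spec hG hv
    have e1 := hq _ _ p1
    simp only [hv, if_false, gW, if_true, Bool.false_eq_true]
    linarith [e1.2]

theorem gV_nonneg {G : SimpleGraph V} (hG : G.IsTree) (r : V) {ρ : ℝ} (hρ : 0 ≤ ρ) {q : V → V → ℝ}
    (hq : Wts G ρ q) (v : V) (j : Bool) : 0 ≤ gV G r q v j := by
  unfold gV
  split_ifs
  · norm_num
  · norm_num
  · exact gW_nonneg hG r hρ hq v j

/-- sums over orientations are sums over codes -/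
theorem fsum_ori {G : SimpleGraph V} (hG : G.IsTree) (r : V) (q : V → V → ℝ) (P : (V → V → Prop) → Prop) :
    fsum {E | E ∈ Ori G ∧ P E} (wt q) = ∑ f ∈ univ.filter (fun f : V → Bool => P (orf G r f)), pw (gV G r q) f := by
  have h1 : ∑ f ∈ univ.filter (fun f : V → Bool => P (orf G r f)), pw (gV G r q) f =
      ∑ f ∈ (univ.filter (fun f : V → Bool => P (orf G r f))).filter (fun f => f r = true), pw (gV G r q) f := by
    symm
    rw [sum_filter]
    refine sum_congr rfl fun f _ => ?_
    split_ifs with hf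
    · rfl
    · symm
      unfold pw
      refine prod_eq_zero (mem_univ r) ?_
      unfold gV
      rw [if_pos rfl, if_neg hf]
  rw [h1]
  unfold fsum
  refine sum_bij' (fun E _ => cod G r E) (fun f _ => orf G r f) ?_ ?_ ?_ ?_ ?_
  · intro E hE
    rw [Set.Finite.mem_toFinset] at hE
    rw [mem_filter, mem_filter]
    refine ⟨⟨mem_univ _, ?_⟩, cod_root r E⟩
    rw [orf_cod hG r hE.1]
    exact hE.2
  · intro f hf
    rw [mem_filter, mem_filter] at hf
    rw [Set.Finite.mem_toFinset]
    exact ⟨orf_mem hG r f, hf.1.2⟩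
  · intro E hE
    rw [Set.Finite.mem_toFinset] at hE
    exact orf_cod hG r hE.1
  · intro f hf
    rw [mem_filter, mem_filter] at hf
    exact cod_orf hG hf.2
  · intro E hE
    rw [Set.Finite.mem_toFinset] at hE
    rw [wt_eq hG r q hE.1]
    unfold pw
    refine prod_congr rfl fun v _ => ?_
    unfold gV
    split_ifs with h2 h3
    · rw [h2]
      unfold gW
      rw [if_pos rfl]
    · rw [h2, cod_root] at h3
      exact absurd rfl h3
    · rfl

/-- **Independent bad events in disjoint parts of the tree.** -/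
theorem exp_bad {G : SimpleGraph V} (hG : G.IsTree) {ρ : ℝ} (hρ : 0 ≤ ρ) {q : V → V → ℝ} (hq : Wts G ρ q)
    {ι : Type*} (I : Finset ι) (F : ι → Set V) (hF : ∀ i ∈ I, ∀ j ∈ I, i ≠ j → Disjoint (F i) (F j))
    (B : ι → Set (V → V → Prop))
    (hB : ∀ i ∈ I, ∀ E ∈ Ori G, ∀ E' ∈ Ori G, (∀ a ∈ F i, ∀ b ∈ F i, E a b ↔ E' a b) → (E ∈ B i ↔ E' ∈ B i))
    (hp : ∀ i ∈ I, fsum {E | E ∈ Ori G ∧ E ∈ B i} (wt q) ≤ 1 / 16) :
    fsum {E | E ∈ Ori G ∧ I.card ≤ 2 * (I.filter (fun i => E ∈ B i)).card} (wt q) ≤ 1 / 2 ^ I.card := by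
  obtain ⟨r⟩ : Nonempty V := hG.connected.nonempty
  rw [fsum_ori hG r q]
  refine le_trans (le_of_eq ?_) (exp_code (gV_nonneg hG r hρ hq) (gV_total hG r hq) I F hF
    (fun i => {f | orf G r f ∈ B i}) ?_ ?_)
  · refine sum_congr ?_ fun _ _ => rfl
    ext f
    have : I.filter (fun i => f ∈ {f | orf G r f ∈ B i}) = I.filter (fun i => orf G r f ∈ B i) := by
      ext i
      rw [mem_filter, mem_filter]
      rfl
    simp only [mem_filter, this]
  · intro i hi f f' hff
    refine hB i hi _ (orf_mem hG r f) _ (orf_mem hG r f') fun a ha b hb => ?_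
    unfold orf
    rw [hff a ha, hff b hb]
  · intro i hi
    refine le_trans (le_of_eq ?_) (hp i hi)
    rw [fsum_ori hG r q]
    rfl

end ori

end AEJT
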