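import Pool.Agent.AEJT.Count

/-!
# A tree with `k` edges has `2 ^ k` orientations
-/

namespace AEJT

open Finset Relation
open scoped Classical

/-- the orientation with a given code: `f w` is the direction of the arc between `w` and its parent -/
def orf {V : Type*} (G : SimpleGraph V) (r : V) (f : V → Bool) : V → V → Prop := fun a b =>
  G.Adj a b ∧ ((G.dist r b = G.dist r a + 1 ∧ f b = true) ∨ (G.dist r a = G.dist r b + 1 ∧ f a = false))

theorem orf_mem {V : Type*} {G : SimpleGraph V} (hG : G.IsTree) (r : V) (f : V → Bool) : orf G r f ∈ Ori G := by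
  refine ⟨?_, ?_⟩
  · rintro a b ⟨-, h1⟩ ⟨-, h2⟩
    rcases h1 with ⟨h1, h3⟩ | ⟨h1, h3⟩ <;> rcases h2 with ⟨h2, h4⟩ | ⟨h2, h4⟩
    · omega
    · rw [h3] at h4
      exact absurd h4 (by simp)
    · rw [h3] at h4
      exact absurd h4 (by simp)
    · omega
  · ext a b
    rw [SimpleGraph.fromRel_adj]
    constructor
    · rintro ⟨-, h | h⟩
      · exact h.1
      · exact h.1.symm
    · intro h
      refine ⟨h.ne, ?_⟩
      rcases hG.dist_eq_dist_add_one_of_adj r h with h1 | h1
      · cases hf : f a
        · exact Or.inl ⟨h, Or.inr ⟨h1, hf⟩⟩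
        · exact Or.inr ⟨h.symm, Or.inl ⟨h1, hf⟩⟩
      · cases hf : f b
        · exact Or.inr ⟨h.symm, Or.inr ⟨h1, hf⟩⟩
        · exact Or.inl ⟨h, Or.inl ⟨h1, hf⟩⟩

theorem orf_eq {V : Type*} {G : SimpleGraph V} {r y w : V} (f : V → Bool) (hy : G.Adj y w)
    (h : G.dist r w = G.dist r y + 1) : orf G r f y w ↔ f w = true := by
  constructor
  · rintro ⟨-, ⟨-, h2⟩ | ⟨h1, -⟩⟩
    · exact h2
    · omega
  · intro h2
    exact ⟨hy, Or.inl ⟨h, h2⟩⟩

private theorem card_fun' {V : Type*} [Fintype V] {k : ℕ} (hk : Fintype.card V = k + 1) (r : V) :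
    {f : V → Bool | f r = true}.ncard = 2 ^ k := by
  have h : {f : V → Bool | f r = true} =
      ((Fintype.piFinset (fun w => if w = r then {true} else (univ : Finset Bool)) : Finset (V → Bool)) :
        Set (V → Bool)) := by
    ext f
    rw [Set.mem_ofPred_eq, mem_coe, Fintype.mem_piFinset]
    constructor
    · intro h w
      by_cases hw : w = r
      · subst hw
        simp [h]
      · simp [hw]
    · intro h
      have := h r
      simpa using this
  rw [h, Set.ncard_coe_finset, Fintype.card_piFinset]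
  have h2 : ∀ w, (if w = r then ({true} : Finset Bool) else univ).card = if w = r then 1 else 2 := by
    intro w
    split_ifs <;> simp
  simp only [h2]
  rw [prod_ite]
  simp only [prod_const_one, one_mul, prod_const]
  congr 1
  rw [filter_not, card_sdiff_of_subset (filter_subset _ _), card_univ, hk]
  have h3 : (univ.filter (fun w => w = r)).card = 1 := by
    rw [filter_eq' univ r, if_pos (mem_univ _), card_singleton]
  omega

/-- a tree with `k` edges has `2 ^ k` orientations -/
theorem card_ori {V : Type*} [Fintype V] {k : ℕ} (hk : Fintype.card V = k + 1) {G : SimpleGraph V} (hG : G.IsTree) :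
    (Ori G).ncard = 2 ^ k := by
  obtain ⟨r⟩ : Nonempty V := by
    rw [← Fintype.card_pos_iff, hk]
    omega
  refine le_antisymm (card_ori_le hk hG r) ?_
  rw [← card_fun' hk r]
  refine Set.ncard_le_ncard_of_injOn (orf G r) (fun f _ => orf_mem hG r f) ?_ (Set.toFinite _)
  intro f hf g hg h
  rw [Set.mem_ofPred_eq] at hf hg
  funext w
  by_cases hw : w = r
  · rw [hw, hf, hg]
  · have h0 : G.dist r w ≠ 0 := by
      intro h0
      exact hw (hG.connected.dist_eq_zero_iff.1 h0).symm
    obtain ⟨n, hn⟩ : ∃ n, G.dist r w = n + 1 := ⟨G.dist r w - 1, by omega⟩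
    obtain ⟨y, hy1, hy2⟩ := exists_pen hG.connected hn
    have h1 := orf_eq f hy1 (by omega : G.dist r w = G.dist r y + 1)
    have h2 := orf_eq g hy1 (by omega : G.dist r w = G.dist r y + 1)
    rw [h, h2] at h1
    cases hf' : f w <;> cases hg' : g w
    · rfl
    · rw [hf', hg'] at h1
      simp at h1
    · rw [hf', hg'] at h1
      simp at h1
    · rfl

end AEJT
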