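import Pool.Agent.AEJT.CountOri

/-!
# Random orientations of a tree with arbitrary product weights

Every edge `ab` of a tree is directed from `a` to `b` with weight `q a b` and from `b` to `a` with weight
`q b a = 1 - q a b`; the weight of an orientation is the product of the weights of its arcs.
-/

namespace AEJT

open Finset Relation
open scoped Classical

variable {V : Type*} [Fintype V]

/-- the sum of a function over a set -/
noncomputable def fsum {W : Type*} [Finite W] (A : Set W) (w : W → ℝ) : ℝ := ∑ x ∈ (Set.toFinite A).toFinset, w x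

theorem fsum_mono {W : Type*} [Finite W] {A B : Set W} {w : W → ℝ} (h : A ⊆ B) (hB : ∀ x ∈ B, 0 ≤ w x) :
    fsum A w ≤ fsum B w := by
  refine sum_le_sum_of_subset_of_nonneg ?_ ?_
  · intro x hx
    rw [Set.Finite.mem_toFinset] at hx ⊢
    exact h hx
  · intro x hx _
    rw [Set.Finite.mem_toFinset] at hx
    exact hB x hx

theorem fsum_union {W : Type*} [Finite W] {A B C : Set W} {w : W → ℝ} (h : A ⊆ B ∪ C) (hB : ∀ x ∈ B, 0 ≤ w x)
    (hC : ∀ x ∈ C, 0 ≤ w x) : fsum A w ≤ fsum B w + fsum C w := by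
  have h1 : fsum A w ≤ ∑ x ∈ (Set.toFinite B).toFinset ∪ (Set.toFinite C).toFinset, w x := by
    refine sum_le_sum_of_subset_of_nonneg ?_ ?_
    · intro x hx
      rw [Set.Finite.mem_toFinset] at hx
      rw [mem_union, Set.Finite.mem_toFinset, Set.Finite.mem_toFinset]
      exact h hx
    · intro x hx _
      rw [mem_union, Set.Finite.mem_toFinset, Set.Finite.mem_toFinset] at hx
      rcases hx with hx | hx
      · exact hB x hx
      · exact hC x hx
  refine h1.trans ?_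
  unfold fsum
  rw [← sum_union_inter]
  have : 0 ≤ ∑ x ∈ (Set.toFinite B).toFinset ∩ (Set.toFinite C).toFinset, w x := by
    refine sum_nonneg fun x hx => hB x ?_
    rw [mem_inter, Set.Finite.mem_toFinset] at hx
    exact hx.1
  linarith

theorem fsum_iUnion {W : Type*} [Finite W] {w : W → ℝ} (m : ℕ) : ∀ {A : Set W} {B : ℕ → Set W},
    (∀ x ∈ A, ∃ i < m, x ∈ B i) → (∀ i < m, ∀ x ∈ B i, 0 ≤ w x) → fsum A w ≤ ∑ i ∈ range m, fsum (B i) w := by
  induction m with
  | zero =>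
    intro A B h _
    have hA : (Set.toFinite A).toFinset = ∅ := by
      rw [Finset.eq_empty_iff_forall_notMem]
      intro x hx
      rw [Set.Finite.mem_toFinset] at hx
      obtain ⟨i, hi, -⟩ := h x hx
      omega
    unfold fsum
    rw [hA]
    simp
  | succ m ih =>
    intro A B h hB
    rw [sum_range_succ]
    refine (fsum_union (B := {x | ∃ i < m, x ∈ B i}) (C := B m) ?_ ?_ (hB m (by omega))).trans
      (add_le_add (ih (fun x hx => hx) fun i hi => hB i (by omega)) le_rfl)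
    · intro x hx
      obtain ⟨i, hi, hxi⟩ := h x hx
      rcases Nat.lt_succ_iff_lt_or_eq.1 hi with h' | h'
      · exact Or.inl ⟨i, h', hxi⟩
      · exact Or.inr (h' ▸ hxi)
    · rintro x ⟨i, hi, hxi⟩
      exact hB i (by omega) x hxi

/-- the weight of an orientation: the product of the weights of its arcs -/
noncomputable def wt (q : V → V → ℝ) (E : V → V → Prop) : ℝ := ∏ a, ∏ b, if E a b then q a b else 1

theorem wt_rev (q : V → V → ℝ) (E : V → V → Prop) : wt (fun a b => q b a) (fun a b => E b a) = wt q E := by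
  unfold wt
  rw [prod_comm]

/-- the parent of a vertex -/
noncomputable def parW (G : SimpleGraph V) (r v : V) : V :=
  if h : ∃ y, G.Adj y v ∧ G.dist r v = G.dist r y + 1 then h.choose else v

theorem parW_spec {G : SimpleGraph V} (hG : G.IsTree) {r v : V} (hv : v ≠ r) :
    G.Adj (parW G r v) v ∧ G.dist r v = G.dist r (parW G r v) + 1 := by
  have h0 : G.dist r v ≠ 0 := fun h0 => hv (hG.connected.dist_eq_zero_iff.1 h0).symm
  obtain ⟨n, hn⟩ : ∃ n, G.dist r v = n + 1 := ⟨G.dist r v - 1, by omega⟩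
  obtain ⟨y, hy1, hy2⟩ := exists_pen hG.connected hn
  have h : ∃ y, G.Adj y v ∧ G.dist r v = G.dist r y + 1 := ⟨y, hy1, by omega⟩
  unfold parW
  rw [dif_pos h]
  exact h.choose_spec

theorem parW_eq {G : SimpleGraph V} (hG : G.IsTree) {r a v : V} (h1 : G.Adj a v)
    (h2 : G.dist r v = G.dist r a + 1) : parW G r v = a := by
  have hv : v ≠ r := by
    rintro rfl
    rw [SimpleGraph.dist_self] at h2
    omega
  obtain ⟨h3, h4⟩ := parW_spec hG hv
  exact parent_unique hG r h3 h1 h4 h2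

/-- the weight of the arc between `v` and its parent -/
noncomputable def gW (G : SimpleGraph V) (r : V) (q : V → V → ℝ) (v : V) (j : Bool) : ℝ :=
  if v = r then 1 else if j = true then q (parW G r v) v else q v (parW G r v)

theorem wt_eq {G : SimpleGraph V} (hG : G.IsTree) (r : V) (q : V → V → ℝ) {E : V → V → Prop} (hE : E ∈ Ori G) :
    wt q E = ∏ v, gW G r q v (cod G r E v) := by
  have h1 : ∀ a b, (if E a b then q a b else 1) =
      (if E a b ∧ G.dist r b = G.dist r a + 1 then q a b else 1) *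
      (if E a b ∧ G.dist r a = G.dist r b + 1 then q a b else 1) := by
    intro a b
    by_cases hab : E a b
    · rcases hG.dist_eq_dist_add_one_of_adj r (Ori.adj hE hab) with h | h
      · rw [if_pos hab, if_neg (fun h' => by omega), if_pos ⟨hab, h⟩, one_mul]
      · rw [if_pos hab, if_pos ⟨hab, h⟩, if_neg (fun h' => by omega), mul_one]
    · simp [hab]
  unfold wt
  simp only [h1]
  simp only [prod_mul_distrib]
  rw [prod_comm, ← prod_mul_distrib]
  apply prod_congr rfl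
  intro v _
  by_cases hv : v = r
  · subst hv
    have e1 : ∀ a, (if E a v ∧ G.dist v v = G.dist v a + 1 then q a v else 1) = 1 := by
      intro a
      rw [if_neg]
      rintro ⟨-, h⟩
      rw [SimpleGraph.dist_self] at h
      omega
    have e2 : ∀ b, (if E v b ∧ G.dist v v = G.dist v b + 1 then q v b else 1) = 1 := by
      intro b
      rw [if_neg]
      rintro ⟨-, h⟩
      rw [SimpleGraph.dist_self] at h
      omega
    simp only [e1, e2, prod_const_one]
    simp [gW]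
  · obtain ⟨p1, p2⟩ := parW_spec hG hv
    have e1 : (∏ a, if E a v ∧ G.dist r v = G.dist r a + 1 then q a v else 1) =
        if E (parW G r v) v then q (parW G r v) v else 1 := by
      rw [prod_eq_single (parW G r v)]
      · simp [p2]
      · intro a _ ha
        rw [if_neg]
        rintro ⟨h, h'⟩
        exact ha (parW_eq hG (Ori.adj hE h) h').symm
      · intro h
        exact absurd (mem_univ _) h
    have e2 : (∏ b, if E v b ∧ G.dist r v = G.dist r b + 1 then q v b else 1) =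
        if E v (parW G r v) then q v (parW G r v) else 1 := by
      rw [prod_eq_single (parW G r v)]
      · simp [p2]
      · intro a _ ha
        rw [if_neg]
        rintro ⟨h, h'⟩
        exact ha (parW_eq hG (Ori.adj hE h).symm h').symm
      · intro h
        exact absurd (mem_univ _) h
    rw [e1, e2]
    have hcod : cod G r E v = true ↔ E (parW G r v) v := by
      rw [cod_true_iff]
      constructor
      · intro h
        exact h _ p1 p2
      · intro h a ha1 ha2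
        rw [← parW_eq hG ha1 ha2]
        exact h
    unfold gW
    rw [if_neg hv]
    by_cases h : E (parW G r v) v
    · rw [if_pos h, if_neg (hE.1 _ _ h), if_pos (hcod.2 h), mul_one]
    · have h' : E v (parW G r v) := (Ori.or hE p1).resolve_left h
      rw [if_neg h, if_pos h', if_neg (fun hc => h (hcod.1 hc)), one_mul]

/-- the code of the orientation with a given code -/
theorem cod_orf {G : SimpleGraph V} (hG : G.IsTree) {r : V} {f : V → Bool} (hf : f r = true) :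
    cod G r (orf G r f) = f := by
  funext w
  by_cases hw : w = r
  · subst hw
    rw [hf]
    exact cod_root w _
  · obtain ⟨p1, p2⟩ := parW_spec hG hw
    have h4 : cod G r (orf G r f) w = true ↔ f w = true := by
      rw [cod_true_iff, ← orf_eq f p1 p2]
      constructor
      · intro h
        exact h _ p1 p2
      · intro h a ha1 ha2
        rw [← parW_eq hG ha1 ha2]
        exact h
    cases h5 : f w
    · rw [h5] at h4
      simpa using h4
    · rw [h5] at h4
      simpa using h4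

/-- the orientation with the code of an orientation -/
theorem orf_cod {G : SimpleGraph V} (hG : G.IsTree) (r : V) {E : V → V → Prop} (hE : E ∈ Ori G) :
    orf G r (cod G r E) = E :=
  cod_inj hG r (orf_mem hG r _) hE (cod_orf hG (cod_root r E))

/-- the conditions on the weights -/
def Wts (G : SimpleGraph V) (ρ : ℝ) (q : V → V → ℝ) : Prop := ∀ a b, G.Adj a b → ρ ≤ q a b ∧ q a b + q b a = 1

theorem gW_nonneg {G : SimpleGraph V} (hG : G.IsTree) (r : V) {ρ : ℝ} (hρ : 0 ≤ ρ) {q : V → V → ℝ}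
    (hq : Wts G ρ q) (v : V) (j : Bool) : 0 ≤ gW G r q v j := by
  unfold gW
  split_ifs with h1 h2
  · norm_num
  · exact hρ.trans (hq _ _ (parW_spec hG h1).1).1
  · exact hρ.trans (hq _ _ (parW_spec hG h1).1.symm).1

theorem wt_nonneg {G : SimpleGraph V} {ρ : ℝ} (hρ : 0 ≤ ρ) {q : V → V → ℝ}
    (hq : Wts G ρ q) {E : V → V → Prop} (hE : E ∈ Ori G) : 0 ≤ wt q E := by
  unfold wt
  refine prod_nonneg fun a _ => prod_nonneg fun b _ => ?_
  split_ifs with h
  · exact hρ.trans (hq _ _ (Ori.adj hE h)).1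
  · norm_num

/-- the weight of the orientations in which `x` is reached from `v` -/
theorem wt_reach {G : SimpleGraph V} (hG : G.IsTree) {ρ : ℝ} (hρ : 0 ≤ ρ) {q : V → V → ℝ}
    (hq : Wts G ρ q) (r v x : V) (hx : x ∈ Tset G r v) :
    ∑ E ∈ univ.filter (fun E : V → V → Prop => E ∈ Ori G ∧ x ∈ Dset G r E v), wt q E ≤ (1 - ρ) ^ G.dist v x := by
  obtain ⟨S, hS1, hS2, hS3⟩ := exists_S hG r v x ((reach_iff hG r v x).2 hx)
  have hr : r ∉ S := by
    intro h
    have := (hS2 r h).1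
    rw [SimpleGraph.dist_self] at this
    omega
  obtain ⟨A, hA⟩ : ∃ A, A = univ.filter (fun E : V → V → Prop => E ∈ Ori G ∧ x ∈ Dset G r E v) := ⟨_, rfl⟩
  have hAm : ∀ E ∈ A, E ∈ Ori G ∧ x ∈ Dset G r E v := by
    intro E h
    rw [hA, mem_filter] at h
    exact h.2
  rw [← hA]
  obtain ⟨t, ht⟩ : ∃ t : V → Finset Bool, t = fun w => if w ∈ insert r S then {true} else univ := ⟨_, rfl⟩
  have h1 : ∑ E ∈ A, wt q E = ∑ f ∈ A.image (cod G r), ∏ v, gW G r q v (f v) := by
    rw [sum_image]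
    · exact sum_congr rfl fun E hE => wt_eq hG r q (hAm E hE).1
    · intro E hE E' hE' h
      exact cod_inj hG r (hAm E hE).1 (hAm E' hE').1 h
  have h2 : A.image (cod G r) ⊆ Fintype.piFinset t := by
    intro f hf
    obtain ⟨E, hE, rfl⟩ := mem_image.1 hf
    rw [Fintype.mem_piFinset]
    intro w
    rw [ht]
    by_cases hw : w ∈ insert r S
    · simp only [hw, if_true, mem_singleton]
      rcases mem_insert.1 hw with rfl | hw
      · exact cod_root w E
      · exact hS3 E (hAm E hE).1 (hAm E hE).2 w hw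
    · simp [hw]
  rw [h1]
  refine (sum_le_sum_of_subset_of_nonneg h2 fun f _ _ => prod_nonneg fun v _ => gW_nonneg hG r hρ hq v _).trans ?_
  rw [← prod_univ_sum]
  have h3 : ∀ w ∈ (univ : Finset V), (∑ j ∈ t w, gW G r q w j) ≤ if w ∈ S then 1 - ρ else 1 := by
    intro w _
    rw [ht]
    by_cases hw : w = r
    · subst hw
      simp only [mem_insert_self, if_true, sum_singleton, hr, if_false]
      simp [gW]
    · obtain ⟨p1, -⟩ := parW_spec hG hw
      have e1 := hq _ _ p1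
      have e2 := hq _ _ p1.symm
      by_cases hwS : w ∈ S
      · simp only [mem_insert, hw, hwS, or_true, if_true, sum_singleton]
        simp only [gW, hw, if_false, if_true]
        linarith [e1.2, e2.1]
      · simp only [mem_insert, hw, hwS, or_self, if_false]
        rw [Fintype.sum_bool]
        simp only [gW, hw, if_false, if_true, Bool.false_eq_true]
        linarith [e1.2]
  refine (prod_le_prod (fun w _ => sum_nonneg fun j _ => gW_nonneg hG r hρ hq w j) h3).trans ?_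
  rw [prod_ite, prod_const_one, mul_one, prod_const]
  have h4 : (univ.filter (fun w => w ∈ S)).card = G.dist v x := by
    rw [← hS1]
    congr 1
    ext w
    simp
  rw [h4]

/-- the weights of all orientations sum to one -/
theorem wt_total {G : SimpleGraph V} (hG : G.IsTree) {ρ : ℝ} {q : V → V → ℝ}
    (hq : Wts G ρ q) : fsum (Ori G) (wt q) = 1 := by
  obtain ⟨r⟩ : Nonempty V := hG.connected.nonempty
  obtain ⟨A, hA⟩ : ∃ A, A = (Set.toFinite (Ori G)).toFinset := ⟨_, rfl⟩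
  have hAm : ∀ E, E ∈ A ↔ E ∈ Ori G := by
    intro E
    rw [hA, Set.Finite.mem_toFinset]
  unfold fsum
  rw [← hA]
  obtain ⟨t, ht⟩ : ∃ t : V → Finset Bool, t = fun w => if w = r then {true} else univ := ⟨_, rfl⟩
  have h1 : ∑ E ∈ A, wt q E = ∑ f ∈ A.image (cod G r), ∏ v, gW G r q v (f v) := by
    rw [sum_image]
    · exact sum_congr rfl fun E hE => wt_eq hG r q ((hAm E).1 hE)
    · intro E hE E' hE' h
      exact cod_inj hG r ((hAm E).1 hE) ((hAm E').1 hE') h
  have h2 : A.image (cod G r) = Fintype.piFinset t := by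
    ext f
    rw [mem_image, Fintype.mem_piFinset]
    constructor
    · rintro ⟨E, -, rfl⟩ w
      rw [ht]
      by_cases hw : w = r
      · subst hw
        simp only [if_true, mem_singleton]
        exact cod_root w E
      · simp [hw]
    · intro h
      refine ⟨orf G r f, (hAm _).2 (orf_mem hG r f), cod_orf hG ?_⟩
      have h3 := h r
      rw [ht] at h3
      simpa using h3
  rw [h1, h2, ← prod_univ_sum]
  have h3 : ∀ w ∈ (univ : Finset V), (∑ j ∈ t w, gW G r q w j) = 1 := by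
    intro w _
    rw [ht]
    by_cases hw : w = r
    · subst hw
      simp [gW]
    · obtain ⟨p1, -⟩ := parW_spec hG hw
      have e1 := hq _ _ p1
      simp only [hw, if_false]
      rw [Fintype.sum_bool]
      simp only [gW, hw, if_false, if_true, Bool.false_eq_true]
      linarith [e1.2]
  rw [prod_congr rfl h3, prod_const_one]

/-- the weighted sum of the number of reached vertices -/
theorem sum_dsetW {G : SimpleGraph V} (hG : G.IsTree) {Δ : ℕ} (hΔ : 2 ≤ Δ)
    (hdeg : ∀ v, (G.neighborSet v).ncard ≤ Δ) {ρ : ℝ} (hρ : 0 ≤ ρ) (hρ1 : ρ ≤ 1) {q : V → V → ℝ} (hq : Wts G ρ q)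
    (r v : V) (L : ℕ) :
    ∑ E ∈ univ.filter (fun E : V → V → Prop => E ∈ Ori G), wt q E * ((Dset G r E v).ncard : ℝ) ≤
      (Δ : ℝ) ^ L + ((Tset G r v).ncard : ℝ) * (1 - ρ) ^ L := by
  have h1 : ∀ E ∈ univ.filter (fun E : V → V → Prop => E ∈ Ori G), wt q E * ((Dset G r E v).ncard : ℝ) =
      ∑ x ∈ univ.filter (fun x => x ∈ Tset G r v), if x ∈ Dset G r E v then wt q E else 0 := by
    intro E hE
    rw [mem_filter] at hE
    rw [← sum_filter, sum_const, nsmul_eq_mul, filter_filter, mul_comm]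
    congr 2
    rw [← Set.ncard_coe_finset]
    congr 1
    ext x
    rw [mem_coe, mem_filter]
    exact ⟨fun h => ⟨mem_univ _, dset_subset hG r hE.2 v h, h⟩, fun h => h.2.2⟩
  rw [sum_congr rfl h1, sum_comm]
  have hρ' : 0 ≤ 1 - ρ := by linarith
  have hρ'' : 1 - ρ ≤ 1 := by linarith
  have h2 : ∀ x ∈ univ.filter (fun x => x ∈ Tset G r v),
      (∑ E ∈ univ.filter (fun E : V → V → Prop => E ∈ Ori G), if x ∈ Dset G r E v then wt q E else 0) ≤
        (1 - ρ) ^ G.dist v x := by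
    intro x hx
    rw [mem_filter] at hx
    rw [← sum_filter, filter_filter]
    exact wt_reach hG hρ hq r v x hx.2
  refine (sum_le_sum h2).trans ?_
  have hT : (Tset G r v).ncard = (univ.filter (fun x => x ∈ Tset G r v)).card := by
    rw [← Set.ncard_coe_finset]
    congr 1
    ext x
    simp
  rw [← sum_filter_add_sum_filter_not (univ.filter (fun x => x ∈ Tset G r v)) (fun x => G.dist v x < L)]
  refine add_le_add ?_ ?_
  · have h5 : ∀ x ∈ (univ.filter (fun x => x ∈ Tset G r v)).filter (fun x => G.dist v x < L),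
        (1 - ρ) ^ G.dist v x ≤ 1 := fun x _ => pow_le_one₀ hρ' hρ''
    refine (sum_le_sum h5).trans ?_
    rw [sum_const, nsmul_eq_mul, mul_one]
    have h6 := card_ball hG.connected hΔ hdeg v L
    have h7 : ((univ.filter (fun x => x ∈ Tset G r v)).filter (fun x => G.dist v x < L)).card ≤ Δ ^ L := by
      refine le_trans (card_le_card ?_) (Nat.le_of_succ_le h6)
      intro x hx
      rw [mem_filter] at hx ⊢
      exact ⟨mem_univ _, hx.2⟩
    exact_mod_cast h7
  · have h5 : ∀ x ∈ (univ.filter (fun x => x ∈ Tset G r v)).filter (fun x => ¬ G.dist v x < L),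
        (1 - ρ) ^ G.dist v x ≤ (1 - ρ) ^ L := by
      intro x hx
      rw [mem_filter] at hx
      exact pow_le_pow_of_le_one hρ' hρ'' (by omega)
    refine (sum_le_sum h5).trans ?_
    rw [sum_const, nsmul_eq_mul, hT]
    refine mul_le_mul_of_nonneg_right ?_ (pow_nonneg hρ' _)
    exact_mod_cast card_le_card (filter_subset _ _)

/-- Markov's inequality -/
theorem wt_large {G : SimpleGraph V} (hG : G.IsTree) {Δ : ℕ} (hΔ : 2 ≤ Δ)
    (hdeg : ∀ v, (G.neighborSet v).ncard ≤ Δ) {ρ : ℝ} (hρ : 0 ≤ ρ) (hρ1 : ρ ≤ 1) {q : V → V → ℝ} (hq : Wts G ρ q)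
    (r v : V) (L : ℕ) {t : ℝ} (ht : 0 < t) :
    ∑ E ∈ univ.filter (fun E : V → V → Prop => E ∈ Ori G ∧ t < (Dset G r E v).ncard), wt q E ≤
      ((Δ : ℝ) ^ L + ((Tset G r v).ncard : ℝ) * (1 - ρ) ^ L) / t := by
  rw [le_div_iff₀ ht]
  refine le_trans ?_ (sum_dsetW hG hΔ hdeg hρ hρ1 hq r v L)
  rw [← filter_filter]
  refine le_trans ?_ (sum_le_sum_of_subset_of_nonneg (filter_subset (fun E => t < (Dset G r E v).ncard) _)
    (fun E hE _ => mul_nonneg (wt_nonneg hρ hq (mem_filter.1 hE).2) (Nat.cast_nonneg _)))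
  rw [sum_mul]
  refine sum_le_sum fun E hE => ?_
  rw [mem_filter, mem_filter] at hE
  exact mul_le_mul_of_nonneg_left hE.2.le (wt_nonneg hρ hq hE.1.2)

theorem wt_large' {G : SimpleGraph V} (hG : G.IsTree) {Δ : ℕ} (hΔ : 2 ≤ Δ)
    (hdeg : ∀ v, (G.neighborSet v).ncard ≤ Δ) {ρ : ℝ} (hρ : 0 ≤ ρ) (hρ1 : ρ ≤ 1) {q : V → V → ℝ} (hq : Wts G ρ q)
    (r v : V) (L : ℕ) {t : ℝ} (ht : 0 < t) :
    ∑ E ∈ univ.filter (fun E : V → V → Prop => E ∈ Ori G ∧ t < (Aset G r E v).ncard), wt q E ≤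
      ((Δ : ℝ) ^ L + ((Tset G r v).ncard : ℝ) * (1 - ρ) ^ L) / t := by
  have hq' : Wts G ρ (fun a b => q b a) := by
    intro a b hab
    have h1 := hq a b hab
    have h2 := hq b a hab.symm
    exact ⟨h2.1, h2.2⟩
  refine le_trans (le_of_eq ?_) (wt_large hG hΔ hdeg hρ hρ1 hq' r v L ht)
  refine sum_bij (fun E _ => fun a b => E b a) ?_ ?_ ?_ ?_
  · intro E hE
    rw [mem_filter] at hE ⊢
    refine ⟨mem_univ _, Ori.rev hE.2.1, ?_⟩
    have := hE.2.2
    rw [aset_eq] at this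
    exact this
  · intro E _ E' _ h
    funext a b
    exact congrFun (congrFun h b) a
  · intro E hE
    rw [mem_filter] at hE
    refine ⟨fun a b => E b a, ?_, rfl⟩
    rw [mem_filter]
    refine ⟨mem_univ _, Ori.rev hE.2.1, ?_⟩
    rw [aset_eq]
    exact hE.2.2
  · intro E _
    exact (wt_rev q E).symm

theorem fsum_filter {W : Type*} [Fintype W] (P : W → Prop) [DecidablePred P] (w : W → ℝ) :
    fsum {x | P x} w = ∑ x ∈ univ.filter P, w x := by
  unfold fsum
  refine sum_congr ?_ fun _ _ => rfl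
  ext x
  simp

theorem fsum_large {G : SimpleGraph V} (hG : G.IsTree) {Δ : ℕ} (hΔ : 2 ≤ Δ)
    (hdeg : ∀ v, (G.neighborSet v).ncard ≤ Δ) {ρ : ℝ} (hρ : 0 ≤ ρ) (hρ1 : ρ ≤ 1) {q : V → V → ℝ} (hq : Wts G ρ q)
    (r v : V) (L : ℕ) {t : ℝ} (ht : 0 < t) :
    fsum {E : V → V → Prop | E ∈ Ori G ∧ t < (Dset G r E v).ncard} (wt q) ≤
      ((Δ : ℝ) ^ L + ((Tset G r v).ncard : ℝ) * (1 - ρ) ^ L) / t := by
  refine le_trans (le_of_eq ?_) (wt_large hG hΔ hdeg hρ hρ1 hq r v L ht)
  exact fsum_filter _ _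

theorem fsum_large' {G : SimpleGraph V} (hG : G.IsTree) {Δ : ℕ} (hΔ : 2 ≤ Δ)
    (hdeg : ∀ v, (G.neighborSet v).ncard ≤ Δ) {ρ : ℝ} (hρ : 0 ≤ ρ) (hρ1 : ρ ≤ 1) {q : V → V → ℝ} (hq : Wts G ρ q)
    (r v : V) (L : ℕ) {t : ℝ} (ht : 0 < t) :
    fsum {E : V → V → Prop | E ∈ Ori G ∧ t < (Aset G r E v).ncard} (wt q) ≤
      ((Δ : ℝ) ^ L + ((Tset G r v).ncard : ℝ) * (1 - ρ) ^ L) / t := by
  refine le_trans (le_of_eq ?_) (wt_large' hG hΔ hdeg hρ hρ1 hq r v L ht)
  exact fsum_filter _ _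

private theorem geo2 (m : ℕ) : ∑ i ∈ range m, (1 : ℝ) / 2 ^ (m - 1 - i) ≤ 2 := by
  have h1 : ∑ i ∈ range m, (1 : ℝ) / 2 ^ (m - 1 - i) = ∑ i ∈ range m, (1 : ℝ) / 2 ^ i :=
    sum_range_reflect (fun i => (1 : ℝ) / 2 ^ i) m
  rw [h1]
  have h2 : ∀ n : ℕ, ∑ i ∈ range n, (1 : ℝ) / 2 ^ i = 2 - 2 / 2 ^ n := by
    intro n
    induction n with
    | zero => simp
    | succ n ih =>
      rw [sum_range_succ, ih, pow_succ]
      field_simp
      ring
  rw [h2]
  have : (0 : ℝ) ≤ 2 / 2 ^ m := by positivity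
  linarith

private theorem geo3 {ρ : ℝ} (hρ : 0 < ρ) (hρ1 : ρ ≤ 1) (m : ℕ) :
    ∑ i ∈ range m, (1 - ρ) ^ (m - 1 - i) ≤ 1 / ρ := by
  have h1 : ∑ i ∈ range m, (1 - ρ) ^ (m - 1 - i) = ∑ i ∈ range m, (1 - ρ) ^ i :=
    sum_range_reflect (fun i => (1 - ρ) ^ i) m
  rw [h1]
  have h2 : ∀ n : ℕ, ρ * ∑ i ∈ range n, (1 - ρ) ^ i = 1 - (1 - ρ) ^ n := by
    intro n
    induction n with
    | zero => simp
    | succ n ih =>
      rw [sum_range_succ, mul_add, ih, pow_succ]
      ring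
  rw [le_div_iff₀ hρ, mul_comm, h2]
  have : 0 ≤ (1 - ρ) ^ m := pow_nonneg (by linarith) _
  linarith

/-- **With large probability all marked vertices reach few vertices behind them and are reached by few of them** -/
theorem count_badW (Δ : ℕ) (hΔ : 2 ≤ Δ) {ρ ε δ : ℝ} (hρ : 0 < ρ) (hρ1 : ρ ≤ 1) (hε : 0 < ε) (hδ : 0 < δ) :
    ∃ M₀ : ℕ, ∀ M : ℕ, M₀ ≤ M → ∀ {V : Type} [Fintype V] (G : SimpleGraph V), G.IsTree →
    (∀ v, (G.neighborSet v).ncard ≤ Δ) → ∀ q : V → V → ℝ, Wts G ρ q →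
    ∀ (r : V) (m : ℕ) (v : ℕ → V), (∀ i < m, M ≤ (Tset G r (v i)).ncard) →
      (∀ i, i + 1 < m → 2 * Δ * (Tset G r (v (i + 1))).ncard ≤ (Tset G r (v i)).ncard) →
      fsum {E : V → V → Prop | E ∈ Ori G ∧ ∃ i < m,
        ε * (Tset G r (v i)).ncard < (Dset G r E (v i)).ncard ∨
        ε * (Tset G r (v i)).ncard < (Aset G r E (v i)).ncard} (wt q) ≤ δ := by
  -- the constants
  have hρ' : 0 ≤ 1 - ρ := by linarith
  obtain ⟨L₀, hL₀⟩ : ∃ L₀ : ℕ, (1 - ρ) ^ L₀ < ρ * ε * δ / 4 := by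
    exact exists_pow_lt_of_lt_one (by positivity) (by linarith)
  have hΔ' : (2 : ℝ) ≤ Δ := by exact_mod_cast hΔ
  have hΔ0 : (0 : ℝ) < Δ := by linarith
  obtain ⟨M₀, hM₀⟩ : ∃ M₀ : ℕ, M₀ = ⌈8 * (Δ : ℝ) ^ L₀ / (ε * δ)⌉₊ + 1 := ⟨_, rfl⟩
  refine ⟨M₀, ?_⟩
  intro M hM V _ G hG hdeg q hq r m v hv hs
  have hM1 : 8 * (Δ : ℝ) ^ L₀ / (ε * δ) ≤ M := by
    have h1 : ⌈8 * (Δ : ℝ) ^ L₀ / (ε * δ)⌉₊ ≤ M := by omega
    exact (Nat.le_ceil (8 * (Δ : ℝ) ^ L₀ / (ε * δ))).trans (Nat.cast_le.2 h1)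
  have hM0 : (0 : ℝ) < M := by
    have : 1 ≤ M := by omega
    exact_mod_cast this
  have hεδ : 0 < ε * δ := mul_pos hε hδ
  -- the sizes grow
  have hsz : ∀ j i : ℕ, i + j + 1 = m → (M : ℝ) * (2 * Δ) ^ j ≤ (Tset G r (v i)).ncard := by
    intro j
    induction j with
    | zero =>
      intro i hi
      rw [pow_zero, mul_one]
      exact_mod_cast hv i (by omega)
    | succ j ih =>
      intro i hi
      have h1 := ih (i + 1) (by omega)
      have h2 : (2 * Δ * (Tset G r (v (i + 1))).ncard : ℝ) ≤ (Tset G r (v i)).ncard := by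
        exact_mod_cast hs i (by omega)
      calc (M : ℝ) * (2 * Δ) ^ (j + 1) = 2 * Δ * (M * (2 * Δ) ^ j) := by ring
        _ ≤ 2 * Δ * (Tset G r (v (i + 1))).ncard := mul_le_mul_of_nonneg_left h1 (by positivity)
        _ ≤ _ := h2
  -- one mark
  have hone : ∀ i < m, fsum {E : V → V → Prop | E ∈ Ori G ∧
      (ε * (Tset G r (v i)).ncard < (Dset G r E (v i)).ncard ∨
      ε * (Tset G r (v i)).ncard < (Aset G r E (v i)).ncard)} (wt q) ≤
        δ / 4 * (1 / 2 ^ (m - 1 - i)) + ρ * δ / 2 * (1 - ρ) ^ (m - 1 - i) := by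
    intro i hi
    obtain ⟨j, hj⟩ : ∃ j, j = m - 1 - i := ⟨_, rfl⟩
    rw [← hj]
    have h1 := hsz j i (by omega)
    obtain ⟨s, hs'⟩ : ∃ s : ℝ, s = (Tset G r (v i)).ncard := ⟨_, rfl⟩
    rw [← hs'] at h1 ⊢
    have hs0 : 0 < s := lt_of_lt_of_le (by positivity) h1
    have h2 := fsum_large hG hΔ hdeg hρ.le hρ1 hq r (v i) (L₀ + j) (mul_pos hε hs0)
    have h3 := fsum_large' hG hΔ hdeg hρ.le hρ1 hq r (v i) (L₀ + j) (mul_pos hε hs0)
    refine (fsum_union (B := {E : V → V → Prop | E ∈ Ori G ∧ ε * s < (Dset G r E (v i)).ncard})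
      (C := {E : V → V → Prop | E ∈ Ori G ∧ ε * s < (Aset G r E (v i)).ncard}) ?_ ?_ ?_).trans
        ((add_le_add h2 h3).trans ?_)
    · rintro E ⟨hE, h | h⟩
      · exact Or.inl ⟨hE, h⟩
      · exact Or.inr ⟨hE, h⟩
    · rintro E ⟨hE, -⟩
      exact wt_nonneg hρ.le hq hE
    · rintro E ⟨hE, -⟩
      exact wt_nonneg hρ.le hq hE
    rw [← hs', ← two_mul]
    -- the numbers
    have h5 : ((Δ : ℝ) ^ (L₀ + j) + s * (1 - ρ) ^ (L₀ + j)) / (ε * s) =
        ((Δ : ℝ) ^ (L₀ + j) / s + (1 - ρ) ^ (L₀ + j)) / ε := by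
      field_simp
    rw [h5]
    have h6 : (Δ : ℝ) ^ (L₀ + j) / s ≤ ε * δ / 8 * (1 / 2 ^ j) := by
      rw [div_le_iff₀ hs0]
      have h7 : 8 * (Δ : ℝ) ^ L₀ ≤ M * (ε * δ) := by rwa [div_le_iff₀ hεδ] at hM1
      calc (Δ : ℝ) ^ (L₀ + j) = 8 * (Δ : ℝ) ^ L₀ * (Δ ^ j / 8) := by rw [pow_add]; ring
        _ ≤ M * (ε * δ) * (Δ ^ j / 8) := mul_le_mul_of_nonneg_right h7 (by positivity)
        _ = ε * δ / 8 * (1 / 2 ^ j) * (M * (2 * Δ) ^ j) := by
          rw [mul_pow]
          field_simp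
        _ ≤ ε * δ / 8 * (1 / 2 ^ j) * s := mul_le_mul_of_nonneg_left h1 (by positivity)
    have h7 : (1 - ρ) ^ (L₀ + j) ≤ ρ * ε * δ / 4 * (1 - ρ) ^ j := by
      rw [pow_add]
      exact mul_le_mul_of_nonneg_right hL₀.le (pow_nonneg hρ' _)
    have h8 : ((Δ : ℝ) ^ (L₀ + j) / s + (1 - ρ) ^ (L₀ + j)) / ε ≤
        (ε * δ / 8 * (1 / 2 ^ j) + ρ * ε * δ / 4 * (1 - ρ) ^ j) / ε :=
      div_le_div_of_nonneg_right (add_le_add h6 h7) hε.le
    calc 2 * (((Δ : ℝ) ^ (L₀ + j) / s + (1 - ρ) ^ (L₀ + j)) / ε)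
        ≤ 2 * ((ε * δ / 8 * (1 / 2 ^ j) + ρ * ε * δ / 4 * (1 - ρ) ^ j) / ε) :=
          mul_le_mul_of_nonneg_left h8 (by norm_num)
      _ = δ / 4 * (1 / 2 ^ j) + ρ * δ / 2 * (1 - ρ) ^ j := by
          field_simp
          ring
  -- the union
  refine (fsum_iUnion m (B := fun i => {E : V → V → Prop | E ∈ Ori G ∧
      (ε * (Tset G r (v i)).ncard < (Dset G r E (v i)).ncard ∨
      ε * (Tset G r (v i)).ncard < (Aset G r E (v i)).ncard)}) ?_ ?_).trans
    ((sum_le_sum fun i hi => hone i (Finset.mem_range.1 hi)).trans ?_)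
  · rintro E ⟨hE, i, hi, h⟩
    exact ⟨i, hi, hE, h⟩
  · rintro i - E ⟨hE, -⟩
    exact wt_nonneg hρ.le hq hE
  rw [sum_add_distrib, ← mul_sum, ← mul_sum]
  have h3 := geo2 m
  have h4 := geo3 hρ hρ1 m
  have h5 : δ / 4 * ∑ i ∈ range m, (1 : ℝ) / 2 ^ (m - 1 - i) ≤ δ / 4 * 2 := mul_le_mul_of_nonneg_left h3 (by positivity)
  have h6 : ρ * δ / 2 * ∑ i ∈ range m, (1 - ρ) ^ (m - 1 - i) ≤ ρ * δ / 2 * (1 / ρ) :=
    mul_le_mul_of_nonneg_left h4 (by positivity)
  have h7 : ρ * δ / 2 * (1 / ρ) = δ / 2 := by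
    field_simp
  linarith

end AEJT
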