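import Pool.Agent.AEJT.Typ

/-!
# Marks on a heavy path of a rooted tree
-/

namespace AEJT

open Finset Relation AE15 AED AELT AESK
open scoped Classical

/-- a child with a large branch, general form -/
theorem heavy_child' {τ : Type*} [Fintype τ] {P : τ → τ → Prop} {h : τ → ℕ} (hE : ∀ a b, P a b → h a < h b)
    (hin : ∀ a b c, P a c → P b c → a = b) {Δ : ℕ} (hΔ1 : 1 ≤ Δ) (u : τ) (hΔ : (chl P u).card ≤ Δ)
    (hu : 2 ≤ (AE32.desc P u).card) : ∃ w, P u w ∧ (AE32.desc P u).card ≤ 2 * Δ * (AE32.desc P w).card := by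
  by_contra hcon
  push Not at hcon
  obtain ⟨h1, h2⟩ := desc_eq hE u
  have h3 : (AE32.desc P u).card = ∑ c ∈ chl P u, (AE32.desc P c).card + 1 := by
    rw [← card_biUnion, ← card_insert_of_notMem h2, ← h1]
    intro c hc d hd hcd
    exact AE32.desc_disjoint hE hin (mem_chl.1 hc) (mem_chl.1 hd) hcd
  obtain ⟨s, hs⟩ : ∃ s, s = (AE32.desc P u).card := ⟨_, rfl⟩
  rw [← hs] at h3 hu hcon
  have h4 : ∑ c ∈ chl P u, 2 * Δ * (AE32.desc P c).card ≤ (chl P u).card * (s - 1) := by
    have e1 := Finset.sum_le_card_nsmul (chl P u) (fun c => 2 * Δ * (AE32.desc P c).card) (s - 1)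
      (fun c hc => by
        have := hcon c (mem_chl.1 hc)
        show 2 * Δ * (AE32.desc P c).card ≤ s - 1
        omega)
    rw [smul_eq_mul] at e1
    exact e1
  rw [← Finset.mul_sum] at h4
  have h5 : (chl P u).card * (s - 1) ≤ Δ * (s - 1) := Nat.mul_le_mul_right _ hΔ
  have h6 : ∑ c ∈ chl P u, (AE32.desc P c).card = s - 1 := by omega
  rw [h6] at h4
  have h7 : 1 ≤ Δ * (s - 1) := Nat.one_le_iff_ne_zero.2 (Nat.mul_ne_zero (by omega) (by omega))
  have h8 : 2 * Δ * (s - 1) = 2 * (Δ * (s - 1)) := by ring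
  omega

section

variable {k : ℕ} {G : SimpleGraph (Fin (k + 1))} {r : Fin (k + 1)}

/-- a child with a large branch -/
theorem heavy_child (hG : G.IsTree) {Δ : ℕ} (hΔ1 : 1 ≤ Δ) (hΔ : ∀ v, (G.neighborSet v).ncard ≤ Δ) (u : Fin (k + 1))
    (hu : 2 ≤ (AE32.desc (Par G r) u).card) :
    ∃ w, Par G r u w ∧ (AE32.desc (Par G r) u).card ≤ 2 * Δ * (AE32.desc (Par G r) w).card :=
  heavy_child' (h := fun v => G.dist r v) (fun _ _ h => h.lt) (fun _ _ _ h h' => h.unique hG h') hΔ1 u
    (code_len_le hG hΔ u) hu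

/-- the next mark -/
theorem next_mark (hG : G.IsTree) {Δ K : ℕ} (hΔ1 : 1 ≤ Δ) (hΔ : ∀ v, (G.neighborSet v).ncard ≤ Δ) (hK : 2 ≤ K) {s : ℕ}
    (hs : 2 * K ≤ s) (n : ℕ) : ∀ u, (AE32.desc (Par G r) u).card = n → s < K * (AE32.desc (Par G r) u).card →
      ∃ w, ReflTransGen (Par G r) u w ∧ K * (AE32.desc (Par G r) w).card ≤ s ∧
        s ≤ 2 * K * Δ * (AE32.desc (Par G r) w).card := by
  induction n using Nat.strong_induction_on with
  | _ n ih =>
    intro u hu hsu
    have h2 : 2 ≤ (AE32.desc (Par G r) u).card := by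
      by_contra hcon
      push Not at hcon
      have : K * (AE32.desc (Par G r) u).card ≤ K * 1 := Nat.mul_le_mul_left _ (by omega)
      omega
    obtain ⟨w, hw1, hw2⟩ := heavy_child (r := r) hG hΔ1 hΔ u h2
    rcases Nat.lt_or_ge s (K * (AE32.desc (Par G r) w).card) with h | h
    · obtain ⟨x, x1, x2, x3⟩ := ih _ (by
        rw [← hu]
        exact desc_card_lt (h := fun v => G.dist r v) (fun _ _ h => h.lt) hw1) w rfl h
      exact ⟨x, ReflTransGen.head hw1 x1, x2, x3⟩
    · refine ⟨w, ReflTransGen.single hw1, h, ?_⟩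
      have h3 : K * (AE32.desc (Par G r) u).card ≤ K * (2 * Δ * (AE32.desc (Par G r) w).card) :=
        Nat.mul_le_mul_left _ hw2
      have h4 : K * (2 * Δ * (AE32.desc (Par G r) w).card) = 2 * K * Δ * (AE32.desc (Par G r) w).card := by ring
      omega

end

theorem marks : MarksSt := by
  intro k G hG Δ K M hΔ1 hΔ hK hM r
  have key : ∀ n (v : Fin (k + 1)), (AE32.desc (Par G r) v).card = n →
      ∃ (m : ℕ) (mu : ℕ → Fin (k + 1)), mu 0 = v ∧ (∀ i < m, ReflTransGen (Par G r) (mu i) (mu (i + 1))) ∧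
        (∀ i < m, M ≤ (AE32.desc (Par G r) (mu i)).card) ∧
        (∀ i < m, K * (AE32.desc (Par G r) (mu (i + 1))).card ≤ (AE32.desc (Par G r) (mu i)).card) ∧
        (∀ i < m, (AE32.desc (Par G r) (mu i)).card ≤ 2 * K * Δ * (AE32.desc (Par G r) (mu (i + 1))).card) ∧
        (AE32.desc (Par G r) (mu m)).card < M := by
    intro n
    induction n using Nat.strong_induction_on with
    | _ n ih =>
      intro v hv
      rcases Nat.lt_or_ge n M with h | h
      · exact ⟨0, fun _ => v, rfl, fun i hi => absurd hi (Nat.not_lt_zero _), fun i hi => absurd hi (Nat.not_lt_zero _),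
          fun i hi => absurd hi (Nat.not_lt_zero _), fun i hi => absurd hi (Nat.not_lt_zero _), by rw [hv]; exact h⟩
      · have hn : 0 < n := by omega
        obtain ⟨w, w1, w2, w3⟩ := next_mark (r := r) hG hΔ1 hΔ hK (hM.trans h) n v hv (by
          rw [hv]
          have : 2 * n ≤ K * n := Nat.mul_le_mul_right _ hK
          omega)
        have hw0 : 0 < (AE32.desc (Par G r) w).card := card_pos.2 ⟨w, AE32.self_mem_desc w⟩
        have hwn : (AE32.desc (Par G r) w).card < n := by
          have : 2 * (AE32.desc (Par G r) w).card ≤ K * (AE32.desc (Par G r) w).card := Nat.mul_le_mul_right _ hK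
          omega
        obtain ⟨m, mu, m0, m1, m2, m3, m4, m5⟩ := ih _ hwn w rfl
        refine ⟨m + 1, fun i => if i = 0 then v else mu (i - 1), by simp, ?_, ?_, ?_, ?_, ?_⟩
        · intro i hi
          rcases Nat.eq_zero_or_pos i with rfl | hi0
          · simpa [m0] using w1
          · obtain ⟨j, rfl⟩ : ∃ j, i = j + 1 := ⟨i - 1, by omega⟩
            simpa using m1 j (by omega)
        · intro i hi
          rcases Nat.eq_zero_or_pos i with rfl | hi0
          · simpa [hv] using h
          · obtain ⟨j, rfl⟩ : ∃ j, i = j + 1 := ⟨i - 1, by omega⟩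
            simpa using m2 j (by omega)
        · intro i hi
          rcases Nat.eq_zero_or_pos i with rfl | hi0
          · simpa [m0, hv] using w2
          · obtain ⟨j, rfl⟩ : ∃ j, i = j + 1 := ⟨i - 1, by omega⟩
            simpa using m3 j (by omega)
        · intro i hi
          rcases Nat.eq_zero_or_pos i with rfl | hi0
          · simpa [m0, hv] using w3
          · obtain ⟨j, rfl⟩ : ∃ j, i = j + 1 := ⟨i - 1, by omega⟩
            simpa using m4 j (by omega)
        · simpa using m5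
  exact key _ r rfl

end AEJT
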