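import Pool.Agent.AEJ.Reg
import Pool.Agent.AELT.Main0

/-!
# The middle of a set in the order of the blocks
-/

namespace AEJT

open Finset AE15 AED LTT AELT AEJ
open scoped Classical

variable {V : Type*}

private theorem low_part (N1 : Finset V) (be : V → ℕ) :
    ((N1.filter (fun v => ((N1.filter (fun u => be u ≤ be v)).card : ℝ) < (N1.card : ℝ) / 4)).card : ℝ) ≤
      (N1.card : ℝ) / 4 := by
  obtain ⟨L, hL⟩ : ∃ L, L = N1.filter (fun v => ((N1.filter (fun u => be u ≤ be v)).card : ℝ) < (N1.card : ℝ) / 4) :=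
    ⟨_, rfl⟩
  rw [← hL]
  rcases L.eq_empty_or_nonempty with h | h
  · rw [h, card_empty, Nat.cast_zero]
    positivity
  · obtain ⟨v, hv, hmax⟩ := exists_max_image L be h
    have h1 : L ⊆ N1.filter (fun u => be u ≤ be v) := by
      intro u hu
      refine mem_filter.2 ⟨?_, hmax u hu⟩
      rw [hL] at hu
      exact (mem_filter.1 hu).1
    rw [hL] at hv
    have h2 := (mem_filter.1 hv).2
    have h3 : (L.card : ℝ) ≤ ((N1.filter (fun u => be u ≤ be v)).card : ℝ) := by exact_mod_cast card_le_card h1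
    linarith

private theorem upp_part (N1 : Finset V) (be : V → ℕ) :
    ((N1.filter (fun v => ((N1.filter (fun u => be v ≤ be u)).card : ℝ) < (N1.card : ℝ) / 4)).card : ℝ) ≤
      (N1.card : ℝ) / 4 := by
  obtain ⟨L, hL⟩ : ∃ L, L = N1.filter (fun v => ((N1.filter (fun u => be v ≤ be u)).card : ℝ) < (N1.card : ℝ) / 4) :=
    ⟨_, rfl⟩
  rw [← hL]
  rcases L.eq_empty_or_nonempty with h | h
  · rw [h, card_empty, Nat.cast_zero]
    positivity
  · obtain ⟨v, hv, hmin⟩ := exists_min_image L be h
    have h1 : L ⊆ N1.filter (fun u => be v ≤ be u) := by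
      intro u hu
      refine mem_filter.2 ⟨?_, hmin u hu⟩
      rw [hL] at hu
      exact (mem_filter.1 hu).1
    rw [hL] at hv
    have h2 := (mem_filter.1 hv).2
    have h3 : (L.card : ℝ) ≤ ((N1.filter (fun u => be v ≤ be u)).card : ℝ) := by exact_mod_cast card_le_card h1
    linarith

/-- **Middle of a set**: a vertex `z` of `N1` whose block contains a proportional part of `N1`, with many vertices in the
blocks up to its block and in the blocks from its block on -/
theorem mid_block {Z N1 : Finset V} {be : V → ℕ} {β' : ℝ} (hβ : 0 ≤ β') (hN : N1 ⊆ Z) (hc : β' * Z.card ≤ N1.card)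
    (hne : N1.Nonempty) : ∃ z ∈ N1, β' / 2 * (blkI Z be (be z)).card ≤ ((N1.filter (fun u => be u = be z)).card : ℝ) ∧
      (N1.card : ℝ) / 4 ≤ cumA be Z (be z + 1) ∧ (N1.card : ℝ) / 4 ≤ (Z.card : ℝ) - cumA be Z (be z) := by
  obtain ⟨P, hP⟩ : ∃ P, P = N1.filter (fun v => (N1.card : ℝ) / 4 ≤ ((N1.filter (fun u => be u ≤ be v)).card : ℝ) ∧
    (N1.card : ℝ) / 4 ≤ ((N1.filter (fun u => be v ≤ be u)).card : ℝ)) := ⟨_, rfl⟩
  have hcover : N1 ⊆ (P ∪ N1.filter (fun v => ((N1.filter (fun u => be u ≤ be v)).card : ℝ) < (N1.card : ℝ) / 4)) ∪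
      N1.filter (fun v => ((N1.filter (fun u => be v ≤ be u)).card : ℝ) < (N1.card : ℝ) / 4) := by
    intro v hv
    rw [hP, mem_union, mem_union, mem_filter, mem_filter, mem_filter]
    by_cases h1 : ((N1.filter (fun u => be u ≤ be v)).card : ℝ) < (N1.card : ℝ) / 4
    · exact Or.inl (Or.inr ⟨hv, h1⟩)
    · by_cases h2 : ((N1.filter (fun u => be v ≤ be u)).card : ℝ) < (N1.card : ℝ) / 4
      · exact Or.inr ⟨hv, h2⟩
      · push Not at h1 h2
        exact Or.inl (Or.inl ⟨hv, h1, h2⟩)
  have hsub : P ⊆ N1 := by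
    rw [hP]
    exact filter_subset _ _
  have hcard : (N1.card : ℝ) / 2 ≤ P.card := by
    have h1 := (card_le_card hcover).trans ((card_union_le _ _).trans (Nat.add_le_add_right (card_union_le _ _) _))
    have h2 : (N1.card : ℝ) ≤ P.card +
        ((N1.filter (fun v => ((N1.filter (fun u => be u ≤ be v)).card : ℝ) < (N1.card : ℝ) / 4)).card : ℝ) +
        ((N1.filter (fun v => ((N1.filter (fun u => be v ≤ be u)).card : ℝ) < (N1.card : ℝ) / 4)).card : ℝ) := by
      exact_mod_cast h1
    have h3 := low_part N1 be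
    have h4 := upp_part N1 be
    linarith
  have hN0 : (0 : ℝ) < N1.card := by exact_mod_cast card_pos.2 hne
  have hPne : P.Nonempty := by
    rw [← card_pos]
    have : (0 : ℝ) < P.card := by linarith
    exact_mod_cast this
  obtain ⟨z, hz, hzb⟩ := exists_block (X := Z) (M := P) (β := be) (ε := β' / 2) (by linarith) (by linarith) hPne
  have hz' := hz
  rw [hP, mem_filter] at hz'
  obtain ⟨hz1, hz2, hz3⟩ := hz'
  refine ⟨z, hz1, hzb.trans ?_, hz2.trans ?_, hz3.trans ?_⟩
  · exact_mod_cast card_le_card (filter_subset_filter _ hsub)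
  · unfold cumA
    have : N1.filter (fun u => be u ≤ be z) ⊆ Z.filter (fun v => be v < be z + 1) := by
      intro u hu
      rw [mem_filter] at hu ⊢
      exact ⟨hN hu.1, by omega⟩
    exact_mod_cast card_le_card this
  · unfold cumA
    have h1 : N1.filter (fun u => be z ≤ be u) ⊆ Z \ Z.filter (fun v => be v < be z) := by
      intro u hu
      rw [mem_filter] at hu
      rw [mem_sdiff, mem_filter]
      exact ⟨hN hu.1, fun h => by omega⟩
    have h2 := card_le_card h1
    rw [card_sdiff_of_subset (filter_subset _ _)] at h2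
    have h3 : (Z.filter (fun v => be v < be z)).card ≤ Z.card := card_le_card (filter_subset _ _)
    have h4 : ((N1.filter (fun u => be z ≤ be u)).card : ℝ) + ((Z.filter (fun v => be v < be z)).card : ℝ) ≤ Z.card := by
      exact_mod_cast (by omega)
    linarith

end AEJT
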