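import Pool.Agent.AEJT.Typ
import Pool.Agent.AEJT.CountW

/-!
# Random orientations of a tree of bounded degree
-/

namespace AEJT

open Finset Relation AE15 AED AELT AESK
open scoped Classical

theorem Wts.mono {V : Type*} {G : SimpleGraph V} {ρ ρ' : ℝ} {q : V → V → ℝ} (h : Wts G ρ q) (h' : ρ' ≤ ρ) :
    Wts G ρ' q := fun a b hab => ⟨h'.trans (h a b hab).1, (h a b hab).2⟩

/-- **Random orientations with arbitrary probabilities on the edges.** For every `Δ`, `ρ > 0` and `δ > 0` there is a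
constant `C` such that for every tree with `k` edges and maximum degree at most `Δ`, if every edge is directed
independently and each of its two directions has probability at least `ρ`, then with probability at least `1 - δ` the
oriented tree is contained in all tournaments with at least `k + C` vertices. -/
theorem smoothed_of (hM : MarksSt) (hC : ClosSt) (Δ : ℕ) {ρ δ : ℝ} (hρ : 0 < ρ) (hδ : 0 < δ) :
    ∃ C : ℕ, ∀ (k : ℕ) (G : SimpleGraph (Fin (k + 1))), G.IsTree → (∀ v, (G.neighborSet v).ncard ≤ Δ) →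
      ∀ q : Fin (k + 1) → Fin (k + 1) → ℝ, Wts G ρ q →
      fsum {E : Fin (k + 1) → Fin (k + 1) → Prop | E ∈ Ori G ∧ ∃ n : ℕ, k + C ≤ n ∧
        ∃ R : Fin n → Fin n → Prop, (∀ a, ¬ R a a) ∧ (∀ a b, a ≠ b → R a b ∨ R b a) ∧ (∀ a b, R a b → ¬ R b a) ∧
        ¬ ∃ f : Fin (k + 1) → Fin n, Function.Injective f ∧ ∀ a b, E a b → R (f a) (f b)} (wt q) ≤ δ := by
  obtain ⟨σ, hσ⟩ : ∃ σ, σ = min ρ 1 := ⟨_, rfl⟩
  have hσ0 : 0 < σ := by rw [hσ]; exact lt_min hρ one_pos
  have hσ1 : σ ≤ 1 := by rw [hσ]; exact min_le_right _ _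
  have hσρ : σ ≤ ρ := by rw [hσ]; exact min_le_left _ _
  obtain ⟨D, hD⟩ : ∃ D, D = max Δ 2 := ⟨_, rfl⟩
  have hD2 : 2 ≤ D := by rw [hD]; exact le_max_right _ _
  obtain ⟨K0, ε, hε, hC1⟩ := hC D (by omega)
  obtain ⟨K, hK⟩ : ∃ K, K = max K0 (2 * D) := ⟨_, rfl⟩
  have hK0 : K0 ≤ K := by rw [hK]; exact le_max_left _ _
  have hKD : 2 * D ≤ K := by rw [hK]; exact le_max_right _ _
  obtain ⟨M0, hM0⟩ := count_badW D hD2 hσ0 hσ1 hε hδ
  obtain ⟨M, hMd⟩ : ∃ M, M = max M0 (2 * K) := ⟨_, rfl⟩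
  have hM1 : M0 ≤ M := by rw [hMd]; exact le_max_left _ _
  have hM2 : 2 * K ≤ M := by rw [hMd]; exact le_max_right _ _
  have hKr : (0 : ℝ) < K := by
    have : 0 < K := by omega
    exact_mod_cast this
  have hDr : (0 : ℝ) < D := by
    have : 0 < D := by omega
    exact_mod_cast this
  obtain ⟨C, hC2⟩ := hC1 K hK0 (1 / (2 * K * D)) (by positivity) M
  refine ⟨C + 1, ?_⟩
  intro k G hG hdeg q hq
  have hdeg' : ∀ v, (G.neighborSet v).ncard ≤ D := fun v => (hdeg v).trans (by rw [hD]; exact le_max_left _ _)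
  obtain ⟨m, mu, m0, m1, m2, m3, m4, m5⟩ := hM hG (Δ := D) (K := K) (M := M) (by omega) hdeg' (by omega) hM2 (0 : Fin (k + 1))
  have e3 : ∀ i, (AE32.desc (Par G 0) (mu i)).card = (Tset G 0 (mu i)).ncard := fun i => card_desc hG (mu i)
  have h7 := hM0 M hM1 G hG hdeg' q (hq.mono hσρ) 0 m mu (fun i hi => by rw [← e3]; exact m2 i hi) (fun i hi => by
    rw [← e3, ← e3]
    exact (Nat.mul_le_mul_right _ hKD).trans (m3 i (by omega)))
  refine le_trans (fsum_mono ?_ fun E hE => wt_nonneg hρ.le hq hE.1) h7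
  rintro E ⟨hE, n, hn, R, r1, r2, r3, r4⟩
  refine ⟨hE, ?_⟩
  by_contra hcon
  push Not at hcon
  apply r4
  have hL := lc_of_marks (ε := ε) hG hE (by omega) (by omega) m0 m1 m3 m4 m5 (fun i hi => hcon i hi)
  obtain ⟨f, f1, f2⟩ := emb_code (R := R) (N := fun _ => True) (X := univ) hG hE (hC2 ⟨r1, r2, r3⟩ _ (by
    rw [code_len (h := fun v => G.dist 0 v) (fun _ _ h => h.lt)]
    exact code_len_le hG hdeg' 0) (code_deg (h := fun v => G.dist 0 v) (fun _ _ h => h.lt) (code_len_le hG hdeg') _ 0 rfl)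
    hL univ (by
      rw [card_univ, Fintype.card_fin]
      have := size_code (E := E) (r := (0 : Fin (k + 1))) hG 0
      rw [desc_root hG, card_univ, Fintype.card_fin] at this
      omega))
  exact ⟨f, f1, f2⟩

end AEJT
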